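import Pool.Agent.Lib_MP_38e082_all.Defs

/-!
# H26: elementary consequences of the properties of the parameters
-/

set_option linter.unusedSectionVars false
set_option linter.unusedVariables false

namespace Pool.Agent.FreeSetsA

universe u

open Set Cardinal Pool.Agent.KT Pool.Agent.KTM

variable {O P : Type u} [LinearOrder O] [OrderBot O] [WellFoundedLT O] {σ κ : O → Cardinal.{u}}
  {a c τ : O → O} {Λ : O} (hS : SysF O P σ κ a c τ Λ)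
include hS

theorem SysF.κ_le_σ {γ ξ : O} (h : γ < ξ) : κ γ ≤ σ ξ := hS.κ_le γ ξ h

theorem SysF.σ_inf {γ : O} (hγ : γ ≠ ⊥) : ℵ₀ ≤ σ γ :=
  (hS.inf ⊥).trans (hS.κ_le ⊥ γ (bot_lt_iff_ne_bot.2 hγ))

theorem SysF.σ_lt_κ {γ : O} (hγ : γ ≠ ⊥) : σ γ < κ γ := (hS.a_card γ hγ).trans (hS.a_lt_κ γ hγ)

theorem SysF.κ_lt {γ ξ : O} (h : γ < ξ) : κ γ < κ ξ :=
  (hS.κ_le γ ξ h).trans_lt (hS.σ_lt_κ (ne_bot_of_gt h))

theorem SysF.κ_lt_a {γ ξ : O} (h : γ < ξ) : κ γ < #(Iio (a ξ)) :=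
  (hS.κ_le γ ξ h).trans_lt (hS.a_card ξ (ne_bot_of_gt h))

theorem SysF.lt_of_card {x y : O} (h : #(Iio x) < #(Iio y)) : x < y := by
  by_contra hc
  exact absurd h (not_lt.2 (mk_le_mk_of_subset (Iio_subset_Iio (not_lt.1 hc))))

theorem SysF.a_lt {γ ξ : O} (h : γ < ξ) : a γ < a ξ :=
  hS.lt_of_card ((hS.a_le γ).trans_lt (hS.κ_lt_a h))

theorem SysF.a_mono : StrictMono a := fun _ _ h => hS.a_lt h

theorem SysF.le_a (γ : O) : γ ≤ a γ := hS.a_mono.le_apply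

theorem SysF.a_lt_τ {β γ : O} (hβ : Lim β) (h : γ < β) : a γ < τ β := by
  obtain ⟨γ', h1, h2⟩ := hβ.2 γ h
  exact (hS.τ_lt β hβ.1 _).2 ⟨γ', h1, hS.a_lt h2⟩

theorem SysF.le_τ {β : O} (hβ : Lim β) : β ≤ τ β := by
  by_contra hc
  exact absurd (hS.a_lt_τ hβ (not_le.1 hc)) (not_lt.2 (hS.le_a _))

theorem SysF.Λ_le {β : O} (hβ : β ≠ ⊥) : Λ ≤ τ β := by
  by_contra hc
  have h1 := (hS.τ_lt β hβ (τ β)).2 ⟨⊥, bot_lt_iff_ne_bot.2 hβ, by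
    rw [hS.a_bot]; exact not_le.1 hc⟩
  exact lt_irrefl _ h1

theorem SysF.mk_τ_le {β : O} (hβ : β ≠ ⊥) : #(Iio (τ β)) ≤ σ β := by
  have h1 : ∀ x : Iio (τ β), ∃ γ : Iio β, x.1 < a γ.1 := by
    intro x
    obtain ⟨γ, h1, h2⟩ := (hS.τ_lt β hβ x.1).1 x.2
    exact ⟨⟨γ, h1⟩, h2⟩
  choose f hf using h1
  have h2 : #(Iio (τ β)) ≤ #(Σ γ : Iio β, Iio (a γ.1)) :=
    mk_le_of_injective (f := fun x => ⟨f x, ⟨x.1, hf x⟩⟩) fun x y h => by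
      have h3 := congrArg (fun z : Σ γ : Iio β, Iio (a γ.1) => z.2.1) h
      exact Subtype.ext h3
  refine h2.trans ?_
  rw [mk_sigma]
  calc Cardinal.sum (fun γ : Iio β => #(Iio (a γ.1)))
      ≤ Cardinal.sum (fun _ : Iio β => σ β) :=
        Cardinal.sum_le_sum _ _ fun γ => (hS.a_le γ.1).trans (hS.κ_le γ.1 β γ.2)
    _ = #(Iio β) * σ β := by rw [Cardinal.sum_const']
    _ ≤ σ β * σ β := mul_le_mul' (hS.seg_le β hβ) le_rfl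
    _ = σ β := mul_eq_self (hS.σ_inf hβ)

theorem SysF.τ_lt_a {β : O} (hβ : β ≠ ⊥) : τ β < a β :=
  hS.lt_of_card ((hS.mk_τ_le hβ).trans_lt (hS.a_card β hβ))

theorem SysF.c_pos {β : O} (hβ : β ≠ ⊥) : ⊥ < c β := by
  rw [bot_lt_iff_ne_bot]
  intro h
  have h1 := hS.kc β hβ
  rw [h] at h1
  have h2 : #(Iio (⊥ : O)) = 0 := by
    rw [Cardinal.mk_eq_zero_iff]
    exact ⟨fun y => not_lt_bot y.2⟩
  rw [h2] at h1
  exact absurd ((hS.inf β).trans h1) (not_le.2 Cardinal.aleph0_pos)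

theorem SysF.succ_lt {γ : O} {x : Cardinal.{u}} (h : x < κ γ) : Order.succ x < κ γ :=
  (Order.succ_le_of_lt (cantor x)).trans_lt (hS.sl γ x h)

theorem SysF.succ_succ_lt {γ ξ : O} (h : γ < ξ) : Order.succ (Order.succ (κ γ)) < κ ξ :=
  hS.succ_lt (hS.succ_lt (hS.κ_lt h))

end Pool.Agent.FreeSetsA
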