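import Pool.Agent.Lib_MP_38e082_all.Basics

/-!
# H26-C1: cofinal subsets of minimal size; the level `γ0`

`exists_cof`: take a cofinal `J` of minimal size. It is infinite (`β` is a limit). It is regular: if
`#J > (#J).ord.cof` then `J` is the union of fewer than `#J` sets of size less than `#J`; none of
these is cofinal, so they have bounds below `β` (`¬ CofIn` gives `γ < β` above all elements, or use
`hβ.2`), and the set of the bounds is cofinal and has size less than `#J`.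

`exists_level`: let `J` be from `exists_cof`, so `#J ≤ #(Iio β) ≤ σ β ≤ #(Iio (τ β)) < θ` (`seg_le`,
`τ_card`). `NR`: if `γ ≠ ⊥`, `σ γ < θ` and `κ ξ < σ γ` for all `ξ < γ`, then `σ γ` is not regular: it is
uncountable (`ℵ₀ ≤ κ ⊥ < σ γ`), and for `y < σ γ` there is `ξ < γ` with `y < κ ξ` (`σ_sup`), so
`2 ^ y < κ ξ < σ γ` (`sl`); `hθ` would give `y < σ γ` with `σ γ ≤ 2 ^ y`. By `NR` for `β` (`κ_lt`: `κ ξ < κ ξ' ≤ σ β`
for `ξ < ξ' < β`) `#J ≠ σ β`, so `#J < σ β` and `#J < κ γ` for some `γ < β` (`σ_sup`). Let `γ0` be the least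
`γ` with `#J ≤ κ γ`; `γ0 < β`. As `κ γ0` is not regular (`sg`) `#J < κ γ0`, and `#(J × J) = #J`, so
`2 ^ #(J × J) < κ γ0` (`sl`). If `γ0 ≠ ⊥` then `κ ξ < #J` for `ξ < γ0`, so `σ γ0 ≤ #J` (otherwise
`#J < κ ξ` for some `ξ < γ0` by `σ_sup`); and `σ γ0 ≠ #J` by `NR`. -/

set_option linter.unusedSectionVars false
set_option linter.unusedVariables false

namespace Pool.Agent.FreeSetsA

universe u

open Set Cardinal Pool.Agent.KT Pool.Agent.KTM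

theorem exists_cof {O : Type u} [LinearOrder O] [OrderBot O] [WellFoundedLT O] {β : O}
    (hβ : Lim β) : ∃ J : Set O, CofIn J β ∧ (#J).IsRegular ∧ ∀ X : Set O, CofIn X β → #J ≤ #X := by
  have : Nonempty (Iio β) := ⟨⟨⊥, bot_lt_iff_ne_bot.2 hβ.1⟩⟩
  have : NoMaxOrder (Iio β) := ⟨fun x => by
    obtain ⟨y, h1, h2⟩ := hβ.2 x.1 x.2
    exact ⟨⟨y, h1⟩, h2⟩⟩
  obtain ⟨s, hs, hs2⟩ := Order.exists_cof_eq (Iio β)
  have hcard : #(Subtype.val '' s : Set O) = #s := mk_image_eq Subtype.val_injective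
  refine ⟨Subtype.val '' s, ⟨?_, ?_⟩, ?_, ?_⟩
  · rintro _ ⟨j, _, rfl⟩
    exact j.2
  · intro γ hγ
    obtain ⟨γ', h1, h2⟩ := hβ.2 γ hγ
    obtain ⟨j, hj, hj2⟩ := hs ⟨γ', h1⟩
    exact ⟨j.1, ⟨j, hj, rfl⟩, h2.trans_le hj2⟩
  · rw [hcard, hs2]
    exact ⟨Order.aleph0_le_cof, (Order.cof_ord_cof (Iio β)).ge⟩
  · intro X hX
    rw [hcard, hs2]
    have h1 : IsCofinal {x : Iio β | x.1 ∈ X} := by
      intro x
      obtain ⟨j, hj, hj2⟩ := hX.2 x.1 x.2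
      exact ⟨⟨j, hX.1 j hj⟩, hj, hj2.le⟩
    refine (Order.cof_le h1).trans ?_
    exact mk_le_of_injective (f := fun x : {x : Iio β | x.1 ∈ X} => (⟨x.1.1, x.2⟩ : X))
      fun x y h => Subtype.ext (Subtype.ext (congrArg (fun z : X => z.1) h))

variable {O P : Type u} [LinearOrder O] [OrderBot O] [WellFoundedLT O]
  {σ κ : O → Cardinal.{u}} {a c τ : O → O} {Λ : O}

theorem SysF.exists_level (hS : SysF O P σ κ a c τ Λ) {β : O} (hβ : Lim β) {θ : Cardinal.{u}}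
    (hθ : NoInacc θ) (hτ : #(Iio (τ β)) < θ) :
    ∃ (J : Set O) (γ0 : O), CofIn J β ∧ (∀ X : Set O, CofIn X β → #J ≤ #X) ∧
      2 ^ #(J × J) < κ γ0 ∧ γ0 < β ∧ (γ0 ≠ ⊥ → σ γ0 < #J) := by
  have NR : ∀ γ, γ ≠ ⊥ → σ γ < θ → (∀ ξ < γ, κ ξ < σ γ) → ¬ (σ γ).IsRegular := by
    intro γ hγ h1 h2 h3
    have h4 : ℵ₀ < σ γ := (hS.inf ⊥).trans_lt (h2 ⊥ (bot_lt_iff_ne_bot.2 hγ))
    obtain ⟨y, hy, hy2⟩ := hθ (σ γ) h1 h4 h3
    obtain ⟨ξ, hξ, hξ2⟩ := hS.σ_sup γ hγ y hy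
    exact absurd (hy2.trans_lt ((hS.sl ξ y hξ2).trans (h2 ξ hξ))) (lt_irrefl _)
  obtain ⟨J, hJ, hreg, hmin⟩ := exists_cof hβ
  have hJσ : #J ≤ σ β := by
    refine (hmin (Iio β) ⟨fun j hj => hj, fun γ hγ => ?_⟩).trans (hS.seg_le β hβ.1)
    obtain ⟨γ', h1, h2⟩ := hβ.2 γ hγ
    exact ⟨γ', h1, h2⟩
  have hσθ : σ β < θ := (hS.τ_card β hβ).trans_lt hτ
  have hJθ : #J < θ := hJσ.trans_lt hσθ
  have hJσ2 : #J < σ β := by
    refine lt_of_le_of_ne hJσ fun h => ?_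
    refine NR β hβ.1 hσθ (fun ξ hξ => ?_) (h ▸ hreg)
    obtain ⟨ξ', h1, h2⟩ := hβ.2 ξ hξ
    exact (hS.κ_lt h2).trans_le (hS.κ_le_σ h1)
  obtain ⟨γ1, hγ1, hγ2⟩ := hS.σ_sup β hβ.1 _ hJσ2
  obtain ⟨γ0, hγ0, hγ0min⟩ := wellFounded_lt.has_min {γ | #J ≤ κ γ} ⟨γ1, hγ2.le⟩
  have hγ0β : γ0 < β := (not_lt.1 (hγ0min γ1 hγ2.le)).trans_lt hγ1
  have hlt : ∀ ξ < γ0, κ ξ < #J := fun ξ hξ => not_le.1 fun h => hγ0min ξ h hξ
  have hJκ : #J < κ γ0 := lt_of_le_of_ne hγ0 fun h => hS.sg γ0 (h ▸ hreg)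
  refine ⟨J, γ0, hJ, hmin, ?_, hγ0β, fun h0 => ?_⟩
  · have h1 : #(J × J) = #J := by
      rw [mk_prod, lift_id, mul_eq_self hreg.aleph0_le]
    rw [h1]
    exact hS.sl γ0 _ hJκ
  · refine lt_of_le_of_ne ?_ fun h => ?_
    · by_contra hc
      obtain ⟨ξ, h1, h2⟩ := hS.σ_sup γ0 h0 _ (not_le.1 hc)
      exact absurd h2 (not_lt.2 (hlt ξ h1).le)
    · exact NR γ0 h0 (h ▸ hJθ) (fun ξ hξ => h ▸ hlt ξ hξ) (h ▸ hreg)

end Pool.Agent.FreeSetsA
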