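import Pool.Agent.Lib_MP_bf47cd.V09
import Mathlib.SetTheory.Cardinal.Regular

/-!
# H26: one model in which the relation fails at every singular cardinal: definitions

The forcing is `P × EE a c univ` of H17 (`P` collapses `κ ⊥` to `ω`, `EE a c univ` is the
full-support product of the collapses of `Iio (c γ)` to `Iio (a γ)`).
-/

set_option linter.unusedSectionVars false
set_option linter.unusedVariables false

namespace Pool.Agent.FreeSetsA

universe u v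

open Set Cardinal Pool.Agent.KT Pool.Agent.KTM

/-- `β` is a limit -/
def Lim {O : Type u} [LinearOrder O] [OrderBot O] (β : O) : Prop :=
  β ≠ ⊥ ∧ ∀ γ < β, ∃ γ' < β, γ < γ'

/-- `J` is a cofinal subset of `Iio β` -/
def CofIn {O : Type u} [LinearOrder O] (J : Set O) (β : O) : Prop :=
  (∀ j ∈ J, j < β) ∧ ∀ γ < β, ∃ j ∈ J, γ < j

/-- no uncountable regular strong limit cardinal is less than `θ` -/
def NoInacc (θ : Cardinal.{u}) : Prop :=
  ∀ x < θ, ℵ₀ < x → x.IsRegular → ∃ y < x, x ≤ 2 ^ y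

/-- the parameters: all `κ γ` are singular strong limit cardinals, `a ⊥ = Λ` has size `κ ⊥` -/
structure SysF (O P : Type u) [LinearOrder O] [OrderBot O] (σ κ : O → Cardinal.{u})
    (a c τ : O → O) (Λ : O) : Prop extends SysG O P σ κ a c τ Λ where
  a_bot : a ⊥ = Λ
  Λ_card : #(Iio Λ) = κ ⊥
  a_card : ∀ β, β ≠ ⊥ → σ β < #(Iio (a β))
  a_lt_κ : ∀ β, β ≠ ⊥ → #(Iio (a β)) < κ β
  kc : ∀ γ, γ ≠ ⊥ → κ γ ≤ #(Iio (c γ))
  sl : ∀ γ, ∀ x < κ γ, 2 ^ x < κ γ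
  sg : ∀ γ, ¬ (κ γ).IsRegular
  σ_sup : ∀ β, β ≠ ⊥ → ∀ x < σ β, ∃ γ < β, x < κ γ
  τ_card : ∀ β, Lim β → σ β ≤ #(Iio (τ β))
  suc : ∀ β, β ≠ ⊥ → Lim β ∨ ∃ γ < β, τ β = a γ

section
variable {O : Type u} [LinearOrder O] [OrderBot O]

/-- the ground combinatorics at the limit `β`: the sets `A s x j` depend only on `s` below `x`, are
independent, and meet all large sets coded by the values of `s` below `x`; every family of sets is
coded -/
structure Gr (κ : O → Cardinal.{u}) (a c : O → O) (β : O) (J : Set O)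
    (A : (Iio (a β) → Iio (c β)) → Iio (a β) → J → Set (Iio (a β)))
    (φ : Iio (c β) → J → O → Set (Iio (a β))) : Prop where
  loc : ∀ s s' x, (∀ y < x, s y = s' y) → A s x = A s' x
  sub : ∀ s x j, ∀ y ∈ A s x j, y < x
  ind : ∀ s x j, ∀ y ∈ A s x j, ∀ z ∈ A s x j, z ∉ A s y j
  code : ∀ w : J → O → Set (Iio (a β)), ∃ z, ∀ j : J, ∀ i < a j.1, φ z j i = w j i
  hits : ∀ s x, ∀ ξ < x, ∃ j0 : J, ∀ j : J, j0 ≤ j → ∀ i < a j.1,
    Order.succ (κ j.1) < #{y | y ∈ φ (s ξ) j i ∧ y < x} → ∃ y ∈ A s x j, y ∈ φ (s ξ) j i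

/-- the set mapping given by `A` and `s` -/
def Fs {K C J : Type u} [LinearOrder K] (A : (K → C) → K → J → Set K) (s : K → C) (x : K) :
    Set K :=
  {y | y < x ∧ ∀ j, y ∉ A s x j}

/-- `Φ` is the function whose value at `x` is `F s x` for the generic function `s` at `β` -/
structure PhiP {P : Type u} [Preorder P] {a c : O → O} (β : O)
    (F : (Iio (a β) → Iio (c β)) → Iio (a β) → Set (Iio (a β)))
    (Φ : PF (P × EE a c univ) (Iio (a β)) (Set (Iio (a β)))) : Prop where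
  sub : ∀ x X r, Φ.val x X r → ∀ y ∈ X, y < x
  val : ∀ x r s, (∀ i < x, r.2.1 β i.1 = some (s i).1) → Φ.val x (F s x) r

/-- `q` forces that `S` is free for `Φ` -/
def FreeP {T K : Type u} [Preorder T] (Φ : PF T K (Set K)) (S : PF T K (ULift.{u} Bool))
    (q : T) : Prop :=
  ∀ r ≤ q, ∀ x y X, x ≠ y → S.val x ⟨true⟩ r → S.val y ⟨true⟩ r → Φ.val x X r → y ∉ X

/-- intersections of `K` many values of `Φ` do not contain `L` many elements -/
def HitP {T K : Type u} (L : Type u) [Preorder T] (Φ : PF T K (Set K)) : Prop :=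
  ∀ (q : T) (i : PF T K K) (c : PF T L K), InjP i q → InjP c q →
    ∃ r ≤ q, ∃ ξ x η y X, i.val ξ x r ∧ c.val η y r ∧ Φ.val x X r ∧ y ∉ X

end

section
variable {T O : Type u} [Preorder T] [LinearOrder O] [OrderBot O]

/-- `q` forces that the range of `f : δ → α` is cofinal in `α` -/
def CofP {δ α : O} (f : PF T (Iio δ) (Iio α)) (q : T) : Prop :=
  ∀ x < α, ∀ r ≤ q, ∃ r' ≤ r, ∃ y z, f.val y z r' ∧ x ≤ z.1

/-- **The interface**: what the construction of the model needs to know about the forcing. The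
infinite cardinals of the model are `w`, the `a β` (`β ≠ ⊥`) and the `τ β` (`β` limit). -/
structure FIface (T O : Type u) [Preorder T] [LinearOrder O] [OrderBot O] (a τ : O → O)
    (Λ w : O) (θ : Cardinal.{u}) : Prop where
  low : ∃ J : PF T (Iio Λ) (Iio w), ∀ q, InjP J q
  high : ∀ α, Λ < α → ∃ β, β ≠ ⊥ ∧ τ β ≤ α ∧ α < a β
  w_lt : w < Λ
  Λ_le : ∀ β, β ≠ ⊥ → Λ ≤ τ β
  τ_lt : ∀ β, β ≠ ⊥ → τ β < a β
  inj : ∀ β, β ≠ ⊥ → ∀ x < a β, ∃ J : PF T (Iio x) (Iio (τ β)), ∀ q, InjP J q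
  noInj : ∀ β, β ≠ ⊥ → ∀ x < a β, ∀ (J : PF T (Iio (a β)) (Iio x)) (q : T), ¬ InjP J q
  reg : ∀ β, β ≠ ⊥ → Lim β ∨ τ β = Λ ∨
    ∀ δ < τ β, ∀ (f : PF T (Iio δ) (Iio (τ β))) (q : T), ¬ CofP f q
  map : ∀ β, Lim β → #(Iio (τ β)) < θ → ∃ Φ : PF T (Iio (a β)) (Set (Iio (a β))),
    (∀ x X r, Φ.val x X r → ∀ y ∈ X, y < x) ∧ HitP (Iio (τ β)) Φ ∧
    ∀ δ, w ≤ δ → δ < τ β → ∀ (f : PF T (Iio δ) (Iio (τ β))) (q : T), CofP f q →
      ∀ S : PF T (Iio (a β)) (ULift.{u} Bool), FreeP Φ S q →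
        ∃ q' ≤ q, ∃ Z : Set (Iio (a β)), (∀ r ≤ q', ∀ x, S.val x ⟨true⟩ r → x ∈ Z) ∧
          ∃ J : PF T Z (Iio δ), ∀ q, InjP J q

end

end Pool.Agent.FreeSetsA
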