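import Pool.Agent.Lib_MP_bf47cd.V08

/-!
# H26-S1: the full-support product of collapses, with regular limit stages

`O` is a well-order. At every `γ` bounded partial functions from `Iio (a γ)` to `Iio (c γ)`; `a γ` is
a regular cardinal and the bounded conditions at `γ` are closed under unions of fewer than
`#(Iio (a γ))` many. `κ γ` is a strong limit, the size of `Iio (c γ)`.
-/

set_option linter.unusedSectionVars false
set_option linter.unusedVariables false

namespace Pool.Agent.FSA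

universe u v

open Set Cardinal Pool.Agent.KT Pool.Agent.KTM

/-- the parameters of the product; `τ β` is the supremum of the `a γ`, `γ < β` -/
structure SysR (O : Type u) [LinearOrder O] [OrderBot O] (κ : O → Cardinal.{u})
    (a c τ : O → O) : Prop where
  inf : ∀ γ, ℵ₀ ≤ #(Iio (a γ))
  seg_a : ∀ γ, ∀ x < a γ, #(Iio x) < #(Iio (a γ))
  reg : ∀ γ, ∀ s : Set O, #s < #(Iio (a γ)) → (∀ x ∈ s, x < a γ) → ∃ b < a γ, ∀ x ∈ s, x < b
  c_eq : ∀ γ, #(Iio (c γ)) = κ γ
  a_lt : ∀ γ, #(Iio (a γ)) < κ γ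
  strong : ∀ γ x, x < κ γ → 2 ^ x < κ γ
  κ_pow : ∀ γ x, x < #(Iio (a γ)) → κ γ ^ x ≤ κ γ
  κ_lt : ∀ γ ξ, γ < ξ → κ γ < #(Iio (a ξ))
  seg : ∀ γ, #(Iio γ) ≤ #(Iio (a γ))
  τ_lt : ∀ β x, x < τ β ↔ ∃ γ < β, x < a γ

/-- for all `ξ` there are fewer than `a ξ` tasks if there are `κ γ` tasks for every `γ ∈ N`,
`γ < ξ` -/
def Thin {O : Type u} [LinearOrder O] (κ : O → Cardinal.{u}) (a : O → O) (N : Set O) : Prop :=
  ∀ ξ, Cardinal.sum (fun γ : {γ // γ ∈ N ∧ γ < ξ} => κ γ.1) < #(Iio (a ξ))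

/-- `δ` is a limit level at which `τ δ` is singular: `N` is cofinal in `δ`, `2 ^ #N < κ g`, and `g`
is the least level such that `δ` has a cofinal set of size at most `κ g` -/
structure SingP {O : Type u} [LinearOrder O] (κ : O → Cardinal.{u}) (a τ : O → O) (δ : O)
    (N : Set O) (g : O) : Prop where
  g_lt : g < δ
  τ_lt_a : τ δ < a δ
  sing : ∀ x < a δ, #(Iio x) ≤ #(Iio (τ δ))
  sub : ∀ j ∈ N, g < j ∧ j < δ
  cof : ∀ γ < δ, ∃ j ∈ N, γ < j
  small : 2 ^ #N < κ g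
  min : ∀ γ, ∀ D : Set O, #D ≤ κ γ → (∀ d ∈ D, d < δ) → (∀ η < δ, ∃ d ∈ D, η ≤ d) → g ≤ γ

variable {O : Type u} [LinearOrder O] [OrderBot O] [WellFoundedLT O]
  {κ : O → Cardinal.{u}} {a c τ : O → O}

theorem SysR.a_pos (hS : SysR O κ a c τ) (γ : O) : ⊥ < a γ := by
  rw [bot_lt_iff_ne_bot]
  intro h
  have h1 := hS.inf γ
  rw [h] at h1
  have h2 : #(Iio (⊥ : O)) = 0 := by
    rw [Cardinal.mk_eq_zero_iff]
    exact ⟨fun y => not_lt_bot y.2⟩
  rw [h2] at h1
  exact absurd h1 (not_le.2 Cardinal.aleph0_pos)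

theorem SysR.κ_inf (hS : SysR O κ a c τ) (γ : O) : ℵ₀ ≤ κ γ := (hS.inf γ).trans (hS.a_lt γ).le

theorem SysR.κ_lt_κ (hS : SysR O κ a c τ) {γ ξ : O} (h : γ < ξ) : κ γ < κ ξ :=
  (hS.κ_lt γ ξ h).trans (hS.a_lt ξ)

theorem SysR.κ_mono (hS : SysR O κ a c τ) {γ ξ : O} (h : γ ≤ ξ) : κ γ ≤ κ ξ := by
  rcases h.lt_or_eq with h | h
  · exact (hS.κ_lt_κ h).le
  · rw [h]

theorem SysR.thin_singleton (hS : SysR O κ a c τ) (γ : O) : Thin κ a ({γ} : Set O) := by
  intro ξ
  by_cases h : γ < ξ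
  · refine lt_of_le_of_lt ?_ (hS.κ_lt γ ξ h)
    have hsub : Subsingleton {γ' : O // γ' ∈ ({γ} : Set O) ∧ γ' < ξ} :=
      ⟨fun x y => Subtype.ext (x.2.1.trans y.2.1.symm)⟩
    refine (Cardinal.sum_le_sum _ (fun _ => κ γ) fun x => ?_).trans ?_
    · rw [show x.1 = γ from x.2.1]
    · rw [Cardinal.sum_const']
      calc #{γ' : O // γ' ∈ ({γ} : Set O) ∧ γ' < ξ} * κ γ ≤ 1 * κ γ :=
            mul_le_mul' (Cardinal.le_one_iff_subsingleton.2 hsub) le_rfl
        _ = κ γ := one_mul _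
  · have hemp : IsEmpty {γ' : O // γ' ∈ ({γ} : Set O) ∧ γ' < ξ} :=
      ⟨fun x => h ((show x.1 = γ from x.2.1) ▸ x.2.2)⟩
    have h0 : Cardinal.sum (fun γ : {γ' : O // γ' ∈ ({γ} : Set O) ∧ γ' < ξ} => κ γ.1) = 0 := by
      rw [show (fun γ : {γ' : O // γ' ∈ ({γ} : Set O) ∧ γ' < ξ} => κ γ.1) = fun x =>
        #((κ x.1).out) from funext fun x => (Cardinal.mk_out _).symm, ← Cardinal.mk_sigma,
        Cardinal.mk_eq_zero_iff]
      exact ⟨fun x => hemp.false x.1⟩
    rw [h0]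
    exact Cardinal.aleph0_pos.trans_le (hS.inf ξ)


private theorem mk_option_le {A : Type u} {k : Cardinal.{u}} (hk : ℵ₀ ≤ k) (h : #A ≤ k) :
    #(Option A) ≤ k := by
  rw [Cardinal.mk_option]
  exact (add_le_add h (Cardinal.one_le_aleph0.trans hk)).trans (Cardinal.add_eq_self hk).le

/-- there are at most `κ γ` conditions with coordinates `≤ γ` -/
theorem SysR.card_low (hS : SysR O κ a c τ) (γ : O) : #(EE a c (Iic γ)) ≤ κ γ := by
  classical
  have hκ := hS.κ_inf γ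
  have hκ1 : (1 : Cardinal.{u}) ≤ κ γ := Cardinal.one_le_aleph0.trans hκ
  have hκ0 : κ γ ≠ 0 := fun h => by
    rw [h] at hκ1; exact absurd hκ1 (by simp)
  -- the code
  let Z : Type u := Σ x : Iio (a γ), ((∀ ξ : Iio γ, Iio (a ξ.1) → Option (Iio (c ξ.1))) ×
    (Iio x.1 → Option (Iio (c γ))))
  have hcode : #(EE a c (Iic γ)) ≤ #Z := by
    let opt : ∀ ξ : O, (e : EE a c (Iic γ)) → (i : O) → Option (Iio (c ξ)) := fun ξ e i =>
      match h : e.1 ξ i with
      | none => none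
      | some x => some ⟨x, e.2.2.2 ξ i x h⟩
    have hopt : ∀ ξ e i, (opt ξ e i).map Subtype.val = e.1 ξ i := by
      intro ξ e i
      simp only [opt]
      split
      · rename_i h; exact h.symm
      · rename_i x h; exact h.symm
    let B : EE a c (Iic γ) → O := fun e => Classical.choose (e.2.2.1 γ)
    have hB1 : ∀ e, B e < a γ := fun e => (Classical.choose_spec (e.2.2.1 γ)).1
    have hB2 : ∀ e i, B e ≤ i → e.1 γ i = none :=
      fun e => (Classical.choose_spec (e.2.2.1 γ)).2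
    let F : EE a c (Iic γ) → Z := fun e =>
      ⟨⟨B e, hB1 e⟩, fun ξ i => opt ξ.1 e i.1, fun i => opt γ e i.1⟩
    refine Cardinal.mk_le_of_injective (f := F) ?_
    intro p q hpq
    have hB : B p = B q := by
      have := congrArg (fun z : Z => z.1.1) hpq
      exact this
    have h1 : ∀ ξ < γ, ∀ i < a ξ, opt ξ p i = opt ξ q i := by
      intro ξ hξ i hi
      have := congrArg (fun z : Z => z.2.1 ⟨ξ, hξ⟩ ⟨i, hi⟩) hpq
      exact this
    have h2 : ∀ i < B p, opt γ p i = opt γ q i := by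
      intro i hi
      have hq : i < B q := hB ▸ hi
      have := congrArg (fun z : Z => if h : i < z.1.1 then z.2.2 ⟨i, h⟩ else none) hpq
      simp only [F, dif_pos hi, dif_pos hq] at this
      exact this
    apply Subtype.ext
    funext ξ i
    rcases lt_trichotomy ξ γ with hξ | hξ | hξ
    · by_cases hi : i < a ξ
      · rw [← hopt ξ p i, ← hopt ξ q i, h1 ξ hξ i hi]
      · obtain ⟨b, hb1, hb2⟩ := p.2.2.1 ξ
        obtain ⟨b', hb1', hb2'⟩ := q.2.2.1 ξ
        rw [hb2 i (hb1.le.trans (not_lt.1 hi)), hb2' i (hb1'.le.trans (not_lt.1 hi))]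
    · subst hξ
      by_cases hi : i < B p
      · rw [← hopt ξ p i, ← hopt ξ q i, h2 i hi]
      · rw [hB2 p i (not_lt.1 hi), hB2 q i (hB ▸ not_lt.1 hi)]
    · have hξ' : ξ ∉ Iic γ := fun h => absurd hξ (not_lt.2 h)
      rw [p.2.1 ξ hξ' i, q.2.1 ξ hξ' i]
  have hpart : ∀ x : Iio (a γ), #((∀ ξ : Iio γ, Iio (a ξ.1) → Option (Iio (c ξ.1))) ×
      (Iio x.1 → Option (Iio (c γ)))) ≤ κ γ := by
    intro x
    rw [Cardinal.mk_prod, Cardinal.lift_id, Cardinal.lift_id]
    have hA : #(∀ ξ : Iio γ, Iio (a ξ.1) → Option (Iio (c ξ.1))) ≤ κ γ := by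
      rw [Cardinal.mk_pi]
      refine le_trans ?_ (hS.strong γ _ (hS.a_lt γ)).le
      calc Cardinal.prod (fun ξ : Iio γ => #(Iio (a ξ.1) → Option (Iio (c ξ.1))))
          ≤ Cardinal.prod (fun ξ : Iio γ => (2 ^ #(Iio (a γ)) : Cardinal.{u})) := by
            refine Cardinal.prod_le_prod _ _ fun ξ => ?_
            rw [← Cardinal.power_def]
            have hξγ : κ ξ.1 < #(Iio (a γ)) := hS.κ_lt ξ.1 γ ξ.2
            have h1 : #(Option (Iio (c ξ.1))) ≤ κ ξ.1 :=
              mk_option_le (hS.κ_inf _) (hS.c_eq _).le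
            calc #(Option (Iio (c ξ.1))) ^ #(Iio (a ξ.1))
                ≤ (κ ξ.1) ^ #(Iio (a ξ.1)) := Cardinal.power_le_power_right h1
              _ ≤ (κ ξ.1) ^ (κ ξ.1) := by
                  refine Cardinal.power_le_power_left ?_ (hS.a_lt ξ.1).le
                  intro h
                  have := hS.κ_inf ξ.1
                  rw [h] at this
                  exact absurd this (not_le.2 Cardinal.aleph0_pos)
              _ = 2 ^ (κ ξ.1) := Cardinal.power_self_eq (hS.κ_inf _)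
              _ ≤ 2 ^ #(Iio (a γ)) := Cardinal.power_le_power_left two_ne_zero hξγ.le
        _ = (2 ^ #(Iio (a γ))) ^ #(Iio γ) := by
            rw [Cardinal.prod_const, Cardinal.lift_id, Cardinal.lift_id]
        _ = 2 ^ (#(Iio (a γ)) * #(Iio γ)) := by rw [Cardinal.power_mul]
        _ ≤ 2 ^ #(Iio (a γ)) := by
            refine Cardinal.power_le_power_left two_ne_zero ?_
            calc #(Iio (a γ)) * #(Iio γ) ≤ #(Iio (a γ)) * #(Iio (a γ)) :=
                  mul_le_mul' le_rfl (hS.seg γ)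
              _ = #(Iio (a γ)) := Cardinal.mul_eq_self (hS.inf γ)
    have hC : #(Iio x.1 → Option (Iio (c γ))) ≤ κ γ := by
      rw [← Cardinal.power_def]
      calc #(Option (Iio (c γ))) ^ #(Iio x.1) ≤ κ γ ^ #(Iio x.1) :=
            Cardinal.power_le_power_right (mk_option_le hκ (hS.c_eq γ).le)
        _ ≤ κ γ := hS.κ_pow γ _ (hS.seg_a γ x.1 x.2)
    exact (mul_le_mul' hA hC).trans (Cardinal.mul_eq_self hκ).le
  have hZ : #Z ≤ κ γ := by
    simp only [Z]
    rw [Cardinal.mk_sigma]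
    calc Cardinal.sum (fun x : Iio (a γ) =>
          #((∀ ξ : Iio γ, Iio (a ξ.1) → Option (Iio (c ξ.1))) ×
            (Iio x.1 → Option (Iio (c γ)))))
        ≤ Cardinal.sum (fun _ : Iio (a γ) => κ γ) := Cardinal.sum_le_sum _ _ hpart
      _ = #(Iio (a γ)) * κ γ := by rw [Cardinal.sum_const']
      _ ≤ κ γ * κ γ := mul_le_mul' (hS.a_lt γ).le le_rfl
      _ = κ γ := Cardinal.mul_eq_self hκ
  exact hcode.trans hZ

open Classical in
/-- the union of a set of partial functions -/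
private noncomputable def un (S : Set (O → O → Option O)) : O → O → Option O := fun ξ i =>
  if h : ∃ x, ∃ f ∈ S, f ξ i = some x then some (Classical.choose h) else none

private theorem un_spec {S : Set (O → O → Option O)}
    (hS : ∀ f ∈ S, ∀ g ∈ S, ∀ ξ i x y, f ξ i = some x → g ξ i = some y → x = y) (ξ i x : O) :
    un S ξ i = some x ↔ ∃ f ∈ S, f ξ i = some x := by
  classical
  unfold un
  by_cases h : ∃ x, ∃ f ∈ S, f ξ i = some x
  · rw [dif_pos h]
    obtain ⟨f, hf, hfx⟩ := Classical.choose_spec h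
    constructor
    · intro h1
      rw [Option.some.injEq] at h1
      rw [h1] at hfx
      exact ⟨f, hf, hfx⟩
    · rintro ⟨g, hg, hgx⟩
      rw [Option.some.injEq]
      exact hS f hf g hg ξ i _ _ hfx hgx
  · rw [dif_neg h]
    constructor
    · intro h1; exact absurd h1 (by simp)
    · intro h1; exact absurd ⟨x, h1⟩ h

open Classical in
/-- the union of a set of conditions if it is a condition, otherwise `e` -/
private noncomputable def joinE (e : EE a c univ) (S : Set (EE a c univ)) : EE a c univ :=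
  if h : ∃ u : EE a c univ, u.1 = un (Subtype.val '' S) then Classical.choose h else e

private theorem joinE_spec (e : EE a c univ) {S : Set (EE a c univ)}
    (hS : ∀ p ∈ S, ∀ q ∈ S, p ≤ q ∨ q ≤ p)
    (hb : ∀ ξ, ∃ b < a ξ, ∀ p ∈ S, ∀ i, b ≤ i → p.1 ξ i = none) (ξ i x : O) :
    (joinE e S).1 ξ i = some x ↔ ∃ p ∈ S, p.1 ξ i = some x := by
  have hS' : ∀ f ∈ Subtype.val '' S, ∀ g ∈ Subtype.val '' S, ∀ ξ i x y,
      f ξ i = some x → g ξ i = some y → x = y := by
    rintro _ ⟨p, hp, rfl⟩ _ ⟨q, hq, rfl⟩ ξ i x y hx hy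
    rcases hS p hp q hq with h | h
    · have := h ξ i y hy
      rw [hx] at this
      exact Option.some.inj this
    · have := h ξ i x hx
      rw [hy] at this
      exact (Option.some.inj this).symm
  have hex : ∃ u : EE a c univ, u.1 = un (Subtype.val '' S) := by
    refine ⟨⟨un (Subtype.val '' S), fun ξ hξ i => absurd (mem_univ ξ) hξ, fun ξ => ?_, ?_⟩, rfl⟩
    · obtain ⟨b, hb1, hb2⟩ := hb ξ
      refine ⟨b, hb1, fun i hi => ?_⟩
      rcases h : un (Subtype.val '' S) ξ i with _ | x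
      · rfl
      · obtain ⟨_, ⟨p, hp, rfl⟩, hpx⟩ := (un_spec hS' ξ i x).1 h
        rw [hb2 p hp i hi] at hpx
        exact absurd hpx (by simp)
    · intro ξ i x h
      obtain ⟨_, ⟨p, hp, rfl⟩, hpx⟩ := (un_spec hS' ξ i x).1 h
      exact p.2.2.2 ξ i x hpx
  have hj : (joinE e S).1 = un (Subtype.val '' S) := by
    unfold joinE
    rw [dif_pos hex]
    exact Classical.choose_spec hex
  rw [hj, un_spec hS' ξ i x]
  constructor
  · rintro ⟨_, ⟨p, hp, rfl⟩, hpx⟩
    exact ⟨p, hp, hpx⟩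
  · rintro ⟨p, hp, hpx⟩
    exact ⟨p.1, ⟨p, hp, rfl⟩, hpx⟩

/-- **Fusion.** A step `j` changes only the coordinates `> ρ j`; at the coordinate `ξ` only the
steps `j` with `ρ j < ξ` matter, fewer than `a ξ` many, so the union is bounded by `hS.reg`. -/
theorem SysR.fusion (hS : SysR O κ a c τ) {J : Type u} (ρ : J → O)
    (hJ : ∀ ξ, #{j // ρ j < ξ} < #(Iio (a ξ))) (D : J → Set (EE a c univ))
    (hopen : ∀ j, ∀ e ∈ D j, ∀ e' ≤ e, e' ∈ D j)
    (hdense : ∀ j e, ∃ e' ≤ e, e' ∈ D j ∧ ∀ ξ ≤ ρ j, ∀ i, e'.1 ξ i = e.1 ξ i)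
    (e : EE a c univ) : ∃ e' ≤ e, ∀ j, e' ∈ D j := by
  classical
  have wf : WellFounded (WellOrderingRel (α := J)) := WellOrderingRel.isWellOrder.wf
  choose nx hnx1 hnx2 hnx3 using hdense
  -- the sequence
  let F : J → EE a c univ := wf.fix fun j G =>
    nx j (joinE e ({x | x = e ∨ ∃ k, ∃ h : WellOrderingRel k j, x = G k h}))
  let T : J → Set (EE a c univ) := fun j => {x | x = e ∨ ∃ k, WellOrderingRel k j ∧ x = F k}
  have hF : ∀ j, F j = nx j (joinE e (T j)) := by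
    intro j
    have h1 : F j = nx j (joinE e ({x | x = e ∨ ∃ k, ∃ h : WellOrderingRel k j, x = F k})) :=
      wf.fix_eq _ j
    rw [h1]
    congr 2
    ext x
    simp only [T, exists_prop]
  -- the bound
  have hbound : ∀ K : Set J, (∀ k ∈ K, ∀ ξ i x, (F k).1 ξ i = some x → e.1 ξ i = some x ∨
      ∃ k', ρ k' < ξ ∧ (F k').1 ξ i = some x) → ∀ ξ, ∃ b < a ξ,
        (∀ i, b ≤ i → e.1 ξ i = none) ∧ ∀ k ∈ K, ∀ i, b ≤ i → (F k).1 ξ i = none := by
    intro K hK ξ
    have hB : ∀ f : EE a c univ, ∃ b < a ξ, ∀ i, b ≤ i → f.1 ξ i = none := fun f => f.2.2.1 ξ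
    choose B hB1 hB2 using hB
    obtain ⟨b, hb1, hb2⟩ := hS.reg ξ
      (insert (B e) (range fun j : {j // ρ j < ξ} => B (F j.1))) (by
        refine lt_of_le_of_lt Cardinal.mk_insert_le ?_
        exact Cardinal.add_lt_of_lt (hS.inf ξ) (lt_of_le_of_lt Cardinal.mk_range_le (hJ ξ))
          (Cardinal.one_lt_aleph0.trans_le (hS.inf ξ))) (by
        rintro x (rfl | ⟨j, rfl⟩)
        · exact hB1 e
        · exact hB1 _)
    refine ⟨b, hb1, fun i hi => hB2 e i ?_, fun k hk i hi => ?_⟩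
    · exact (hb2 _ (mem_insert _ _)).le.trans hi
    · rcases h : (F k).1 ξ i with _ | x
      · rfl
      · rcases hK k hk ξ i x h with h1 | ⟨k', hk', h1⟩
        · rw [hB2 e i ((hb2 _ (mem_insert _ _)).le.trans hi)] at h1
          exact absurd h1 (by simp)
        · have h3 : B (F k') < b :=
            hb2 _ (mem_insert_of_mem _ ⟨⟨k', hk'⟩, rfl⟩)
          rw [hB2 (F k') i (h3.le.trans hi)] at h1
          exact absurd h1 (by simp)
  -- the induction
  have main : ∀ j, (F j ≤ e ∧ ∀ k, WellOrderingRel k j → F j ≤ F k) ∧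
      ∀ ξ i x, (F j).1 ξ i = some x → e.1 ξ i = some x ∨
        ∃ k', ρ k' < ξ ∧ (F k').1 ξ i = some x := by
    intro j
    induction j using wf.induction with
    | _ j ih =>
      have hchain : ∀ p ∈ T j, ∀ q ∈ T j, p ≤ q ∨ q ≤ p := by
        rintro p (rfl | ⟨k, hk, rfl⟩) q (rfl | ⟨k', hk', rfl⟩)
        · exact Or.inl le_rfl
        · exact Or.inr (ih k' hk').1.1
        · exact Or.inl (ih k hk).1.1
        · rcases trichotomous_of WellOrderingRel k k' with h | h | h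
          · exact Or.inr ((ih k' hk').1.2 k h)
          · rw [h]; exact Or.inl le_rfl
          · exact Or.inl ((ih k hk).1.2 k' h)
      have hb : ∀ ξ, ∃ b < a ξ, ∀ p ∈ T j, ∀ i, b ≤ i → p.1 ξ i = none := by
        intro ξ
        obtain ⟨b, h1, h2, h3⟩ := hbound {k | WellOrderingRel k j} (fun k hk => (ih k hk).2) ξ
        refine ⟨b, h1, ?_⟩
        rintro p (rfl | ⟨k, hk, rfl⟩)
        · exact h2
        · exact h3 k hk
      have hU := joinE_spec e hchain hb
      have hle : F j ≤ joinE e (T j) := by rw [hF j]; exact hnx1 _ _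
      have heq : ∀ ξ ≤ ρ j, ∀ i, (F j).1 ξ i = (joinE e (T j)).1 ξ i := by
        rw [hF j]; exact hnx3 _ _
      have hUe : ∀ p ∈ T j, joinE e (T j) ≤ p := fun p hp ξ i x hx => (hU ξ i x).2 ⟨p, hp, hx⟩
      refine ⟨⟨hle.trans (hUe e (Or.inl rfl)), fun k hk => hle.trans
        (hUe _ (Or.inr ⟨k, hk, rfl⟩))⟩, ?_⟩
      intro ξ i x hx
      by_cases hξ : ρ j < ξ
      · exact Or.inr ⟨j, hξ, hx⟩
      · rw [heq ξ (not_lt.1 hξ) i] at hx
        obtain ⟨p, hp | ⟨k, hk, hp⟩, hpx⟩ := (hU ξ i x).1 hx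
        · subst hp; exact Or.inl hpx
        · subst hp; exact (ih k hk).2 ξ i x hpx
  -- the end
  let S : Set (EE a c univ) := {x | x = e ∨ ∃ k, x = F k}
  have hchain : ∀ p ∈ S, ∀ q ∈ S, p ≤ q ∨ q ≤ p := by
    rintro p (rfl | ⟨k, rfl⟩) q (rfl | ⟨k', rfl⟩)
    · exact Or.inl le_rfl
    · exact Or.inr (main k').1.1
    · exact Or.inl (main k).1.1
    · rcases trichotomous_of WellOrderingRel k k' with h | h | h
      · exact Or.inr ((main k').1.2 k h)
      · rw [h]; exact Or.inl le_rfl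
      · exact Or.inl ((main k).1.2 k' h)
  have hb : ∀ ξ, ∃ b < a ξ, ∀ p ∈ S, ∀ i, b ≤ i → p.1 ξ i = none := by
    intro ξ
    obtain ⟨b, h1, h2, h3⟩ := hbound univ (fun k _ => (main k).2) ξ
    refine ⟨b, h1, ?_⟩
    rintro p (rfl | ⟨k, rfl⟩)
    · exact h2
    · exact h3 k (mem_univ k)
  have hU := joinE_spec e hchain hb
  refine ⟨joinE e S, fun ξ i x hx => (hU ξ i x).2 ⟨e, Or.inl rfl, hx⟩, fun j => ?_⟩
  refine hopen j (F j) ?_ _ fun ξ i x hx => (hU ξ i x).2 ⟨F j, Or.inr ⟨j, rfl⟩, hx⟩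
  rw [hF j]
  exact hnx2 _ _


end Pool.Agent.FSA
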