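import Pool.Agent.Lib_MP_38e082_gen.Voc

/-!
# Infinite cardinals and GCH in a structure for the language of set theory
-/

namespace Pool.Agent.FreeSetsG

open Pool.Agent.Inner Pool.Agent.FreeSets

universe w

variable {M : Type w} (E : M → M → Prop)

/-- `l` is an infinite cardinal -/
def IsInfCard (l : M) : Prop := IsCard E l ∧ ∃ om, IsOmega E om ∧ (om = l ∨ E om l)

/-- GCH: for every infinite cardinal `l` with cardinal successor `k` there is a function that
takes every subset of `l` as a value on `k` (so `l` has at most `k` subsets) -/
def GCH : Prop := ∀ l k, IsInfCard E l → IsSuccCard E l k → ∃ s, OntoPow E s k l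

end Pool.Agent.FreeSetsG
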