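import Pool.Agent.Lib_MP_38e082_all.M8
import Pool.Agent.Lib_MP_38e082_all.Voc

/-!
# H26: the model, in the vocabulary of the hand-in
-/

namespace Pool.Agent.FreeSetsA

open Pool.Agent.Forcing Pool.Agent.Inner Pool.Agent.FreeSets Pool.Agent.FreeSetsG

theorem exists_model_all' : ∃ (M : Type 2) (E : M → M → Prop), ModelsZFC E ∧ OmegaModel E ∧
    FreeSetsG.GCH E ∧ ∀ m l k : M, SingularCof E m l → FreeSets.IsSuccCard E l k →
      ∃ f, Counterexample E m l k f := by
  obtain ⟨M, E, h1, h2, h3, h4⟩ := exists_model_all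
  exact ⟨M, E, h1, h2, h3, h4⟩

end Pool.Agent.FreeSetsA
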