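import Pool.Agent.Lib_MP_38e082_all.Basics

/-!
# H26-G1: extending and joining conditions

`exists_decide`: give the value `⊥ < c β` to all undefined `i < x` at the coordinate `β`; the new
domain is bounded by `hS.bdd β` for `{b, x}` (`b` the old bound). `exists_lower`: the union of the
chain; at `ξ ≤ γ` nothing changes, at `ξ > γ` the bounds of the at most `κ γ ≤ σ ξ` conditions are
bounded (`hS.bdd`, `hS.κ_le`), and the values are consistent because the family is a chain (see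
`joinE` in `Lib_MP_bf47cd/V07.lean`, which is private: copy it). For empty `I` take `e0`. -/

set_option linter.unusedSectionVars false
set_option linter.unusedVariables false

namespace Pool.Agent.FreeSetsA

universe u

open Set Cardinal Pool.Agent.KT Pool.Agent.KTM

variable {O P : Type u} [LinearOrder O] [OrderBot O] [WellFoundedLT O] {σ κ : O → Cardinal.{u}}
  {a c τ : O → O} {Λ : O}

/-- two bounds below `a γ` are below a third one -/
private theorem G1_bdd2 (hS : SysF O P σ κ a c τ Λ) {γ : O} (hγ : γ ≠ ⊥) {x y : O}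
    (hx : x < a γ) (hy : y < a γ) : ∃ b < a γ, x < b ∧ y < b := by
  obtain ⟨b, hb, hb2⟩ := hS.bdd γ hγ {x, y} (by
    refine le_trans ?_ (hS.σ_inf hγ)
    exact Cardinal.mk_le_aleph0_iff.2 (Set.toFinite {x, y}).countable.to_subtype) (by
    intro z hz
    rcases hz with rfl | hz
    · exact hx
    · rw [mem_singleton_iff] at hz
      rw [hz]; exact hy)
  exact ⟨b, hb, hb2 x (by simp), hb2 y (by simp)⟩

/-- one more value at `γ` (copy of the private `V09_ext`) -/
theorem SysF.exists_ext (hS : SysF O P σ κ a c τ Λ) {γ : O} (hγ : γ ≠ ⊥) (e : EE a c univ)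
    {i x : O} (hi : i < a γ) (hx : x < c γ) (h : e.1 γ i = none) :
    ∃ e' ≤ e, e'.1 γ i = some x := by
  classical
  refine ⟨⟨fun ξ j => if ξ = γ ∧ j = i then some x else e.1 ξ j,
    fun ξ hξ => absurd (mem_univ ξ) hξ, ?_, ?_⟩, ?_, ?_⟩
  · intro ξ
    obtain ⟨b, hb, hb2⟩ := e.2.2.1 ξ
    by_cases hξ : ξ = γ
    · subst hξ
      obtain ⟨b', hb', hb1, hb3⟩ := G1_bdd2 hS hγ hi hb
      refine ⟨b', hb', fun j hj => ?_⟩
      have h3 : ¬ (ξ = ξ ∧ j = i) := by
        rintro ⟨_, rfl⟩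
        exact absurd hb1 (not_lt.2 hj)
      exact (if_neg h3).trans (hb2 j (hb3.le.trans hj))
    · refine ⟨b, hb, fun j hj => ?_⟩
      exact (if_neg (fun hh => hξ hh.1)).trans (hb2 j hj)
  · intro ξ j y hy
    by_cases h1 : ξ = γ ∧ j = i
    · have h2 : some x = some y := (if_pos h1).symm.trans hy
      rw [h1.1, ← Option.some.inj h2]
      exact hx
    · exact e.2.2.2 ξ j y ((if_neg h1).symm.trans hy)
  · intro ξ j y hy
    have h1 : ¬ (ξ = γ ∧ j = i) := by
      rintro ⟨rfl, rfl⟩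
      rw [h] at hy
      exact absurd hy (by simp)
    exact (if_neg h1).trans hy
  · exact if_pos ⟨rfl, rfl⟩

/-- decide the generic function at `β` below `x` -/
theorem SysF.exists_decide (hS : SysF O P σ κ a c τ Λ) {β : O} (hβ : β ≠ ⊥) (e : EE a c univ)
    {x : O} (hx : x < a β) : ∃ e' ≤ e, ∃ s : Iio (a β) → Iio (c β),
      ∀ i : Iio (a β), i.1 < x → e'.1 β i.1 = some (s i).1 := by
  classical
  have hc := hS.c_pos hβ
  let g : O → O → Option O := fun ξ j =>
    if ξ = β ∧ j < x ∧ e.1 β j = none then some ⊥ else e.1 ξ j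
  have hg1 : ∀ ξ j, (ξ = β ∧ j < x ∧ e.1 β j = none) → g ξ j = some ⊥ := fun ξ j h => if_pos h
  have hg2 : ∀ ξ j, ¬ (ξ = β ∧ j < x ∧ e.1 β j = none) → g ξ j = e.1 ξ j := fun ξ j h => if_neg h
  have hlt : ∀ ξ j y, g ξ j = some y → y < c ξ := by
    intro ξ j y hy
    by_cases h1 : ξ = β ∧ j < x ∧ e.1 β j = none
    · rw [hg1 ξ j h1] at hy
      rw [h1.1, ← Option.some.inj hy]
      exact hc
    · rw [hg2 ξ j h1] at hy
      exact e.2.2.2 ξ j y hy
  have hex : ∀ j : Iio (a β), ∃ y : Iio (c β), j.1 < x → g β j.1 = some y.1 := by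
    intro j
    by_cases hj : j.1 < x
    · rcases h : e.1 β j.1 with _ | y
      · exact ⟨⟨⊥, hc⟩, fun _ => hg1 β j.1 ⟨rfl, hj, h⟩⟩
      · refine ⟨⟨y, e.2.2.2 β j.1 y h⟩, fun _ => ?_⟩
        rw [hg2 β j.1 (by rintro ⟨_, _, h3⟩; rw [h] at h3; exact absurd h3 (by simp))]
        exact h
    · exact ⟨⟨⊥, hc⟩, fun h => absurd h hj⟩
  choose s hs using hex
  refine ⟨⟨g, fun ξ hξ => absurd (mem_univ ξ) hξ, ?_, hlt⟩, ?_, s, hs⟩
  · intro ξ
    obtain ⟨b, hb, hb2⟩ := e.2.2.1 ξ
    by_cases hξ : ξ = β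
    · subst hξ
      obtain ⟨b', hb', hb1, hb3⟩ := G1_bdd2 hS hβ hx hb
      refine ⟨b', hb', fun j hj => ?_⟩
      rw [hg2 ξ j (fun h => absurd (h.2.1.trans hb1) (not_lt.2 hj))]
      exact hb2 j (hb3.le.trans hj)
    · refine ⟨b, hb, fun j hj => ?_⟩
      rw [hg2 ξ j (fun h => hξ h.1)]
      exact hb2 j hj
  · intro ξ j y hy
    refine (hg2 ξ j ?_).trans hy
    rintro ⟨h1, _, h3⟩
    rw [h1, h3] at hy
    exact absurd hy (by simp)

/-- the coordinates above `γ` are closed under unions of chains of size at most `κ γ` -/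
theorem SysF.exists_lower (hS : SysF O P σ κ a c τ Λ) {γ : O} {I : Type u} (hI : #I ≤ κ γ)
    (e0 : EE a c univ) (f : I → EE a c univ) (hch : ∀ i j, f i ≤ f j ∨ f j ≤ f i)
    (hle : ∀ i, f i ≤ e0) (hlow : ∀ i, ∀ ξ ≤ γ, ∀ x, (f i).1 ξ x = e0.1 ξ x) :
    ∃ e ≤ e0, (∀ i, e ≤ f i) ∧ ∀ ξ ≤ γ, ∀ x, e.1 ξ x = e0.1 ξ x := by
  classical
  have hcons : ∀ ξ j x y, (e0.1 ξ j = some x ∨ ∃ i, (f i).1 ξ j = some x) →
      (e0.1 ξ j = some y ∨ ∃ i, (f i).1 ξ j = some y) → x = y := by
    rintro ξ j x y (hx | ⟨i, hx⟩) (hy | ⟨i', hy⟩)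
    · rw [hx] at hy; exact Option.some.inj hy
    · have h1 := hle i' ξ j x hx
      rw [h1] at hy; exact Option.some.inj hy
    · have h1 := hle i ξ j y hy
      rw [hx] at h1; exact Option.some.inj h1
    · rcases hch i i' with h | h
      · have h1 := h ξ j y hy
        rw [hx] at h1; exact Option.some.inj h1
      · have h1 := h ξ j x hx
        rw [h1] at hy; exact Option.some.inj hy
  let g : O → O → Option O := fun ξ j =>
    if h : ∃ x, e0.1 ξ j = some x ∨ ∃ i, (f i).1 ξ j = some x then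
      some (Classical.choose h) else none
  have hg : ∀ ξ j x, g ξ j = some x ↔ (e0.1 ξ j = some x ∨ ∃ i, (f i).1 ξ j = some x) := by
    intro ξ j x
    by_cases h : ∃ x, e0.1 ξ j = some x ∨ ∃ i, (f i).1 ξ j = some x
    · have h1 : g ξ j = some (Classical.choose h) := dif_pos h
      rw [h1]
      constructor
      · intro h2
        rw [← Option.some.inj h2]
        exact Classical.choose_spec h
      · intro h2
        rw [hcons ξ j _ _ (Classical.choose_spec h) h2]
    · have h1 : g ξ j = none := dif_neg h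
      rw [h1]
      constructor
      · intro h2; exact absurd h2 (by simp)
      · intro h2; exact absurd ⟨x, h2⟩ h
  have hlow' : ∀ ξ ≤ γ, ∀ j, g ξ j = e0.1 ξ j := by
    intro ξ hξ j
    rcases h : e0.1 ξ j with _ | x
    · rcases h' : g ξ j with _ | x
      · rfl
      · rcases (hg ξ j x).1 h' with h1 | ⟨i, h1⟩
        · rw [h] at h1; exact h1.symm
        · rw [hlow i ξ hξ j, h] at h1; exact h1.symm
    · exact (hg ξ j x).2 (Or.inl h)
  refine ⟨⟨g, fun ξ hξ => absurd (mem_univ ξ) hξ, ?_, ?_⟩, ?_, ?_, hlow'⟩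
  · intro ξ
    obtain ⟨b, hb, hb2⟩ := e0.2.2.1 ξ
    by_cases hξ : ξ ≤ γ
    · exact ⟨b, hb, fun j hj => (hlow' ξ hξ j).trans (hb2 j hj)⟩
    · have hξ' : γ < ξ := not_le.1 hξ
      have hξb : ξ ≠ ⊥ := ne_bot_of_gt hξ'
      choose B hB1 hB2 using fun i => (f i).2.2.1 ξ
      have hσ := hS.σ_inf hξb
      obtain ⟨b', hb', hb3⟩ := hS.bdd ξ hξb (insert b (range B)) (by
          refine Cardinal.mk_insert_le.trans ?_
          refine (add_le_add (Cardinal.mk_range_le.trans (hI.trans (hS.κ_le_σ hξ')))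
            (Cardinal.one_le_aleph0.trans hσ)).trans ?_
          exact (Cardinal.add_eq_self hσ).le) (by
          rintro x (rfl | ⟨j, rfl⟩)
          · exact hb
          · exact hB1 _)
      refine ⟨b', hb', fun j hj => ?_⟩
      rcases h : g ξ j with _ | x
      · rfl
      · rcases (hg ξ j x).1 h with h1 | ⟨i, h1⟩
        · rw [hb2 j ((hb3 _ (mem_insert _ _)).le.trans hj)] at h1
          exact absurd h1 (by simp)
        · rw [hB2 i j ((hb3 _ (mem_insert_of_mem _ ⟨i, rfl⟩)).le.trans hj)] at h1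
          exact absurd h1 (by simp)
  · intro ξ j x h
    rcases (hg ξ j x).1 h with h1 | ⟨i, h1⟩
    · exact e0.2.2.2 ξ j x h1
    · exact (f i).2.2.2 ξ j x h1
  · intro ξ j x h
    exact (hg ξ j x).2 (Or.inl h)
  · intro i ξ j x h
    exact (hg ξ j x).2 (Or.inr ⟨i, h⟩)

end Pool.Agent.FreeSetsA
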