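import Mathlib.SetTheory.Cardinal.Regular
import Mathlib.SetTheory.Cardinal.Arithmetic
import Mathlib.SetTheory.Cardinal.Pigeonhole

/-!
# H26-G2a: pieces of names, abstract form

`E` is a `k⁺`-closed order, `X` a set of size at most `k` (the lower conditions), `D t y e` is read
`(t, e)` forces `y ∈ S`. If no `e` and `Z`, `#Z ≤ k`, catch all of `S` then some `e`, `t` force a set
`Y` of any given size `χ ≤ k` into `S`.

Proof: let `I = (Order.succ k).ord.ToType` (`#(Iio i) ≤ k` for `i : I`). By recursion on `i` choose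
`e i : E`, `t i : X`, `y i : A`, such that `e i ≤ e j`, `y i ≠ y j` for `j < i` and `D (t i) (y i) (e i)`: by
`hcl` there is a lower bound `e` of all `e j`, `j < i`, and `h e {y j | j < i}` gives `e i ≤ e`, `t i`,
`y i`. (Use `WellFoundedLT.fix` with values in `E × X × A`, the step is a choice from `h` if the
family of the `e j`, `j < i`, has a lower bound, and anything otherwise; then prove the properties by
induction on `i`.) Pigeonhole: some `t` is `t i` for all `i` in a set `N` of size `succ k`
(`infinite_pigeonhole_card`, `succ k` is regular). Take `N' ⊆ N` with `#N' = χ ≤ k`; `N'` is bounded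
in `I` by some `i0` (`#N' ≤ k < cof`), `Y := {y i | i ∈ N'}`, and `e i0` works. -/

set_option linter.unusedSectionVars false
set_option linter.unusedVariables false

namespace Pool.Agent.FreeSetsA

universe u

open Set Cardinal

theorem pieces {E X A : Type u} [Preorder E] {k χ : Cardinal.{u}} (hk : ℵ₀ ≤ k) (hχ : χ ≤ k)
    (hcl : ∀ (I : Type u), #I ≤ k → ∀ f : I → E, (∀ i j, f i ≤ f j ∨ f j ≤ f i) →
      ∃ e, ∀ i, e ≤ f i)
    (hX : #X ≤ k) (D : X → A → E → Prop) (mono : ∀ t y e e', e' ≤ e → D t y e → D t y e')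
    (h : ∀ (e : E) (Z : Set A), #Z ≤ k → ∃ e' ≤ e, ∃ t, ∃ y ∉ Z, D t y e') :
    ∃ e t, ∃ Y : Set A, #Y = χ ∧ ∀ y ∈ Y, D t y e := by
  classical
  obtain ⟨e₀, -⟩ := hcl PEmpty (by simp) (fun i => i.elim) (fun i => i.elim)
  obtain ⟨e₁, -, t₁, y₁, -, -⟩ := h e₀ ∅ (by simp)
  let I : Type u := (Order.succ k).ord.ToType
  have hreg : (Order.succ k).IsRegular := isRegular_succ hk
  have hIio : ∀ i : I, #(Iio i) ≤ k := by
    intro i
    have h1 : #(Iio i) < #I := mk_Iio_lt i (by simp [I])
    have h2 : #I = Order.succ k := by simp [I]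
    rw [h2] at h1
    exact Order.lt_succ_iff.1 h1
  let P : (i : I) → ((j : I) → j < i → E × X × A) → E × X × A → Prop := fun i g v =>
    (∀ j (hj : j < i), v.1 ≤ (g j hj).1) ∧ (∀ j (hj : j < i), (g j hj).2.2 ≠ v.2.2) ∧
      D v.2.1 v.2.2 v.1
  let step : (i : I) → ((j : I) → j < i → E × X × A) → E × X × A := fun i g =>
    if hh : ∃ v, P i g v then hh.choose else (e₁, t₁, y₁)
  have hstep : ∀ i g, (∃ v, P i g v) → P i g (step i g) := by
    intro i g hh
    have : step i g = hh.choose := dif_pos hh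
    rw [this]
    exact hh.choose_spec
  let F : I → E × X × A := (wellFounded_lt (α := I)).fix step
  have hF : ∀ i, F i = step i (fun j _ => F j) := fun i => WellFounded.fix_eq _ _ _
  have key : ∀ i, P i (fun j _ => F j) (F i) := by
    intro i
    induction i using WellFoundedLT.induction with
    | ind i ih =>
      rw [hF i]
      apply hstep
      obtain ⟨e, he⟩ := hcl (Iio i) (hIio i) (fun j => (F j).1) (by
        intro a b
        rcases lt_trichotomy a.1 b.1 with hab | hab | hab
        · exact Or.inr ((ih b.1 b.2).1 a.1 hab)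
        · left
          rw [hab]
        · exact Or.inl ((ih a.1 a.2).1 b.1 hab))
      obtain ⟨e', hle, t, y, hy, hD⟩ := h e (range fun j : Iio i => (F j).2.2)
        (mk_range_le.trans (hIio i))
      refine ⟨(e', t, y), fun j hj => hle.trans (he ⟨j, hj⟩), fun j hj hjy => hy ?_, hD⟩
      exact ⟨⟨j, hj⟩, hjy⟩
  have hcard : #I = Order.succ k := by simp [I]
  obtain ⟨t, ht⟩ := infinite_pigeonhole_card (fun i : I => (F i).2.1) (Order.succ k)
    hcard.ge (hk.trans (Order.le_succ k)) (by
      rw [hreg.cof_ord]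
      exact hX.trans_lt (Order.lt_succ k))
  have hχ' : χ ≤ #((fun i : I => (F i).2.1) ⁻¹' {t} : Set I) :=
    hχ.trans ((Order.le_succ k).trans ht)
  obtain ⟨N, hN, hNc⟩ := le_mk_iff_exists_subset.1 hχ'
  have hnc : ¬ IsCofinal N := by
    intro hc
    have h1 := Order.cof_le hc
    rw [hNc] at h1
    have h2 : Order.cof I = Order.succ k := by
      rw [show Order.cof I = (Order.succ k).ord.cof from Ordinal.cof_toType _, hreg.cof_ord]
    rw [h2] at h1
    exact absurd (h1.trans hχ) (not_le.2 (Order.lt_succ k))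
  have hx : ∃ i0 : I, ∀ i ∈ N, i < i0 := by
    by_contra hcon
    apply hnc
    intro x
    by_contra hx
    exact hcon ⟨x, fun i hi => not_le.1 fun hle => hx ⟨i, hi, hle⟩⟩
  obtain ⟨i0, hi0⟩ := hx
  have hinj : Function.Injective fun i : I => (F i).2.2 := by
    intro a b hab
    rcases lt_trichotomy a b with hlt | heq | hgt
    · exact absurd hab ((key b).2.1 a hlt)
    · exact heq
    · exact absurd hab.symm ((key a).2.1 b hgt)
  refine ⟨(F i0).1, t, (fun i : I => (F i).2.2) '' N, ?_, ?_⟩
  · rw [mk_image_eq hinj, hNc]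
  · rintro y ⟨i, hi, rfl⟩
    have h1 : (F i).2.1 = t := hN hi
    have h2 := (key i).2.2
    rw [h1] at h2
    exact mono _ _ _ _ ((key i0).1 i (hi0 i hi)) h2

end Pool.Agent.FreeSetsA
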