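import Pool.Agent.Lib_MP_38e082_all.G1
import Pool.Agent.Lib_MP_38e082_all.G2a

/-!
# H26-G2: ground pieces of names

`pieces` with `E := {e : EE a c univ // e ≤ q.2 ∧ ∀ ξ ≤ γ, ∀ x, e.1 ξ x = q.2.1 ξ x}` (closed by
`exists_lower` with `e0 = q.2`), `X := {t : P × EE a c (Iic γ) // t ≤ (q.1, EE.low γ q.2)}`
(`#X ≤ κ γ` by `card_low`) and `D t y e := D y (t.1, EE.glue t.2 e)`. Given `e`, `Z` the hypothesis for
`q' = (q.1, e)` gives `r ≤ q'`; take `t = (r.1, EE.low γ r.2)` and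
`e' = EE.glue (EE.low γ q.2) r.2 ≤ e`; then `(t.1, EE.glue t.2 e') = r` (compare the values at each
coordinate). -/

set_option linter.unusedSectionVars false
set_option linter.unusedVariables false

namespace Pool.Agent.FreeSetsA

universe u

open Set Cardinal Pool.Agent.KT Pool.Agent.KTM

variable {O P A : Type u} [LinearOrder O] [OrderBot O] [WellFoundedLT O] [Preorder P]
  {σ κ : O → Cardinal.{u}} {a c τ : O → O} {Λ : O}

/-- If the set of the `y` with `D y r` for some `r` is not contained in a set of size `κ γ`, below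
any `q' ≤ q`, then some `q' ≤ q` has `D y q'` for `χ` many `y`, for every `χ ≤ κ γ`. -/
theorem SysF.exists_piece (hS : SysF O P σ κ a c τ Λ) {γ : O}
    (D : A → P × EE a c univ → Prop) (mono : ∀ y r r', r' ≤ r → D y r → D y r')
    (q : P × EE a c univ)
    (h : ∀ q' ≤ q, ∀ Z : Set A, #Z ≤ κ γ → ∃ r ≤ q', ∃ y ∉ Z, D y r) {χ : Cardinal.{u}}
    (hχ : χ ≤ κ γ) : ∃ q' ≤ q, ∃ Y : Set A, #Y = χ ∧ ∀ y ∈ Y, D y q' := by
  classical
  let E : Type u := {e : EE a c univ // e ≤ q.2 ∧ ∀ ξ ≤ γ, ∀ x, e.1 ξ x = q.2.1 ξ x}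
  let X : Type u := {t : P × EE a c (Iic γ) // t.1 ≤ q.1 ∧ t.2 ≤ EE.low γ q.2}
  have hX : #X ≤ κ γ := (Cardinal.mk_subtype_le _).trans (Sys.card_low hS.toSys γ)
  have hcl : ∀ (I : Type u), #I ≤ κ γ → ∀ f : I → E, (∀ i j, f i ≤ f j ∨ f j ≤ f i) →
      ∃ e, ∀ i, e ≤ f i := by
    intro I hI f hch
    obtain ⟨e, h1, h2, h3⟩ := hS.exists_lower hI q.2 (fun i => (f i).1) hch
      (fun i => (f i).2.1) (fun i => (f i).2.2)
    exact ⟨⟨e, h1, h3⟩, h2⟩
  obtain ⟨e, t, Y, hY, hD⟩ := pieces (E := E) (X := X) (A := A) (hS.inf γ) hχ hcl hX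
    (fun t y e => D y (t.1.1, EE.glue t.1.2 e.1))
    (by
      intro t y e e' he hD
      exact mono y (t.1.1, EE.glue t.1.2 e.1) (t.1.1, EE.glue t.1.2 e'.1)
        ⟨le_rfl, EE.glue_mono le_rfl he⟩ hD)
    (by
      rintro ⟨e, he1, he2⟩ Z hZ
      obtain ⟨r, hr, y, hy, hD⟩ := h (q.1, e) ⟨le_rfl, he1⟩ Z hZ
      have hr2 : r.2 ≤ e := hr.2
      have hlow : EE.glue (EE.low γ q.2) r.2 ≤ e := by
        intro ξ i x hx
        by_cases hξ : ξ ≤ γ
        · rw [he2 ξ hξ i] at hx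
          simp only [EE.glue, EE.low, if_pos hξ]
          exact hx
        · simp only [EE.glue, if_neg hξ]
          exact hr2 ξ i x hx
      refine ⟨⟨EE.glue (EE.low γ q.2) r.2, hlow.trans he1, ?_⟩, hlow,
        ⟨(r.1, EE.low γ r.2), hr.1, EE.low_mono γ (hr2.trans he1)⟩, y, hy, ?_⟩
      · intro ξ hξ x
        simp only [EE.glue, EE.low, if_pos hξ]
      · have hglue : EE.glue (EE.low γ r.2) (EE.glue (EE.low γ q.2) r.2) = r.2 := by
          apply Subtype.ext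
          funext ξ i
          by_cases hξ : ξ ≤ γ
          · simp only [EE.glue, EE.low, if_pos hξ]
          · simp only [EE.glue, if_neg hξ]
        show D y (r.1, EE.glue (EE.low γ r.2) (EE.glue (EE.low γ q.2) r.2))
        rw [hglue]
        exact hD)
  refine ⟨(t.1.1, EE.glue t.1.2 e.1), ⟨t.2.1, ?_⟩, Y, hY, hD⟩
  refine (EE.glue_le ?_).trans e.2.1
  have hlow : EE.low γ e.1 = EE.low γ q.2 := by
    apply Subtype.ext
    funext ξ i
    by_cases hξ : ξ ≤ γ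
    · simp only [EE.low, if_pos hξ]
      exact e.2.2 ξ hξ i
    · simp only [EE.low, if_neg hξ]
  rw [hlow]
  exact t.2.2

end Pool.Agent.FreeSetsA
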