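import Pool.Agent.Lib_MP_38e082_all.Basics

/-!
# H26-G3: covering functions by ground functions; injections

`exists_cover`: embed `A` into the ordinals below `(σ β).ord` and let `lev x` be some `γ < β` with
`card (f x) < κ γ` (`σ_sup`); so `#{x | lev x = γ} ≤ κ γ`. Apply `Sys.exists_reduce` with
`AA γ = {x | lev x = γ}` (for `γ < β`, `∅` otherwise) and let
`F x = {b | ∃ t : P × EE a c (Iic (lev x)), Φ.val x b (t.1, EE.glue t.2 e')}`, of size at most
`#(P × EE a c (Iic (lev x))) ≤ κ (lev x) ≤ σ β` (`card_low`; by `uniq` each `t` gives at most one `b`).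
If `Φ.val x b r`, `r ≤ (q.1, e')`, take `t' ≤ (r.1, EE.low (lev x) r.2)` from the reduction, with the
value `b'`; `(t'.1, EE.glue t'.2 r.2)` is below `r` and below `(t'.1, EE.glue t'.2 e')`, so `b = b'`.

`noInj`: apply `exists_cover` to the inverse `Z → Option A` of `J` (`PF.exists_ofDense_below q`, the
value at `z` is `some x` if `J.val x z r`, and `none` if no `r' ≤ r` and `x` have `J.val x z r'`): all
`some x` are in one of the `#Z ≤ σ β` sets `F z` of size at most `σ β`, so `#A ≤ σ β`. -/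

set_option linter.unusedSectionVars false
set_option linter.unusedVariables false

namespace Pool.Agent.FreeSetsA

universe u

open Set Cardinal Pool.Agent.KT Pool.Agent.KTM

variable {O P A B : Type u} [LinearOrder O] [OrderBot O] [WellFoundedLT O] [Preorder P]
  {σ κ : O → Cardinal.{u}} {a c τ : O → O} {Λ : O}

private theorem G3_levels (hS : SysF O P σ κ a c τ Λ) {β : O} (hβ : β ≠ ⊥) (hA : #A ≤ σ β) :
    ∃ lev : A → O, (∀ x, lev x < β) ∧ ∀ γ, #{x | lev x = γ} ≤ κ γ := by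
  obtain ⟨f, hf, hlt⟩ : ∃ f : A → Ordinal.{u}, Function.Injective f ∧ ∀ x, f x < (σ β).ord := by
    obtain ⟨r, wo, hr⟩ := ord_eq A
    refine ⟨fun x => Ordinal.typein r x, fun x y h => Ordinal.typein_injective r h, fun x => ?_⟩
    refine (Ordinal.typein_lt_type r x).trans_le ?_
    rw [← hr]
    exact ord_le_ord.2 hA
  have h2 : ∀ x, ∃ γ < β, (f x).card < κ γ := fun x =>
    hS.σ_sup β hβ _ (lt_ord.1 (hlt x))
  choose lev h3 h4 using h2
  refine ⟨lev, h3, fun γ => ?_⟩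
  have h5 : Cardinal.lift.{u + 1} #{x | lev x = γ} ≤ Cardinal.lift.{u} #(Iio (κ γ).ord) := by
    refine Cardinal.lift_mk_le'.2 ⟨⟨fun x => ⟨f x.1, ?_⟩, ?_⟩⟩
    · have h6 := h4 x.1
      have h7 : lev x.1 = γ := x.2
      rw [h7] at h6
      exact lt_ord.2 h6
    · intro x y h
      have h8 := congrArg Subtype.val h
      exact Subtype.ext (hf h8)
  rw [mk_Iio_ordinal, card_ord] at h5
  simpa using h5

private theorem G3_inj {J : PF (P × EE a c univ) A B} {q : P × EE a c univ} (hJ : InjP J q)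
    {r : P × EE a c univ} (hr : r ≤ q) {x y : A} {b : B} (hx : J.val x b r) (hy : J.val y b r) :
    x = y := hJ x y b r hr hx hy

theorem SysF.exists_cover (hS : SysF O P σ κ a c τ Λ) {β : O} (hβ : β ≠ ⊥) (hA : #A ≤ σ β)
    (Φ : PF (P × EE a c univ) A B) (q : P × EE a c univ) : ∃ q' ≤ q, ∃ F : A → Set B,
      (∀ x, #(F x) ≤ σ β) ∧ ∀ x b, ∀ r ≤ q', Φ.val x b r → b ∈ F x := by
  classical
  obtain ⟨lev, hlev, hcard⟩ := G3_levels hS hβ hA
  obtain ⟨e', he', hred⟩ := hS.toSysG.toSys.exists_reduce (fun γ => {x | lev x = γ}) hcard Φ q.2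
  refine ⟨(q.1, e'), ⟨le_rfl, he'⟩,
    fun x => {b | ∃ t : P × EE a c (Iic (lev x)), Φ.val x b (t.1, EE.glue t.2 e')}, ?_, ?_⟩
  · intro x
    have h1 : ∀ b : {b | ∃ t : P × EE a c (Iic (lev x)), Φ.val x b (t.1, EE.glue t.2 e')},
        ∃ t : P × EE a c (Iic (lev x)), Φ.val x b.1 (t.1, EE.glue t.2 e') := fun b => b.2
    choose g hg using h1
    have h2 : Function.Injective g := by
      intro b b' h
      apply Subtype.ext
      have h3 := hg b
      rw [h] at h3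
      exact Φ.uniq x b.1 b'.1 _ h3 (hg b')
    exact ((mk_le_of_injective h2).trans (hS.toSysG.toSys.card_low (lev x))).trans
      (hS.κ_le (lev x) β (hlev x))
  · intro x b r hr hb
    obtain ⟨t', ht', b', hb'⟩ := hred (lev x) x rfl (r.1, EE.low (lev x) r.2)
    have h1 : ((t'.1, EE.glue t'.2 r.2) : P × EE a c univ) ≤ r :=
      ⟨ht'.1, EE.glue_le ht'.2⟩
    have h2 : ((t'.1, EE.glue t'.2 r.2) : P × EE a c univ) ≤ (t'.1, EE.glue t'.2 e') :=
      ⟨le_rfl, EE.glue_mono le_rfl hr.2⟩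
    have h3 := Φ.mono x b r _ h1 hb
    have h4 := Φ.mono x b' _ _ h2 hb'
    have h5 := Φ.uniq x b b' _ h3 h4
    subst h5
    exact ⟨t', hb'⟩

theorem SysF.noInj (hS : SysF O P σ κ a c τ Λ) {β : O} (hβ : β ≠ ⊥)
    (J : PF (P × EE a c univ) A B) (q : P × EE a c univ) (hJ : InjP J q) (Z : Set B)
    (hZ : #Z ≤ σ β) (hA : σ β < #A) : ¬ ∀ x b, ∀ r ≤ q, J.val x b r → b ∈ Z := by
  classical
  intro h
  obtain ⟨X, -, hX⟩ := PF.exists_ofDense_below (A := Z) (B := Option A) q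
    (fun z o r => (∃ x, o = some x ∧ J.val x z.1 r) ∨
      (o = none ∧ ∀ r' ≤ r, ∀ x, ¬ J.val x z.1 r')) (by
      rintro z o p p' hp' - (⟨x, h1, h2⟩ | ⟨h1, h2⟩)
      · exact Or.inl ⟨x, h1, J.mono x z.1 p p' hp' h2⟩
      · exact Or.inr ⟨h1, fun r' hr' => h2 r' (hr'.trans hp')⟩) (by
      rintro z o o' p hp (⟨x, h1, h2⟩ | ⟨h1, h2⟩) (⟨x', h3, h4⟩ | ⟨h3, h4⟩)
      · rw [h1, h3, G3_inj hJ hp h2 h4]
      · exact absurd h2 (h4 p le_rfl x)
      · exact absurd h4 (h2 p le_rfl x')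
      · rw [h1, h3]) (by
      intro z p hp
      by_cases hc : ∃ r' ≤ p, ∃ x, J.val x z.1 r'
      · obtain ⟨r', hr', x, hx⟩ := hc
        exact ⟨r', hr', some x, Or.inl ⟨x, rfl, hx⟩⟩
      · exact ⟨p, le_rfl, none, Or.inr ⟨rfl, fun r' hr' x hx => hc ⟨r', hr', x, hx⟩⟩⟩)
  obtain ⟨q', hq', F, hF, hcov⟩ := hS.exists_cover hβ hZ X q
  have h1 : ∀ x : A, ∃ z : Z, some x ∈ F z := by
    intro x
    obtain ⟨r, hr, b, hb⟩ := J.total x q'
    have hbZ := h x b r (hr.trans hq') hb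
    exact ⟨⟨b, hbZ⟩, hcov ⟨b, hbZ⟩ (some x) r hr
      (hX ⟨b, hbZ⟩ (some x) r (hr.trans hq') (Or.inl ⟨x, rfl, hb⟩))⟩
  choose f hf using h1
  have h2 : #A ≤ #(Σ z : Z, F z) :=
    mk_le_of_injective (f := fun x => (⟨f x, ⟨some x, hf x⟩⟩ : Σ z : Z, F z)) fun x y hxy => by
      have h3 := congrArg (fun w : Σ z : Z, F z => w.2.1) hxy
      exact Option.some_inj.1 h3
  have h3 : #A ≤ σ β := by
    refine h2.trans ?_
    rw [mk_sigma]
    calc Cardinal.sum (fun z : Z => #(F z)) ≤ Cardinal.sum (fun _ : Z => σ β) :=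
          Cardinal.sum_le_sum _ _ fun z => hF z
      _ = #Z * σ β := by rw [Cardinal.sum_const']
      _ ≤ σ β * σ β := mul_le_mul' hZ le_rfl
      _ = σ β := mul_eq_self (hS.σ_inf hβ)
  exact absurd hA (not_lt.2 h3)

end Pool.Agent.FreeSetsA
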