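import Pool.Agent.Lib_MP_38e082_all.Basics
import Pool.Agent.Lib_MP_bf47cd.V08

/-!
# H26-G4: reduction for predicates, at a constant level

`hS.toSys.fusion` (V07) with `J := I × (P × EE a c (Iic γ))`, `ρ := fun _ => γ` (at most
`κ γ * κ γ = κ γ ≤ σ ξ` tasks for `γ < ξ`, and no task with `γ < ξ` fails for `ξ ≤ γ`), the start `q.2`, and
the tasks `{e | (∃ t' ≤ t, D i (t'.1, EE.glue t'.2 e)) ∨ ∀ e' ≤ e, ¬ (e' ≤ q.2 ∧ t ≤ (q.1, EE.low γ q.2))}`
(see `Sys.exists_reduce` in V08 and `Sys.dist` in V07). Density: if `e' ≤ e`, `e' ≤ q.2`,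
`t ≤ (q.1, EE.low γ q.2)`, then `(t.1, EE.glue t.2 e') ≤ q`; extend it to `r` with `D i r` and take
`EE.glue (EE.low γ e) r.2` and `t' = (r.1, EE.low γ r.2)`. -/

set_option linter.unusedSectionVars false
set_option linter.unusedVariables false

namespace Pool.Agent.FreeSetsA

universe u

open Set Cardinal Pool.Agent.KT Pool.Agent.KTM

variable {O P : Type u} [LinearOrder O] [OrderBot O] [WellFoundedLT O] [Preorder P]
  {σ κ : O → Cardinal.{u}} {a c τ : O → O} {Λ : O}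

theorem SysF.exists_reduce_pred (hS : SysF O P σ κ a c τ Λ) {γ : O} {I : Type u}
    (hI : #I ≤ κ γ) (q : P × EE a c univ) (D : I → P × EE a c univ → Prop)
    (mono : ∀ i r r', r' ≤ r → D i r → D i r') (dense : ∀ i, ∀ r ≤ q, ∃ r' ≤ r, D i r') :
    ∃ e' ≤ q.2, ∀ i, ∀ t : P × EE a c (Iic γ), t ≤ (q.1, EE.low γ q.2) →
      ∃ t' ≤ t, D i (t'.1, EE.glue t'.2 e') := by
  suffices key : ∃ e' ≤ q.2, ∀ j : I × (P × EE a c (Iic γ)),
      e' ∈ {e | (∃ t' ≤ j.2, D j.1 (t'.1, EE.glue t'.2 e)) ∨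
        ∀ e1 ≤ e, ¬ (e1 ≤ q.2 ∧ j.2 ≤ (q.1, EE.low γ q.2))} by
    obtain ⟨e', he', h⟩ := key
    refine ⟨e', he', fun i t ht => ?_⟩
    rcases h (i, t) with h1 | h1
    · exact h1
    · exact absurd ⟨he', ht⟩ (h1 e' le_rfl)
  refine hS.toSys.fusion (J := I × (P × EE a c (Iic γ))) (fun _ => γ) ?_
    (fun j => {e | (∃ t' ≤ j.2, D j.1 (t'.1, EE.glue t'.2 e)) ∨
      ∀ e1 ≤ e, ¬ (e1 ≤ q.2 ∧ j.2 ≤ (q.1, EE.low γ q.2))}) ?_ ?_ q.2
  · intro ξ hξ
    by_cases hγ : γ < ξ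
    · refine (mk_subtype_le _).trans ?_
      rw [mk_prod, lift_id, lift_id]
      refine (mul_le_mul' hI (hS.toSys.card_low γ)).trans ?_
      rw [mul_eq_self (hS.inf γ)]
      exact hS.κ_le γ ξ hγ
    · have : IsEmpty {j : I × (P × EE a c (Iic γ)) // γ < ξ} := ⟨fun j => hγ j.2⟩
      rw [mk_eq_zero]
      exact zero_le
  · rintro ⟨i, t⟩ e1 (⟨t', ht', hD⟩ | h1) e2 he2
    · exact Or.inl ⟨t', ht', mono i (t'.1, EE.glue t'.2 e1) _ ⟨le_rfl, EE.glue_mono le_rfl he2⟩ hD⟩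
    · exact Or.inr fun e3 he3 => h1 e3 (he3.trans he2)
  · rintro ⟨i, t⟩ e
    by_cases hx : ∃ e1 ≤ e, e1 ≤ q.2 ∧ t ≤ (q.1, EE.low γ q.2)
    · obtain ⟨e1, he1, heq, ht⟩ := hx
      obtain ⟨r, hr, hD⟩ := dense i (t.1, EE.glue t.2 e1)
        ⟨ht.1, (EE.glue_mono ht.2 heq).trans (EE.glue_le le_rfl)⟩
      refine ⟨EE.glue (EE.low γ e) r.2, ?_,
        Or.inl ⟨(r.1, EE.low γ r.2), ⟨hr.1, EE.low_glue_le hr.2⟩, ?_⟩, ?_⟩
      · intro ξ j y hy
        by_cases hξ : ξ ≤ γ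
        · simp only [EE.glue, EE.low, if_pos hξ]; exact hy
        · simp only [EE.glue, if_neg hξ]
          apply hr.2 ξ j y
          simp only [EE.glue, if_neg hξ]
          exact he1 ξ j y hy
      · have h1 : EE.glue (EE.low γ r.2) (EE.glue (EE.low γ e) r.2) = r.2 := by
          apply Subtype.ext
          funext ξ j
          by_cases hξ : ξ ≤ γ
          · simp only [EE.glue, EE.low, if_pos hξ]
          · simp only [EE.glue, if_neg hξ]
        change D i (r.1, EE.glue (EE.low γ r.2) (EE.glue (EE.low γ e) r.2))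
        rw [h1]
        exact hD
      · intro ξ hξ j
        have hξ' : ξ ≤ γ := hξ
        simp only [EE.glue, EE.low, if_pos hξ']
    · push Not at hx
      exact ⟨e, le_rfl, Or.inr fun e1 he1 h2 => hx e1 he1 h2.1 h2.2, fun _ _ _ => rfl⟩

end Pool.Agent.FreeSetsA
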