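import Pool.Agent.Lib_MP_38e082_all.G1

/-!
# H26-H1: the set mapping of the generic function at `β`

`PF.exists_ofDense` (A15) for
`v x X q := ∃ s, (∀ i < x, q.2.1 β i.1 = some (s i).1) ∧ X = F s x`:
monotone; unique since two such `s`, `s'` agree below `x`, so `F s x = F s' x` by `loc`; total by
`exists_decide`. For `sub`: `Φ.val x X r` gives some `r' ≤ r` with `v x X r'`. -/

set_option linter.unusedSectionVars false
set_option linter.unusedVariables false

namespace Pool.Agent.FreeSetsA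

universe u

open Set Cardinal Pool.Agent.KT Pool.Agent.KTM

variable {O P : Type u} [LinearOrder O] [OrderBot O] [WellFoundedLT O] [Preorder P]
  {σ κ : O → Cardinal.{u}} {a c τ : O → O} {Λ : O}

theorem SysF.exists_phi (hS : SysF O P σ κ a c τ Λ) {β : O} (hβ : β ≠ ⊥)
    (F : (Iio (a β) → Iio (c β)) → Iio (a β) → Set (Iio (a β)))
    (loc : ∀ s s' x, (∀ y < x, s y = s' y) → F s x = F s' x)
    (sub : ∀ s x, ∀ y ∈ F s x, y < x) :
    ∃ Φ : PF (P × EE a c univ) (Iio (a β)) (Set (Iio (a β))), PhiP β F Φ := by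
  obtain ⟨Φ, h1, h2⟩ := PF.exists_ofDense (P := P × EE a c univ) (A := Iio (a β))
    (B := Set (Iio (a β)))
    (fun x X q => ∃ s : Iio (a β) → Iio (c β),
      (∀ i < x, q.2.1 β i.1 = some (s i).1) ∧ X = F s x) (by
      rintro x X p q hq ⟨s, h1, h2⟩
      exact ⟨s, fun i hi => hq.2 β i.1 _ (h1 i hi), h2⟩) (by
      rintro x X X' p ⟨s, h1, rfl⟩ ⟨s', h3, rfl⟩
      refine loc s s' x fun y hy => ?_
      have h4 := (h1 y hy).symm.trans (h3 y hy)
      exact Subtype.ext (Option.some.inj h4)) (by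
      intro x p
      obtain ⟨e', he', s, hs⟩ := hS.exists_decide hβ p.2 x.2
      exact ⟨(p.1, e'), ⟨le_rfl, he'⟩, F s x, s, fun i hi => hs i hi, rfl⟩)
  refine ⟨Φ, fun x X r h y hy => ?_, fun x r s hs => h2 _ _ _ ⟨s, hs, rfl⟩⟩
  obtain ⟨r', _, s, _, rfl⟩ := (h1 x X r).1 h r le_rfl
  exact sub s x y hy

end Pool.Agent.FreeSetsA
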