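import Pool.Agent.Lib_MP_38e082_all.G2
import Pool.Agent.Lib_MP_38e082_all.G3
import Pool.Agent.Lib_MP_38e082_all.G4

/-!
# H26-H2: intersections of `a β` many values have size less than `τ β`

`K = Iio (a β)`, `L = Iio (τ β)`. Given `q` and `i`, `c` injective below `q` (write `cc` for `c`).

1. For `j : J` let `D j r := ∃ Y : Set K, #Y = succ (succ (κ j)) ∧ ∀ y ∈ Y, ∃ η, cc.val η y r`. This is
dense below `q`: let `r ≤ q`, `j < j' < β` (`hβ.2`); `exists_piece` at the level `j'` for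
`y, r ↦ ∃ η, cc.val η y r` and `χ = succ (succ (κ j)) ≤ κ j'` (`succ_succ_lt`). Its hypothesis: if for
some `q' ≤ r`, `Z`, `#Z ≤ κ j'`, all `y` with `cc.val η y r'`, `r' ≤ q'`, are in `Z`, take `j' < j'' < β`;
`cc` restricted to `Iio (a j'') ⊆ Iio (τ β)` (`a_lt_τ`, `PF.pre`) contradicts `noInj` at `j''`
(`#Z ≤ κ j' ≤ σ j'' < #(Iio (a j''))`).

2. `exists_reduce_pred` at the level `γ0` for `D` (`I = J`, `hJc : #J ≤ κ γ0`): `e' ≤ q.2`. Put
`W j t := Y` for a chosen `Y` as in `D j (t.1, EE.glue t.2 e')` (`∅` if there is none). For `j : J`,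
`γ0 < j`, there is an injection `g j : P × EE a c (Iic γ0) → Iio (a j)` (`card_low`, `κ_lt_a`). Let
`w j i := {y | ∃ t, γ0 < j ∧ (g j t).1 = i ∧ y ∈ W j t}`, and `z` the code of `w` (`hG.code`).

3. All elements of the sets `W j t` are below some `b1 < a β`: there are at most
`#J * κ γ0 * σ β ≤ σ β` of them (`hS.bdd`, `seg_le`; `succ (succ (κ j)) ≤ κ j' ≤ σ β`).

4. Let `ξ0 < a β` bound the domain of `e'` at `β`, `e'' ≤ e'` with `e''.1 β ξ0 = some z` (`exists_ext`).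
Let `b2 < a β` be above `b1` and `ξ0`. By `noInj` at `β` (for `i`, `(q.1, e'')`, `Z = {x | x.1 < b2}`,
`#Z ≤ σ β` by `seg_a`, `σ β < #(Iio (a β))` by `a_card`) there are `r1 ≤ (q.1, e'')`, `ξ`, `x` with
`i.val ξ x r1` and `b2 ≤ x`.

5. `exists_decide`: `r2 ≤ r1` (same first coordinate) and `s` with `r2.2.1 β i = some (s i)` for
`i < x`; `s ξ0 = z`. `hG.hits s x ξ0` gives `j0`; take `j : J` with `j0 ≤ j` and `γ0 < j` (`hJ.2`,
`hγ0 : γ0 < β`).

6. `t := (r2.1, EE.low γ0 r2.2) ≤ (q.1, EE.low γ0 q.2)`; by 2. there is `t' ≤ t` with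
`D j (t'.1, EE.glue t'.2 e')`. With `i0 = g j t'`: `φ (s ξ0) j i0 = w j i0 = W j t'` has size
`succ (succ (κ j))` and is below `x`, so there is `y ∈ A s x j`, `y ∈ W j t'`.

7. `r := (t'.1, EE.glue t'.2 r2.2)` is below `r2` (`EE.glue_le`) and below `(t'.1, EE.glue t'.2 e')`
(`EE.glue_mono`): some `η` has `cc.val η y r`; `Φ.val x (Fs A s x) r` by `hΦ.val`; `y ∉ Fs A s x`. -/

set_option linter.unusedSectionVars false
set_option linter.unusedVariables false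

namespace Pool.Agent.FreeSetsA

universe u

open Set Cardinal Pool.Agent.KT Pool.Agent.KTM

variable {O P : Type u} [LinearOrder O] [OrderBot O] [WellFoundedLT O] [Preorder P]
  {σ κ : O → Cardinal.{u}} {a c τ : O → O} {Λ : O}

private theorem H2_dense (hS : SysF O P σ κ a c τ Λ) {β : O} (hβ : Lim β) {J : Set O}
    (hJ : CofIn J β) (cc : PF (P × EE a c univ) (Iio (τ β)) (Iio (a β)))
    (q : P × EE a c univ) (hcc : InjP cc q) (j : J) (r : P × EE a c univ) (hr : r ≤ q) :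
    ∃ r' ≤ r, ∃ Y : Set (Iio (a β)), #Y = Order.succ (Order.succ (κ j.1)) ∧
      ∀ y ∈ Y, ∃ η, cc.val η y r' := by
  obtain ⟨j', hj'β, hjj'⟩ := hβ.2 j.1 (hJ.1 j.1 j.2)
  refine hS.exists_piece (γ := j') (fun y r => ∃ η, cc.val η y r)
    (fun y r r' h ⟨η, h1⟩ => ⟨η, cc.mono _ _ _ _ h h1⟩) r ?_ (hS.succ_succ_lt hjj').le
  intro q' hq' Z hZ
  by_contra hcon
  obtain ⟨j2, hj2β, hj'j2⟩ := hβ.2 j' hj'β
  have hne : j2 ≠ ⊥ := ne_bot_of_gt hj'j2
  let f : Iio (a j2) → Iio (τ β) := fun x => ⟨x.1, lt_trans x.2 (hS.a_lt_τ hβ hj2β)⟩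
  have hf : Function.Injective f := fun x y h => Subtype.ext (congrArg (fun t => t.1) h)
  have hinj : InjP (PF.pre cc f) q' := by
    refine InjP.pre ?_ hf
    intro x y b r' hr' h1 h2
    exact hcc x y b r' (hr'.trans (hq'.trans hr)) h1 h2
  refine hS.noInj hne (PF.pre cc f) q' hinj Z (hZ.trans (hS.κ_le_σ hj'j2)) (hS.a_card j2 hne) ?_
  intro x b r' hr' hv
  by_contra hb
  exact hcon ⟨r', hr', b, hb, f x, hv⟩

private theorem H2_small (hS : SysF O P σ κ a c τ Λ) {β γ0 : O} (hβ : Lim β) (hγ0 : γ0 < β)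
    {J : Set O} (hJc : #J ≤ κ γ0) (W : J → (P × EE a c (Iic γ0)) → Set (Iio (a β)))
    (hW : ∀ j t, #(W j t) ≤ σ β) : ∃ b < a β, ∀ j t, ∀ y ∈ W j t, y.1 < b := by
  have hinf := hS.σ_inf hβ.1
  obtain ⟨b, hb, hb2⟩ := hS.bdd β hβ.1
    (⋃ p : J × (P × EE a c (Iic γ0)), Subtype.val '' (W p.1 p.2)) (by
      refine (mk_iUnion_le _).trans ?_
      refine (mul_le_mul' (?_ : _ ≤ σ β) (ciSup_le' (a := σ β) ?_)).trans (mul_eq_self hinf).le
      · rw [mk_prod, lift_id, lift_id]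
        exact (mul_le_mul' (hJc.trans (hS.κ_le_σ hγ0))
          ((hS.card_low γ0).trans (hS.κ_le_σ hγ0))).trans (mul_eq_self hinf).le
      · intro p
        exact mk_image_le.trans (hW p.1 p.2))
    (by
      intro x hx
      obtain ⟨p, hx⟩ := mem_iUnion.1 hx
      obtain ⟨y, _, rfl⟩ := hx
      exact y.2)
  refine ⟨b, hb, fun j t y hy => hb2 y.1 (mem_iUnion.2 ⟨(j, t), mem_image_of_mem _ hy⟩)⟩

theorem SysF.hit (hS : SysF O P σ κ a c τ Λ) {β γ0 : O} (hβ : Lim β) (hγ0 : γ0 < β) {J : Set O}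
    (hJ : CofIn J β) (hJc : #J ≤ κ γ0)
    {A : (Iio (a β) → Iio (c β)) → Iio (a β) → J → Set (Iio (a β))}
    {φ : Iio (c β) → J → O → Set (Iio (a β))} (hG : Gr κ a c β J A φ)
    {Φ : PF (P × EE a c univ) (Iio (a β)) (Set (Iio (a β)))} (hΦ : PhiP β (Fs A) Φ) :
    HitP (Iio (τ β)) Φ := by
  classical
  intro q i cc hi hcc
  have hinf := hS.σ_inf hβ.1
  -- 1. density
  let D : J → P × EE a c univ → Prop := fun j r =>
    ∃ Y : Set (Iio (a β)), #Y = Order.succ (Order.succ (κ j.1)) ∧ ∀ y ∈ Y, ∃ η, cc.val η y r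
  have Dmono : ∀ j r r', r' ≤ r → D j r → D j r' := by
    rintro j r r' h ⟨Y, hY, h1⟩
    refine ⟨Y, hY, fun y hy => ?_⟩
    obtain ⟨η, h2⟩ := h1 y hy
    exact ⟨η, cc.mono _ _ _ _ h h2⟩
  -- 2. reduction
  obtain ⟨e', he', hred⟩ := hS.exists_reduce_pred hJc q D Dmono
    (fun j r hr => H2_dense hS hβ hJ cc q hcc j r hr)
  have hWex : ∀ (j : J) (t : P × EE a c (Iic γ0)), ∃ Y : Set (Iio (a β)),
      #Y ≤ Order.succ (Order.succ (κ j.1)) ∧ (D j (t.1, EE.glue t.2 e') →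
        #Y = Order.succ (Order.succ (κ j.1)) ∧ ∀ y ∈ Y, ∃ η, cc.val η y (t.1, EE.glue t.2 e')) := by
    intro j t
    by_cases h : D j (t.1, EE.glue t.2 e')
    · obtain ⟨Y, hY, h1⟩ := h
      exact ⟨Y, hY.le, fun _ => ⟨hY, h1⟩⟩
    · exact ⟨∅, by simp, fun h' => absurd h' h⟩
  choose W hW1 hW2 using hWex
  have hgex : ∀ j : J, ∃ g : P × EE a c (Iic γ0) → O, γ0 < j.1 →
      Function.Injective g ∧ ∀ t, g t < a j.1 := by
    intro j
    by_cases h : γ0 < j.1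
    · have h1 : #(P × EE a c (Iic γ0)) ≤ #(Iio (a j.1)) :=
        (hS.card_low γ0).trans (hS.κ_lt_a h).le
      obtain ⟨g⟩ := Cardinal.le_def _ _ |>.1 h1
      exact ⟨fun t => (g t).1, fun _ => ⟨fun t t' htt => g.injective (Subtype.ext htt),
        fun t => (g t).2⟩⟩
    · exact ⟨fun _ => ⊥, fun h' => absurd h' h⟩
  choose g hg using hgex
  obtain ⟨z, hz⟩ := hG.code (fun j i => {y | ∃ t, γ0 < j.1 ∧ g j t = i ∧ y ∈ W j t})
  -- 3. the bound
  have hσsucc : ∀ j : J, Order.succ (Order.succ (κ j.1)) ≤ σ β := by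
    intro j
    obtain ⟨j', hj'β, hjj'⟩ := hβ.2 j.1 (hJ.1 j.1 j.2)
    exact (hS.succ_succ_lt hjj').le.trans (hS.κ_le_σ hj'β)
  obtain ⟨b1, hb1, hb1'⟩ := H2_small hS hβ hγ0 hJc W (fun j t => (hW1 j t).trans (hσsucc j))
  -- 4. code the family
  obtain ⟨ξ0, hξ0, hξ0'⟩ := e'.2.2.1 β
  obtain ⟨e2, he2, he2'⟩ := hS.exists_ext hβ.1 e' hξ0 z.2 (hξ0' ξ0 le_rfl)
  obtain ⟨b2, hb2, hb2'⟩ := hS.bdd β hβ.1 {b1, ξ0} (by
      refine le_trans ?_ hinf
      exact Cardinal.mk_le_aleph0_iff.2 (Set.toFinite {b1, ξ0}).countable.to_subtype) (by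
      intro y hy
      rcases hy with rfl | hy
      · exact hb1
      · rw [mem_singleton_iff] at hy
        rw [hy]; exact hξ0)
  have hb12 : b1 < b2 := hb2' b1 (by simp)
  have hξb2 : ξ0 < b2 := hb2' ξ0 (by simp)
  have hno := hS.noInj hβ.1 i (q.1, e2)
    (fun x y b r hr h1 h2 => hi x y b r (hr.trans ⟨le_rfl, he2.trans he'⟩) h1 h2)
    {x : Iio (a β) | x.1 < b2} (by
      refine le_trans ?_ (hS.seg_a β hβ.1 b2 hb2)
      exact mk_le_of_injective (f := fun x : {x : Iio (a β) | x.1 < b2} =>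
        (⟨x.1.1, x.2⟩ : Iio b2)) fun x y h => by
          have h1 := congrArg (fun t : Iio b2 => t.1) h
          exact Subtype.ext (Subtype.ext h1)) (hS.a_card β hβ.1)
  obtain ⟨ξ, x, r1, hr1, hv1, hx⟩ : ∃ ξ x r1, r1 ≤ (q.1, e2) ∧ i.val ξ x r1 ∧ ¬ x.1 < b2 := by
    by_contra hcon
    apply hno
    intro ξ x r hr hv
    by_contra hx
    exact hcon ⟨ξ, x, r, hr, hv, hx⟩
  rw [not_lt] at hx
  -- 5. decide the generic function below `x`
  obtain ⟨e3, he3, s, hs⟩ := hS.exists_decide hβ.1 r1.2 x.2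
  have he3' : e3 ≤ e' := he3.trans (hr1.2.trans he2)
  let ζ : Iio (a β) := ⟨ξ0, hξ0⟩
  have hζx : ζ < x := by
    change ξ0 < x.1
    exact hξb2.trans_le hx
  have hsζ : s ζ = z := by
    apply Subtype.ext
    have h1 : e3.1 β ξ0 = some z.1 := he3 β ξ0 z.1 (hr1.2 β ξ0 z.1 he2')
    have h2 : e3.1 β ξ0 = some (s ζ).1 := hs ζ hζx
    rw [h1] at h2
    exact (Option.some_inj.1 h2).symm
  obtain ⟨j0, hj0⟩ := hG.hits s x ζ hζx
  obtain ⟨j1, hj1J, hj1⟩ := hJ.2 (max j0.1 γ0) (max_lt (hJ.1 j0.1 j0.2) hγ0)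
  let j : J := ⟨j1, hj1J⟩
  have hj0j : j0 ≤ j := ((le_max_left _ _).trans_lt hj1).le
  have hγj : γ0 < j.1 := (le_max_right _ _).trans_lt hj1
  -- 6. the element of `A s x j`
  let t : P × EE a c (Iic γ0) := (r1.1, EE.low γ0 e3)
  have ht : t ≤ (q.1, EE.low γ0 q.2) := ⟨hr1.1, EE.low_mono γ0 (he3'.trans he')⟩
  obtain ⟨t', ht', hD⟩ := hred j t ht
  obtain ⟨hWc, hWv⟩ := hW2 j t' hD
  have hphi : φ (s ζ) j (g j t') = W j t' := by
    rw [hsζ, hz j (g j t') ((hg j hγj).2 t')]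
    ext y
    constructor
    · rintro ⟨t'', _, h1, h2⟩
      rw [← (hg j hγj).1 h1]
      exact h2
    · intro hy
      exact ⟨t', hγj, rfl, hy⟩
  have hset : {y | y ∈ φ (s ζ) j (g j t') ∧ y < x} = W j t' := by
    rw [hphi]
    ext y
    constructor
    · intro hy; exact hy.1
    · intro hy
      refine ⟨hy, ?_⟩
      change y.1 < x.1
      exact (hb1' j t' y hy).trans (hb12.trans_le hx)
  obtain ⟨y, hyA, hyW⟩ := hj0 j hj0j (g j t') ((hg j hγj).2 t') (by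
    rw [hset, hWc]
    exact Order.lt_succ _)
  rw [hphi] at hyW
  obtain ⟨η, hη⟩ := hWv y hyW
  -- 7. the common extension
  have ht2 : t'.2 ≤ EE.low γ0 e3 := ht'.2
  refine ⟨(t'.1, EE.glue t'.2 e3), ?_, ξ, x, η, y, Fs A s x, ?_, ?_, ?_, ?_⟩
  · exact ⟨ht'.1.trans hr1.1, (EE.glue_le ht2).trans (he3'.trans he')⟩
  · exact i.mono _ _ _ _ ⟨ht'.1, (EE.glue_le ht2).trans he3⟩ hv1
  · exact cc.mono η y (t'.1, EE.glue t'.2 e') (t'.1, EE.glue t'.2 e3)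
      ⟨le_rfl, EE.glue_mono le_rfl he3'⟩ hη
  · refine hΦ.val x _ s ?_
    intro i' hi'
    exact EE.glue_le ht2 β i'.1 (s i').1 (hs i' hi')
  · intro hy
    exact hy.2 j hyA

end Pool.Agent.FreeSetsA
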