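import Pool.Agent.Lib_MP_38e082_all.Defs
import Pool.Agent.Lib_MP_38e082_all.S2

/-!
# H26-S6: sets `Y` with `y ∉ F x` for all `y < x` in `Y` are small

`y ∉ Fs A s x` for `y < x` means that `y ∈ A s x j` for some `j`; the graphs `H j y x := y ∈ A s x j`
are triangle free since `A s x j` is independent. Use `exists_code`. -/

set_option linter.unusedSectionVars false
set_option linter.unusedVariables false

namespace Pool.Agent.FreeSetsA

universe u

open Set Cardinal

theorem clique_le {K C J : Type u} [LinearOrder K] [WellFoundedLT K]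
    {A : (K → C) → K → J → Set K} {s : K → C}
    (ind : ∀ x j, ∀ y ∈ A s x j, ∀ z ∈ A s x j, z ∉ A s y j) (Y : Set K)
    (hY : ∀ x ∈ Y, ∀ y ∈ Y, y < x → y ∉ Fs A s x) : #Y ≤ 2 ^ #(J × J) := by
  obtain ⟨R, hR⟩ := exists_code (fun (j : J) (y x : K) => y ∈ A s x j)
    (fun j x y z h1 h2 h3 => ind z j y h2 x h3 h1) Y (fun x hx y hy hxy => by
      have h := hY y hy x hx hxy
      by_contra hcon
      push Not at hcon
      exact h ⟨hxy, hcon⟩)
  rw [← Cardinal.mk_set]
  exact mk_le_of_injective (f := fun y : Y => R y.1) fun y z h => Subtype.ext (hR y.2 z.2 h)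

end Pool.Agent.FreeSetsA
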