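import Pool.Agent.Lib_MP_38e082_all.G2
import Pool.Agent.Lib_MP_38e082_all.S6

/-!
# H26-H3: free sets are small

Suppose there are no such `q'`, `Z`. Then the hypothesis of `exists_piece` (level `γ0`,
`D y r := S.val y ⟨true⟩ r`) holds; with `χ = succ (2 ^ #(J × J)) ≤ κ γ0` (`hJJ`, `succ_lt`) it gives
`q' ≤ q` and `Y` with `#Y = χ` and `S.val y ⟨true⟩ q'` for `y ∈ Y`. `Y` is bounded by some `b < a β`
(`hS.bdd`, `#Y ≤ κ γ0 ≤ σ β`); `exists_decide` gives `q'' ≤ q'` and `s` that decides the generic function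
at `β` below `b`. For `y < x` in `Y`: `Φ.val x (Fs A s x) q''` by `hΦ.val`, so `y ∉ Fs A s x` by freeness.
`clique_le` gives `#Y ≤ 2 ^ #(J × J)`, a contradiction. -/

set_option linter.unusedSectionVars false
set_option linter.unusedVariables false

namespace Pool.Agent.FreeSetsA

universe u

open Set Cardinal Pool.Agent.KT Pool.Agent.KTM

variable {O P : Type u} [LinearOrder O] [OrderBot O] [WellFoundedLT O] [Preorder P]
  {σ κ : O → Cardinal.{u}} {a c τ : O → O} {Λ : O}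

theorem SysF.free (hS : SysF O P σ κ a c τ Λ) {β γ0 : O} (hβ : Lim β) (hγ0 : γ0 < β) {J : Set O}
    (hJJ : 2 ^ #(J × J) < κ γ0)
    {A : (Iio (a β) → Iio (c β)) → Iio (a β) → J → Set (Iio (a β))}
    {φ : Iio (c β) → J → O → Set (Iio (a β))} (hG : Gr κ a c β J A φ)
    {Φ : PF (P × EE a c univ) (Iio (a β)) (Set (Iio (a β)))} (hΦ : PhiP β (Fs A) Φ)
    (S : PF (P × EE a c univ) (Iio (a β)) (ULift.{u} Bool)) (q : P × EE a c univ)
    (hf : FreeP Φ S q) :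
    ∃ q' ≤ q, ∃ Z : Set (Iio (a β)), #Z ≤ κ γ0 ∧ ∀ r ≤ q', ∀ x, S.val x ⟨true⟩ r → x ∈ Z := by
  by_contra hcon
  push Not at hcon
  obtain ⟨q', hq', Y, hY, hYq⟩ := hS.exists_piece (γ := γ0) (χ := Order.succ (2 ^ #(J × J)))
    (fun y r => S.val y ⟨true⟩ r) (fun y r r' hr h => S.mono y _ r r' hr h) q
    (fun q' hq' Z hZ => by
      obtain ⟨r, hr, x, hx, hxZ⟩ := hcon q' hq' Z hZ
      exact ⟨r, hr, x, hxZ, hx⟩) (hS.succ_lt hJJ).le
  have hYc : #Y ≤ κ γ0 := by rw [hY]; exact (hS.succ_lt hJJ).le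
  obtain ⟨b, hb, hbY⟩ := hS.bdd β hβ.1 (Subtype.val '' Y)
    (mk_image_le.trans (hYc.trans (hS.κ_le_σ hγ0))) (by
      rintro x ⟨y, _, rfl⟩
      exact y.2)
  obtain ⟨e, he, s, hs⟩ := hS.exists_decide hβ.1 q'.2 hb
  have hr : ((q'.1, e) : P × EE a c univ) ≤ q' := ⟨le_rfl, he⟩
  have h := clique_le (A := A) (s := s) (fun x j => hG.ind s x j) Y (by
    intro x hx y hy hyx
    refine hf (q'.1, e) (hr.trans hq') x y (Fs A s x) hyx.ne' ?_ ?_ ?_
    · exact S.mono x _ _ _ hr (hYq x hx)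
    · exact S.mono y _ _ _ hr (hYq y hy)
    · refine hΦ.val x (q'.1, e) s fun i hi => hs i ?_
      exact lt_trans (show i.1 < x.1 from hi) (hbY x.1 ⟨x, hx, rfl⟩))
  rw [hY] at h
  exact absurd h (not_le.2 (Order.lt_succ _))

end Pool.Agent.FreeSetsA
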