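import Pool.Agent.Lib_MP_38e082_all.G3

/-!
# H26-I1: cofinal maps in the extension

`cofP_cover`: `#(Iio δ) ≤ σ γ` (`seg_a`), so `exists_cover` gives `q' ≤ q` and `F`; let `X` be the union of
the sets `Subtype.val '' F x`, `x : Iio δ`, of size at most `σ γ * σ γ = σ γ`. For `x < α` apply `hf` to
`q'`.

`reg`: if `τ β = a γ`, `γ < β`, `γ ≠ ⊥` (`suc`; for `γ = ⊥` see `a_bot`), `δ < a γ` and `CofP f q`, then the
set `X` from `cofP_cover` is bounded below `a γ` (`hS.bdd`). -/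

set_option linter.unusedSectionVars false
set_option linter.unusedVariables false

namespace Pool.Agent.FreeSetsA

universe u

open Set Cardinal Pool.Agent.KT Pool.Agent.KTM

variable {O P : Type u} [LinearOrder O] [OrderBot O] [WellFoundedLT O] [Preorder P]
  {σ κ : O → Cardinal.{u}} {a c τ : O → O} {Λ : O}

theorem SysF.cofP_cover (hS : SysF O P σ κ a c τ Λ) {γ : O} (hγ : γ ≠ ⊥) {δ α : O}
    (hδ : δ < a γ) (f : PF (P × EE a c univ) (Iio δ) (Iio α)) (q : P × EE a c univ)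
    (hf : CofP f q) : ∃ X : Set O, #X ≤ σ γ ∧ (∀ x ∈ X, x < α) ∧ ∀ x < α, ∃ y ∈ X, x ≤ y := by
  have hδ' : #(Iio δ) ≤ σ γ := hS.seg_a γ hγ δ hδ
  obtain ⟨q', hq', F, hF, hF2⟩ := hS.exists_cover hγ hδ' f q
  refine ⟨⋃ y : Iio δ, Subtype.val '' F y, ?_, ?_, ?_⟩
  · refine (mk_iUnion_le_sum_mk).trans ?_
    refine (Cardinal.sum_le_sum _ (fun _ : Iio δ => σ γ) fun y => mk_image_le.trans (hF y)).trans ?_
    rw [Cardinal.sum_const']
    exact (mul_le_mul' hδ' le_rfl).trans (mul_eq_self (hS.σ_inf hγ)).le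
  · intro x hx
    obtain ⟨y, z, _, rfl⟩ := mem_iUnion.1 hx
    exact z.2
  · intro x hx
    obtain ⟨r', hr', y, z, h1, h2⟩ := hf x hx q' hq'
    exact ⟨z.1, mem_iUnion.2 ⟨y, z, hF2 y z r' hr' h1, rfl⟩, h2⟩

theorem SysF.reg (hS : SysF O P σ κ a c τ Λ) {β : O} (hβ : β ≠ ⊥) : Lim β ∨ τ β = Λ ∨
    ∀ δ < τ β, ∀ (f : PF (P × EE a c univ) (Iio δ) (Iio (τ β))) (q : P × EE a c univ),
      ¬ CofP f q := by
  rcases hS.suc β hβ with h | ⟨γ, hγβ, hγ⟩
  · exact Or.inl h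
  · by_cases hb : γ = ⊥
    · right; left
      rw [hγ, hb, hS.a_bot]
    · right; right
      intro δ hδ f q hf
      obtain ⟨X, h1, h2, h3⟩ := hS.cofP_cover hb (hγ ▸ hδ) f q hf
      obtain ⟨b, hb1, hb2⟩ := hS.bdd γ hb X h1 (fun x hx => (h2 x hx).trans_eq hγ)
      obtain ⟨y, hy, hby⟩ := h3 b (hb1.trans_eq hγ.symm)
      exact absurd (hb2 y hy) (not_lt.2 hby)

end Pool.Agent.FreeSetsA
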