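import Pool.Agent.Lib_MP_38e082_all.S3
import Pool.Agent.Lib_MP_38e082_all.Basics

/-!
# H26-S5: the ground combinatorics at a limit `β`

`K = Iio (a β)`, `L = Iio (τ β)`. For `x < a β` the size of `Iio x` is at most `σ β ≤ #(Iio (τ β))`
(`seg_a`, `τ_card`), so there is an injection `h x : Iio x → Iio (τ β)`; apply `exists_sets` with
`k j = κ j`, `P x j = {ξ < x | h x ξ < a j}` (`#(P x j) ≤ #(Iio (a j)) ≤ κ j`), `D j = Iio (a j)`.
Given `ξ < x` there is `γ < β` with `h x ξ < a γ` (`τ_lt`), and `j0 ∈ J` with `γ < j0`; `a` is monotone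
(`a_mono`), so `ξ ∈ P x j` for all `j ≥ j0`. The codes: there are at most
`(2 ^ #K) ^ (#J * σ β) = 2 ^ #K < κ β ≤ #(Iio (c β))` families `(w j i)`, `j ∈ J`, `i < a j`, of subsets of
`K` (`a_card`, `a_lt_κ`, `sl`, `kc`, `#J ≤ #(Iio β) ≤ σ β`, `#(Iio (a j)) ≤ κ j ≤ σ β`); let `φ` be onto
(put `φ z j i = ∅` for `i ≥ a j`). -/

set_option linter.unusedSectionVars false
set_option linter.unusedVariables false

namespace Pool.Agent.FreeSetsA

universe u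

open Set Cardinal Pool.Agent.KT Pool.Agent.KTM

variable {O P : Type u} [LinearOrder O] [OrderBot O] [WellFoundedLT O] {σ κ : O → Cardinal.{u}}
  {a c τ : O → O} {Λ : O}

/-- the codes -/
private theorem S5_code (hS : SysF O P σ κ a c τ Λ) {β : O} (hβ : Lim β) {J : Set O}
    (hJ : CofIn J β) :
    ∃ g : Iio (c β) → ((Σ j : J, Iio (a j.1)) → Set (Iio (a β))), Function.Surjective g := by
  have hb := hβ.1
  have hσ := hS.σ_inf hb
  have hJc : #J ≤ σ β := (mk_le_mk_of_subset (fun j hj => hJ.1 j hj)).trans (hS.seg_le β hb)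
  have hs : #(Σ j : J, Iio (a j.1)) ≤ σ β := by
    rw [mk_sigma]
    calc Cardinal.sum (fun j : J => #(Iio (a j.1)))
        ≤ Cardinal.sum (fun _ : J => σ β) :=
          Cardinal.sum_le_sum _ _ fun j => (hS.a_le j.1).trans (hS.κ_le j.1 β (hJ.1 j.1 j.2))
      _ = #J * σ β := by rw [Cardinal.sum_const']
      _ ≤ σ β * σ β := mul_le_mul' hJc le_rfl
      _ = σ β := mul_eq_self hσ
  have hK : σ β ≤ #(Iio (a β)) := (hS.a_card β hb).le
  have h1 : #((Σ j : J, Iio (a j.1)) → Set (Iio (a β))) ≤ 2 ^ #(Iio (a β)) := by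
    rw [← power_def, mk_set, ← power_mul]
    refine Cardinal.power_le_power_left two_ne_zero ?_
    calc #(Iio (a β)) * #(Σ j : J, Iio (a j.1)) ≤ #(Iio (a β)) * #(Iio (a β)) :=
          mul_le_mul' le_rfl (hs.trans hK)
      _ = #(Iio (a β)) := mul_eq_self (hσ.trans hK)
  have h2 : #((Σ j : J, Iio (a j.1)) → Set (Iio (a β))) ≤ #(Iio (c β)) :=
    h1.trans ((hS.sl β _ (hS.a_lt_κ β hb)).le.trans (hS.kc β hb))
  obtain ⟨f⟩ := Cardinal.le_def _ _ |>.1 h2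
  exact ⟨Function.invFun f, Function.invFun_surjective f.injective⟩

theorem SysF.exists_gr (hS : SysF O P σ κ a c τ Λ) {β : O} (hβ : Lim β) {J : Set O}
    (hJ : CofIn J β) : ∃ (A : (Iio (a β) → Iio (c β)) → Iio (a β) → J → Set (Iio (a β)))
      (φ : Iio (c β) → J → O → Set (Iio (a β))), Gr κ a c β J A φ := by
  classical
  have hb := hβ.1
  obtain ⟨g, hg⟩ := S5_code hS hβ hJ
  have hinj : ∀ x : Iio (a β), ∃ h : Iio x → Iio (τ β), Function.Injective h := by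
    intro x
    have h1 : #(Iio x) ≤ #(Iio x.1) := by
      apply mk_le_of_injective (f := fun y : Iio x => (⟨y.1.1, y.2⟩ : Iio x.1))
      intro y z hyz
      exact Subtype.ext (Subtype.ext (congrArg (fun t : Iio x.1 => t.1) hyz))
    have h2 : #(Iio x) ≤ #(Iio (τ β)) :=
      h1.trans ((hS.seg_a β hb x.1 x.2).trans (hS.τ_card β hβ))
    obtain ⟨f⟩ := Cardinal.le_def _ _ |>.1 h2
    exact ⟨f, f.injective⟩
  choose h hh using hinj
  let φ : Iio (c β) → J → O → Set (Iio (a β)) := fun z j i =>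
    if hi : i < a j.1 then g z ⟨j, ⟨i, hi⟩⟩ else ∅
  obtain ⟨A, h1, h2, -, h4, h5⟩ := exists_sets (K := Iio (a β)) (C := Iio (c β)) (J := J) (O := O)
    (fun j => κ j.1) (fun j => hS.inf j.1)
    (fun x j => {ξ | ∃ hξ : ξ < x, (h x ⟨ξ, hξ⟩).1 < a j.1})
    (fun x j ξ hξ => hξ.1)
    (fun x j => by
      refine le_trans ?_ (hS.a_le j.1)
      apply mk_le_of_injective (f := fun ξ : {ξ | ∃ hξ : ξ < x, (h x ⟨ξ, hξ⟩).1 < a j.1} =>
        (⟨(h x ⟨ξ.1, ξ.2.1⟩).1, ξ.2.2⟩ : Iio (a j.1)))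
      intro ξ η hξη
      have e1 : (h x ⟨ξ.1, ξ.2.1⟩).1 = (h x ⟨η.1, η.2.1⟩).1 :=
        congrArg (fun t : Iio (a j.1) => t.1) hξη
      have e2 := hh x (Subtype.ext e1)
      exact Subtype.ext (congrArg (fun t : Iio x => t.1) e2))
    (fun j => Iio (a j.1)) (fun j => hS.a_le j.1) φ
  refine ⟨A, φ, h1, h2, h4, ?_, ?_⟩
  · intro w
    obtain ⟨z, hz⟩ := hg (fun p => w p.1 p.2.1)
    refine ⟨z, fun j i hi => ?_⟩
    show (if hi : i < a j.1 then g z ⟨j, ⟨i, hi⟩⟩ else ∅) = w j i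
    rw [dif_pos hi, hz]
  · intro s x ξ hξ
    obtain ⟨γ, hγ, hγ2⟩ := (hS.τ_lt β hb (h x ⟨ξ, hξ⟩).1).1 (h x ⟨ξ, hξ⟩).2
    obtain ⟨j0, hj0, hγj⟩ := hJ.2 γ hγ
    refine ⟨⟨j0, hj0⟩, fun j hj i hi hc => ?_⟩
    have hlt : (h x ⟨ξ, hξ⟩).1 < a j.1 := by
      refine hγ2.trans (hS.a_lt (lt_of_lt_of_le hγj ?_))
      exact hj
    exact h5 s x j ξ ⟨hξ, hlt⟩ i hi hc

end Pool.Agent.FreeSetsA
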