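import Pool.Agent.Lib_MP_38e082_all.I1
import Pool.Agent.Lib_MP_38e082_all.C1
import Pool.Agent.Lib_MP_38e082_all.S5
import Pool.Agent.Lib_MP_38e082_all.H1
import Pool.Agent.Lib_MP_38e082_all.H2
import Pool.Agent.Lib_MP_38e082_all.H3
import Pool.Agent.Lib_MP_bf47cd.V09l

/-!
# H26-I2: the interface

`exists_mapping`: `J`, `γ0` from `exists_level`; `A`, `φ` from `exists_gr`; `Φ` from `exists_phi` for
`F = Fs A` (`loc` from `hG.loc`); `HitP` from `hit` (`#J ≤ κ γ0` since `#J ≤ 2 ^ #(J × J)`, e.g. `J` embeds in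
`J × J`). Let `w ≤ δ < τ β`, `CofP f q`, `FreeP Φ S q`. Claim: `γ0 ≠ ⊥ → a γ0 ≤ δ`. Otherwise `cofP_cover` for
`γ0` gives `X` cofinal in `τ β` with `#X ≤ σ γ0`; choose for each `x ∈ X` some `g x < β` with `x < a (g x)`
(`τ_lt`): the set of the `g x` is cofinal in `β` (for `γ < β` apply the property of `X` to
`a γ < τ β`: `a γ ≤ x < a (g x)`, so `γ < g x` by `a_mono`), so `#J ≤ σ γ0`, against `exists_level`.
Now `free` gives `q' ≤ q`, `Z`, `#Z ≤ κ γ0`. If `γ0 ≠ ⊥`: an injection `Z → Iio (c γ0)` (`kc`), the inverse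
`Iio (c γ0) → Iio (a γ0)` of the generic surjection (`hS.toSysG.exists_surj`, `c_pos`, `exists_inverse` in
D02), and the inclusion `Iio (a γ0) → Iio δ` (`exists_PF_post` in V09l, `PF.pre`). If `γ0 = ⊥`: an injection
`Z → Iio Λ` (`Λ_card`), `hlow`, and the inclusion `Iio w → Iio δ`. -/

set_option linter.unusedSectionVars false
set_option linter.unusedVariables false

namespace Pool.Agent.FreeSetsA

universe u

open Set Cardinal Pool.Agent.KT Pool.Agent.KTM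

variable {O P : Type u} [LinearOrder O] [OrderBot O] [WellFoundedLT O] [Preorder P]
  {σ κ : O → Cardinal.{u}} {a c τ : O → O} {Λ w : O}

/-- composition of an injection in the extension with ground model injections -/
private theorem I2_comp {T A B C D : Type u} [Preorder T] {J : PF T B C} (hJ : ∀ q, InjP J q)
    {e : A → B} (he : Function.Injective e) {i : C → D} (hi : Function.Injective i) :
    ∃ J' : PF T A D, ∀ q, InjP J' q := by
  obtain ⟨J', hJ'⟩ := exists_PF_post (PF.pre J e) i hi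
  refine ⟨J', fun q x x' d r hr h1 h2 => ?_⟩
  obtain ⟨y, hy, h3⟩ := (hJ' _ _ _).1 h1
  obtain ⟨y', hy', h4⟩ := (hJ' _ _ _).1 h2
  have h5 : y' = y := hi (hy'.trans hy.symm)
  subst h5
  exact he (hJ q _ _ _ r hr h3 h4)

private theorem I2_level {O P : Type u} [LinearOrder O] [OrderBot O] [WellFoundedLT O]
    [Preorder P] {σ κ : O → Cardinal.{u}} {a c τ : O → O} {Λ : O}
    (hS : SysF O P σ κ a c τ Λ) {β γ0 : O} (hβ : Lim β) {J : Set O}
    (hmin : ∀ X : Set O, CofIn X β → #J ≤ #X) (hσ : γ0 ≠ ⊥ → σ γ0 < #J) {δ : O}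
    (f : PF (P × EE a c univ) (Iio δ) (Iio (τ β))) (q : P × EE a c univ) (hf : CofP f q)
    (h0 : γ0 ≠ ⊥) : a γ0 ≤ δ := by
  by_contra hc
  obtain ⟨X, hX, hX1, hX2⟩ := hS.cofP_cover h0 (not_le.1 hc) f q hf
  have hex : ∀ x : X, ∃ g : O, g < β ∧ x.1 < a g := fun x => by
    obtain ⟨g, h1, h2⟩ := (hS.τ_lt β hβ.1 x.1).1 (hX1 x.1 x.2)
    exact ⟨g, h1, h2⟩
  choose g hg1 hg2 using hex
  have hcof : CofIn (Set.range g) β := by
    refine ⟨?_, fun γ hγ => ?_⟩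
    · rintro _ ⟨x, rfl⟩
      exact hg1 x
    · obtain ⟨y, hy, hy2⟩ := hX2 (a γ) (hS.a_lt_τ hβ hγ)
      exact ⟨g ⟨y, hy⟩, ⟨_, rfl⟩, hS.a_mono.lt_iff_lt.1 (hy2.trans_lt (hg2 ⟨y, hy⟩))⟩
  have h1 := hmin _ hcof
  have h2 : #(Set.range g) ≤ #X := mk_range_le
  exact absurd ((hσ h0).trans_le (h1.trans (h2.trans hX))) (lt_irrefl _)

theorem SysF.exists_mapping (hS : SysF O P σ κ a c τ Λ)
    (hlow : ∃ J : PF (P × EE a c univ) (Iio Λ) (Iio w), ∀ q, InjP J q) {θ : Cardinal.{u}}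
    (hθ : NoInacc θ) {β : O} (hβ : Lim β) (hτ : #(Iio (τ β)) < θ) :
    ∃ Φ : PF (P × EE a c univ) (Iio (a β)) (Set (Iio (a β))),
      (∀ x X r, Φ.val x X r → ∀ y ∈ X, y < x) ∧ HitP (Iio (τ β)) Φ ∧
      ∀ δ, w ≤ δ → δ < τ β → ∀ (f : PF (P × EE a c univ) (Iio δ) (Iio (τ β)))
        (q : P × EE a c univ), CofP f q →
        ∀ S : PF (P × EE a c univ) (Iio (a β)) (ULift.{u} Bool), FreeP Φ S q →
          ∃ q' ≤ q, ∃ Z : Set (Iio (a β)), (∀ r ≤ q', ∀ x, S.val x ⟨true⟩ r → x ∈ Z) ∧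
            ∃ J : PF (P × EE a c univ) Z (Iio δ), ∀ q, InjP J q := by
  obtain ⟨J, γ0, hJ, hmin, hJJ, hγ0, hσ⟩ := hS.exists_level hβ hθ hτ
  obtain ⟨A, φ, hG⟩ := hS.exists_gr hβ hJ
  obtain ⟨Φ, hΦ⟩ := hS.exists_phi (P := P) hβ.1 (Fs A)
    (fun s s' x h => by unfold Fs; rw [hG.loc s s' x h]) (fun s x y hy => hy.1)
  have hJc : #J ≤ κ γ0 := by
    refine (le_trans ?_ (cantor #(J × J)).le).trans hJJ.le
    exact mk_le_of_injective (f := fun x : J => ((x, x) : J × J)) fun x y h =>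
      congrArg Prod.fst h
  refine ⟨Φ, hΦ.sub, hS.hit hβ hγ0 hJ hJc hG hΦ, ?_⟩
  intro δ hwδ hδ f q hf S hfree
  obtain ⟨q', hq', Z, hZ, hZ2⟩ := hS.free hβ hγ0 hJJ hG hΦ S q hfree
  refine ⟨q', hq', Z, hZ2, ?_⟩
  by_cases h0 : γ0 = ⊥
  · subst h0
    rw [← hS.Λ_card] at hZ
    obtain ⟨e⟩ := (Cardinal.le_def _ _).1 hZ
    obtain ⟨J1, hJ1⟩ := hlow
    exact I2_comp hJ1 e.injective
      (Set.inclusion_injective (Set.Iio_subset_Iio hwδ))
  · obtain ⟨e⟩ := (Cardinal.le_def _ _).1 (hZ.trans (hS.kc γ0 h0))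
    obtain ⟨g, hg⟩ := hS.toSysG.exists_surj h0 (hS.c_pos h0)
    obtain ⟨J1, hJ1⟩ := exists_inverse hg
    exact I2_comp hJ1 e.injective
      (Set.inclusion_injective (Set.Iio_subset_Iio (I2_level hS hβ hmin hσ f q hf h0)))

theorem SysF.fiface (hS : SysF O P σ κ a c τ Λ) (hw : w < Λ)
    (hlow : ∃ J : PF (P × EE a c univ) (Iio Λ) (Iio w), ∀ q, InjP J q) {θ : Cardinal.{u}}
    (hθ : NoInacc θ) : FIface (P × EE a c univ) O a τ Λ w θ where
  low := hlow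
  high α hα := hS.cov α hα.le
  w_lt := hw
  Λ_le β hβ := hS.Λ_le hβ
  τ_lt β hβ := hS.τ_lt_a hβ
  inj β hβ x hx := hS.toSysG.exists_inj hβ hx
  noInj β hβ x hx J q hJ := hS.noInj hβ J q hJ univ
    (by rw [mk_univ]; exact hS.seg_a β hβ x hx) (hS.a_card β hβ) fun _ _ _ _ _ => mem_univ _
  reg β hβ := hS.reg hβ
  map β hβ hτ := hS.exists_mapping hlow hθ hβ hτ

end Pool.Agent.FreeSetsA
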