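import Pool.Agent.Lib_MP_38e082_all.MDefs

/-!
# H26-M1: `sfN Φ` names a set mapping

Elements of `sfN Φ` are pairs (`isPair_of_mem_mk`), the first coordinate is in `check b`
(`E_rep_check`, `hF.decC`). Existence of a value at `x = check ξ`: `Frc (∃ v, Val ..)` is dense
(`true_of_dense`, `frc_full`, `Φ.total`, see `exists_val_rep` in C03). Uniqueness: two values
`Φ.val ξ X (𝔊.G n)`, `Φ.val ξ X' (𝔊.G m)` are equal at `max n m` (`Φ.uniq`). `f(x) ⊆ x`: elements of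
`checkSet (Subtype.val '' X)` are `check y`, `y ∈ X` (`E_rep_checkSet`), `y < ξ` by `hΦ`. -/

set_option linter.unusedSectionVars false
set_option linter.unusedVariables false

namespace Pool.Agent.FreeSetsA

universe u

open Pool.Agent.Forcing Pool.Agent.Forcing.Name Pool.Agent.Inner Set Cardinal Pool.Agent.KT
  Pool.Agent.KTM
open Pool.Agent.FreeSets (IsCofinalMap IsSetMapping IsFree IsInter)

variable {T O : Type u} [Preorder T] [OrderTop T] [LinearOrder O] [WellFoundedLT O]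

private lemma M1_exists_val {𝔊 : Gen T} (hF : Full O 𝔊) {b : O}
    {Φ : PF T (Iio b) (Set (Iio b))} (h : sfN Φ ∈ 𝔊.N) (ξ : Iio b) {x : 𝔊.M}
    (hx : Rep 𝔊 x (check ξ.1)) : ∃ y, Val 𝔊.E (𝔊.cls ⟨sfN Φ, h⟩) x y := by
  have hfo : FO.{u+1} (fun _ E v => ∃ w, Val E (v 0) (v 1) w) := FO.ex (FO.val _ _ _)
  have h1 : Frc (fun _ E v => ∃ w, Val E (v 0) (v 1) w)
      (ev omegaName [sfN Φ, check ξ.1]) (𝔊.G 0) := by
    refine Frc.dense hfo fun q hq => ?_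
    obtain ⟨r, hr, X, hX⟩ := Φ.total ξ q
    refine ⟨r, hr, ?_⟩
    refine frc_full O hfo _ _ {checkSet (Subtype.val '' X)} (by simp) ?_
    intro 𝔊' hF' h0 hSN hl
    have hXN := hl (sfN Φ) (by simp)
    have haN := hl (check ξ.1) (by simp)
    have hbN : checkSet (Subtype.val '' X) ∈ 𝔊'.N := hSN (by simp)
    refine ⟨𝔊'.cls ⟨_, hbN⟩, ?_⟩
    change Val 𝔊'.E (𝔊'.cls ⟨_, hXN⟩) (𝔊'.cls ⟨_, haN⟩) (𝔊'.cls ⟨_, hbN⟩)
    exact (val_sfN hF'.rich hXN).2 ⟨ξ, X, 0, rep_self haN, rep_self hbN, Φ.mono ξ X _ _ h0 hX⟩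
  exact (c03_truth hfo hF (l := [𝔊.cls ⟨sfN Φ, h⟩, x]) (l' := [sfN Φ, check ξ.1])
    (.cons (rep_self h) (.cons hx .nil))).2 ⟨0, h1⟩

theorem isSetMapping_sfN {𝔊 : Gen T} (hF : Full O 𝔊) {b : O} {Φ : PF T (Iio b) (Set (Iio b))}
    (hΦ : ∀ x X r, Φ.val x X r → ∀ y ∈ X, y < x) (h : sfN Φ ∈ 𝔊.N) {k : 𝔊.M}
    (hk : Rep 𝔊 k (check b)) : IsSetMapping 𝔊.E (𝔊.cls ⟨sfN Φ, h⟩) k := by
  refine ⟨?_, ?_, ?_⟩
  · intro z hz
    obtain ⟨x, y, h1, h2⟩ := isPair_of_mem_mk hF.rich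
      (A := fun t : {t : Iio b × Set (Iio b) × T // Φ.val t.1 t.2.1 t.2.2} =>
        (check t.1.1.1 : Name T))
      (B := fun t => checkSet (Subtype.val '' t.1.2.1)) (c := fun t => t.1.2.2) h hz
    obtain ⟨ξ, X, n, h3, _, _⟩ := (val_sfN hF.rich h).1 h2
    exact ⟨x, y, (E_rep_check hF.decC hk).2 ⟨ξ.1, ξ.2, h3⟩, h1⟩
  · intro x hx
    obtain ⟨w, hw, hxw⟩ := (E_rep_check hF.decC hk).1 hx
    obtain ⟨y, hy⟩ := M1_exists_val hF h ⟨w, hw⟩ hxw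
    refine ⟨y, hy, fun y' hy' => ?_⟩
    obtain ⟨ξ, X, n, h1, h2, h3⟩ := (val_sfN hF.rich h).1 hy
    obtain ⟨ξ', X', m, h1', h2', h3'⟩ := (val_sfN hF.rich h).1 hy'
    have e : ξ = ξ' := Subtype.ext (h1.check_inj h1')
    subst e
    have e : X = X' := Φ.uniq ξ X X' (𝔊.G (max n m)) (Φ.mono ξ X _ _ (𝔊.anti (by omega)) h3)
      (Φ.mono ξ X' _ _ (𝔊.anti (by omega)) h3')
    subst e
    exact h2'.unique h2
  · intro x y hx hy z hz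
    obtain ⟨ξ, X, n, h1, h2, h3⟩ := (val_sfN hF.rich h).1 hy
    obtain ⟨_, ⟨η, hη, rfl⟩, hzη⟩ := (E_rep_checkSet hF.decC h2).1 hz
    exact (E_rep_check hF.decC h1).2 ⟨η.1, hΦ ξ X _ h3 η hη, hzη⟩

end Pool.Agent.FreeSetsA
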