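import Pool.Agent.Lib_MP_38e082_all.MDefs

/-!
# H26-M2: intersections are small

`i` is a function from `k` to `k` and `e` a function from `l` to `k` (as `X ⊆ k` and `I ⊆ k` by
`IsInter`), so there are `i' : PF T (Iio b) (Iio b)`, `e' : PF T (Iio l0) (Iio b)` with `Rep 𝔊 i (pfN ..)`,
`Rep 𝔊 e (pfN ..)` (`exists_rep_fun` in C03 with `eA = Subtype.val`, `range eA = Iio b`, `check_eq`, `hb`), and by `inj_iff` some
`𝔊.G n` forces that `i'`, `e'` are injective. Let `n` be so large that `𝔊.G n` forces (`truth_list`) the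
statement `Bad`: `Sub X k ∧ IsInj i k X ∧ IsInter f k X I ∧ IsInj e l I` of the names of `X`, `i`, `I`, `e`,
`k`, `l` and `sfN Φ`, and `feq` of the names of `i`, `e`, `k`, `l` with `pfN ..`, `check b`, `check l0`. `hit`
gives `r ≤ 𝔊.G n`, `ξ`, `x`, `η`, `y`, `Y`. Take a full model `𝔊'` with `𝔊'.G 0 = r` containing all these
names, `check x`, `check y`, `check ξ`, `check η`, `checkSet (Subtype.val '' Y)`, `pfN ..`. In it `Bad` is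
true; `i(ξ) = x` (`val_rep`), so `x ∈ X`; `e(η) = y`, so `y ∈ I`; `f(x) = checkSet Y` (`val_sfN`), so `y` is an
element of `checkSet (Subtype.val '' Y)` by `IsInter`: `y ∈ Y` (`E_checkSet`, `Rep.check_inj`), a
contradiction. Compare `not_bad` in `Lib_MP_38e082_gen/Hit.lean`. -/

set_option linter.unusedSectionVars false
set_option linter.unusedVariables false

namespace Pool.Agent.FreeSetsA

universe u

open Pool.Agent.Forcing Pool.Agent.Forcing.Name Pool.Agent.Inner Set Cardinal Pool.Agent.KT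
  Pool.Agent.KTM
open Pool.Agent.FreeSets (IsCofinalMap IsSetMapping IsFree IsInter)

variable {T O : Type u} [Preorder T] [OrderTop T] [LinearOrder O] [WellFoundedLT O]

/-- the statement `Bad`: `v 0 = X`, `v 1 = i`, `v 2 = I`, `v 3 = e`, `v 4 = k`, `v 5 = f`,
`v 6 = l` -/
private abbrev M2_Bad : Fam.{u+1} := fun _ E v => Sub E (v 0) (v 4) ∧ IsInj E (v 1) (v 4) (v 0) ∧
  IsInter E (v 5) (v 4) (v 0) (v 2) ∧ IsInj E (v 3) (v 6) (v 2)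

private lemma M2_fo : FO M2_Bad.{u} :=
  FO.and (FO.sub _ _) (FO.and (FOx.isInj _ _ _) (FO.and (FOA.isInter _ _ _ _) (FOx.isInj _ _ _)))

private lemma M2_mono {A B : Type u} {J : PF T A B} {q r : T} (h : InjP J q) (hr : r ≤ q) :
    InjP J r := fun a a' b s hs h1 h2 => h a a' b s (hs.trans hr) h1 h2

/-- codomains can be enlarged -/
private lemma M2_fun {M : Type*} {E : M → M → Prop} {f a b b' : M} (h : IsFun E f a b)
    (hb : Sub E b b') : IsFun E f a b' := by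
  refine ⟨fun z hz => ?_, fun x hx => ?_⟩
  · obtain ⟨x, y, hx, hy, hxy⟩ := h.1 z hz
    exact ⟨x, y, hx, hb y hy, hxy⟩
  · exact h.2 x hx

private lemma M2_range {b : O} {𝔊 : Gen T} {k : 𝔊.M} (hk : Rep 𝔊 k (check b)) :
    Rep 𝔊 k (checkSet (range (Subtype.val : Iio b → O))) := by
  rw [Subtype.range_coe, ← check_eq]
  exact hk

theorem inter_small {𝔊 : Gen T} (hF : Full O 𝔊) {b l0 : O} (hb : Nonempty (Iio b))
    {Φ : PF T (Iio b) (Set (Iio b))} (hit : HitP (Iio l0) Φ) (h : sfN Φ ∈ 𝔊.N)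
    {k l X i I e : 𝔊.M} (hk : Rep 𝔊 k (check b)) (hl : Rep 𝔊 l (check l0))
    (hX : Sub 𝔊.E X k) (hi : IsInj 𝔊.E i k X)
    (hI : IsInter 𝔊.E (𝔊.cls ⟨sfN Φ, h⟩) k X I) : ¬ IsInj 𝔊.E e l I := by
  intro he
  have hIk : Sub 𝔊.E I k := fun t ht => ((hI t).1 ht).1
  have hvb : Function.Injective (Subtype.val : Iio b → O) := Subtype.val_injective
  have hvl : Function.Injective (Subtype.val : Iio l0 → O) := Subtype.val_injective
  obtain ⟨i', hi'⟩ := exists_rep_fun hvb hvb hF (M2_fun hi.1 hX) (M2_range hk) (M2_range hk)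
  obtain ⟨e', he'⟩ := exists_rep_fun hvl hvb hF (M2_fun he.1 hIk) (M2_range hl) (M2_range hk)
  obtain ⟨n1, hn1⟩ := (inj_iff hvb hvb hF hi').1 hi.2
  obtain ⟨n2, hn2⟩ := (inj_iff hvl hvb hF he').1 he.2
  obtain ⟨X', hX'⟩ := 𝔊.exists_rep X
  obtain ⟨I', hI'⟩ := 𝔊.exists_rep I
  have hXr : Rep 𝔊 X X'.1 := by rw [← hX']; exact rep_self X'.2
  have hIr : Rep 𝔊 I I'.1 := by rw [← hI']; exact rep_self I'.2
  obtain ⟨n3, hn3⟩ := (c03_truth M2_fo hF (l := [X, i, I, e, k, 𝔊.cls ⟨sfN Φ, h⟩, l])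
    (l' := [X'.1, pfN Subtype.val Subtype.val i', I'.1, pfN Subtype.val Subtype.val e',
      check b, sfN Φ, check l0])
    (.cons hXr (.cons hi' (.cons hIr (.cons he' (.cons hk (.cons (rep_self h)
      (.cons hl .nil)))))))).1 ⟨hX, hi, hI, he⟩
  obtain ⟨r, hr, ξ, x, η, y, Y, h1, h2, h3, h4⟩ := hit (𝔊.G (max n1 (max n2 n3))) i' e'
    (M2_mono hn1 (𝔊.anti (by omega))) (M2_mono hn2 (𝔊.anti (by omega)))
  obtain ⟨𝔊', hF', h0, hS⟩ := exists_full O ({X'.1, I'.1,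
    pfN Subtype.val Subtype.val i', pfN Subtype.val Subtype.val e', check b, sfN Φ, check l0,
    check ξ.1, check x.1, check η.1, check y.1, checkSet (Subtype.val '' Y)} : Set (Name T))
    (by simp) r
  subst h0
  have hXN : X'.1 ∈ 𝔊'.N := hS (by simp)
  have hIN : I'.1 ∈ 𝔊'.N := hS (by simp)
  have hiN : pfN Subtype.val Subtype.val i' ∈ 𝔊'.N := hS (by simp)
  have heN : pfN Subtype.val Subtype.val e' ∈ 𝔊'.N := hS (by simp)
  have hbN : check b ∈ 𝔊'.N := hS (by simp)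
  have hfN : sfN Φ ∈ 𝔊'.N := hS (by simp)
  have hlN : check l0 ∈ 𝔊'.N := hS (by simp)
  have hξN : check ξ.1 ∈ 𝔊'.N := hS (by simp)
  have hxN : check x.1 ∈ 𝔊'.N := hS (by simp)
  have hηN : check η.1 ∈ 𝔊'.N := hS (by simp)
  have hyN : check y.1 ∈ 𝔊'.N := hS (by simp)
  have hYN : checkSet (Subtype.val '' Y) ∈ 𝔊'.N := hS (by simp)
  obtain ⟨_, t2, t3, t4⟩ := (c03_truth M2_fo hF' (l := [𝔊'.cls ⟨_, hXN⟩, 𝔊'.cls ⟨_, hiN⟩,
      𝔊'.cls ⟨_, hIN⟩, 𝔊'.cls ⟨_, heN⟩, 𝔊'.cls ⟨_, hbN⟩, 𝔊'.cls ⟨_, hfN⟩, 𝔊'.cls ⟨_, hlN⟩])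
    (l' := [X'.1, pfN Subtype.val Subtype.val i', I'.1, pfN Subtype.val Subtype.val e',
      check b, sfN Φ, check l0])
    (.cons (rep_self hXN) (.cons (rep_self hiN) (.cons (rep_self hIN) (.cons (rep_self heN)
      (.cons (rep_self hbN) (.cons (rep_self hfN) (.cons (rep_self hlN) .nil)))))))).2
      ⟨0, hn3.mono (hr.trans (𝔊.anti (by omega)))⟩
  have s2 : IsInj 𝔊'.E (𝔊'.cls ⟨_, hiN⟩) (𝔊'.cls ⟨_, hbN⟩) (𝔊'.cls ⟨_, hXN⟩) := t2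
  have s3 : IsInter 𝔊'.E (𝔊'.cls ⟨_, hfN⟩) (𝔊'.cls ⟨_, hbN⟩) (𝔊'.cls ⟨_, hXN⟩)
    (𝔊'.cls ⟨_, hIN⟩) := t3
  have s4 : IsInj 𝔊'.E (𝔊'.cls ⟨_, heN⟩) (𝔊'.cls ⟨_, hlN⟩) (𝔊'.cls ⟨_, hIN⟩) := t4
  have v1 : Val 𝔊'.E (𝔊'.cls ⟨_, hiN⟩) (𝔊'.cls ⟨_, hξN⟩) (𝔊'.cls ⟨_, hxN⟩) :=
    (val_rep hvb hvb hF' (rep_self hiN)).2 ⟨ξ, x, 0, rep_self hξN, rep_self hxN, h1⟩
  have v2 : Val 𝔊'.E (𝔊'.cls ⟨_, heN⟩) (𝔊'.cls ⟨_, hηN⟩) (𝔊'.cls ⟨_, hyN⟩) :=
    (val_rep hvl hvb hF' (rep_self heN)).2 ⟨η, y, 0, rep_self hηN, rep_self hyN, h2⟩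
  have v3 : Val 𝔊'.E (𝔊'.cls ⟨_, hfN⟩) (𝔊'.cls ⟨_, hxN⟩) (𝔊'.cls ⟨_, hYN⟩) :=
    (val_sfN hF'.rich hfN).2 ⟨x, Y, 0, rep_self hxN, rep_self hYN, h3⟩
  have m1 := (isFun_mem hF'.rich.zfc s2.1 v1).2
  have m2 := (isFun_mem hF'.rich.zfc s4.1 v2).2
  have m3 := ((s3 _).1 m2).2 _ _ m1 v3
  obtain ⟨z, ⟨y', hy', rfl⟩, hz⟩ := (E_checkSet hF'.rich hYN).1 m3
  have e1 : y.1 = y'.1 := (rep_self hyN).check_inj hz
  exact h4 (by rw [Subtype.ext e1]; exact hy')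

end Pool.Agent.FreeSetsA
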