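import Pool.Agent.Lib_MP_38e082_all.MDefs

/-!
# H26-M3: free sets are small

`exists_rep_sub` (C03) gives `S` with `Rep 𝔊 H (subN Subtype.val S)`. Let `𝔊.G n`, `n ≥ n0`, force
`Sub H k ∧ IsFree (sfN Φ) H` and `feq` of the name of `H` with `subN ..`. Then `FreeP Φ S q` for all
`q ≤ 𝔊.G n`: let `r ≤ q`, `x ≠ y`, `S.val x ⟨true⟩ r`, `S.val y ⟨true⟩ r`, `Φ.val x X r`; in a full model `𝔊'` with
`𝔊'.G 0 = r` containing `check x`, `check y`, `checkSet (Subtype.val '' X)`: `x, y ∈ H` (`E_rep_subN`),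
`f(x) = checkSet ..` (`val_sfN`), so `y ∉ X`. By `hfree` and density (`true_of_dense`) it is enough that
some `q' ≤ q` forces `∃ j, IsInj j H m` if there are `Z`, `J` as in `hfree`: in a full model below `q'` the
name `pfN (fun z : Z => z.1.1) Subtype.val J` gives an injection from `checkSet` of `Z` to `check δ` (see
`exists_inj_rep` in C07, `isFun_rep`, `inj_iff`), and `H ⊆ Z`; restrict it to `H` (`exists_res` in C03z).
Compare `frc_small` in `Lib_MP_38e082_gen/Free.lean`. -/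

set_option linter.unusedSectionVars false
set_option linter.unusedVariables false

namespace Pool.Agent.FreeSetsA

universe u

open Pool.Agent.Forcing Pool.Agent.Forcing.Name Pool.Agent.Inner Set Cardinal Pool.Agent.KT
  Pool.Agent.KTM
open Pool.Agent.FreeSets (IsCofinalMap IsSetMapping IsFree IsInter)

variable {T O : Type u} [Preorder T] [OrderTop T] [LinearOrder O] [WellFoundedLT O]

/-- freeness is forced -/
private lemma M3_freeP {b : O} {Φ : PF T (Iio b) (Set (Iio b))}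
    {S : PF T (Iio b) (ULift.{u} Bool)} {p : T}
    (hp : Frc (fun _ E v => IsFree E (v 0) (v 1))
      (ev omegaName [sfN Φ, subN (Subtype.val : Iio b → O) S]) p) : FreeP Φ S p := by
  intro r hr x y X hxy hx hy hX hyX
  obtain ⟨𝔊', hF', h0, hSN⟩ := exists_full O ({sfN Φ, subN (Subtype.val : Iio b → O) S,
    check x.1, check y.1, checkSet (Subtype.val '' X)} : Set (Name T)) (by simp) r
  subst h0
  have hfN : sfN Φ ∈ 𝔊'.N := hSN (by simp)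
  have hsN : subN (Subtype.val : Iio b → O) S ∈ 𝔊'.N := hSN (by simp)
  have hxN : check x.1 ∈ 𝔊'.N := hSN (by simp)
  have hyN : check y.1 ∈ 𝔊'.N := hSN (by simp)
  have hXN : checkSet (Subtype.val '' X) ∈ 𝔊'.N := hSN (by simp)
  have h1 : IsFree 𝔊'.E (𝔊'.cls ⟨_, hfN⟩) (𝔊'.cls ⟨_, hsN⟩) :=
    (c03_truth (FOA.isFree 0 1) hF' (l := [𝔊'.cls ⟨_, hfN⟩, 𝔊'.cls ⟨_, hsN⟩])
      (l' := [sfN Φ, subN (Subtype.val : Iio b → O) S])
      (.cons (rep_self hfN) (.cons (rep_self hsN) .nil))).2 ⟨0, hp.mono hr⟩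
  refine h1 (𝔊'.cls ⟨_, hxN⟩) (𝔊'.cls ⟨_, hyN⟩) (𝔊'.cls ⟨_, hXN⟩) ?_ ?_ ?_ ?_ ?_
  · exact (E_rep_subN Subtype.val_injective hF' (rep_self hsN)).2 ⟨x, 0, rep_self hxN, hx⟩
  · exact (E_rep_subN Subtype.val_injective hF' (rep_self hsN)).2 ⟨y, 0, rep_self hyN, hy⟩
  · intro e
    have h2 : Rep 𝔊' (𝔊'.cls ⟨_, hxN⟩) (check y.1) := by rw [e]; exact rep_self hyN
    exact hxy (Subtype.ext ((rep_self hxN).check_inj h2))
  · exact (val_sfN hF'.rich hfN).2 ⟨x, X, 0, rep_self hxN, rep_self hXN, hX⟩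
  · exact (E_rep_checkSet hF'.decC (rep_self hXN)).2 ⟨y.1, ⟨y, hyX, rfl⟩, rep_self hyN⟩

/-- an injection is forced -/
private lemma M3_inj {b δ : O} {S : PF T (Iio b) (ULift.{u} Bool)} {q : T} {Z : Set (Iio b)}
    (hZ : ∀ r ≤ q, ∀ x, S.val x ⟨true⟩ r → x ∈ Z) {J : PF T Z (Iio δ)}
    (hJ : ∀ q, InjP J q) :
    Frc (fun _ E v => ∃ j, IsInj E j (v 0) (v 1))
      (ev omegaName [subN (Subtype.val : Iio b → O) S, check δ]) q := by
  have hfo : FO.{u+1} (fun _ E v => ∃ j, IsInj E j (v 0) (v 1)) := FO.ex (FOx.isInj _ _ _)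
  have hA : Function.Injective (fun z : Z => (z.1.1 : O)) := fun z z' h =>
    Subtype.ext (Subtype.ext h)
  have hB : Function.Injective (Subtype.val : Iio δ → O) := Subtype.val_injective
  refine frc_full O hfo _ _ {pfN (fun z : Z => (z.1.1 : O)) (Subtype.val : Iio δ → O) J,
    checkSet (range (fun z : Z => (z.1.1 : O)))} (by simp) ?_
  intro 𝔊' hF' h0 hSN hl
  have hsN := hl (subN (Subtype.val : Iio b → O) S) (by simp)
  have hdN := hl (check δ) (by simp)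
  have hJN : pfN (fun z : Z => (z.1.1 : O)) (Subtype.val : Iio δ → O) J ∈ 𝔊'.N :=
    hSN (by simp)
  have hZN : checkSet (range (fun z : Z => (z.1.1 : O))) ∈ 𝔊'.N := hSN (by simp)
  change ∃ j, IsInj 𝔊'.E j (𝔊'.cls ⟨_, hsN⟩) (𝔊'.cls ⟨_, hdN⟩)
  have hd : Rep 𝔊' (𝔊'.cls ⟨_, hdN⟩) (checkSet (range (Subtype.val : Iio δ → O))) := by
    rw [Subtype.range_val, ← check_eq]
    exact rep_self hdN
  have hfun := isFun_rep hA hB hF' (rep_self hJN) (rep_self hZN) hd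
  have hinj := (inj_iff hA hB hF' (rep_self hJN)).2 ⟨0, hJ _⟩
  have hsub : Sub 𝔊'.E (𝔊'.cls ⟨_, hsN⟩) (𝔊'.cls ⟨_, hZN⟩) := by
    intro u hu
    obtain ⟨a, n, h1, h2⟩ := (E_rep_subN Subtype.val_injective hF' (rep_self hsN)).1 hu
    have h3 : a ∈ Z := hZ _ ((𝔊'.anti (Nat.zero_le n)).trans h0) a h2
    exact (E_rep_checkSet hF'.decC (rep_self hZN)).2 ⟨a.1, ⟨⟨a, h3⟩, rfl⟩, h1⟩
  obtain ⟨g, _, hg, hgv⟩ := exists_res hF'.rich.zfc hfun hsub
  exact ⟨g, hg, fun x x' y h1 h2 => hinj x x' y ((hgv x y).1 h1).2 ((hgv x' y).1 h2).2⟩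

theorem free_small {𝔊 : Gen T} (hF : Full O 𝔊) {b δ : O} {Φ : PF T (Iio b) (Set (Iio b))}
    (h : sfN Φ ∈ 𝔊.N) (n0 : ℕ)
    (hfree : ∀ q ≤ 𝔊.G n0, ∀ S : PF T (Iio b) (ULift.{u} Bool), FreeP Φ S q →
      ∃ q' ≤ q, ∃ Z : Set (Iio b), (∀ r ≤ q', ∀ x, S.val x ⟨true⟩ r → x ∈ Z) ∧
        ∃ J : PF T Z (Iio δ), ∀ q, InjP J q)
    {k m H : 𝔊.M} (hk : Rep 𝔊 k (check b)) (hm : Rep 𝔊 m (check δ)) (hH : Sub 𝔊.E H k)
    (hfr : IsFree 𝔊.E (𝔊.cls ⟨sfN Φ, h⟩) H) : ∃ j, IsInj 𝔊.E j H m := by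
  have hfo : FO.{u+1} (fun _ E v => ∃ j, IsInj E j (v 0) (v 1)) := FO.ex (FOx.isInj _ _ _)
  have hk' : Rep 𝔊 k (checkSet (range (Subtype.val : Iio b → O))) := by
    rw [Subtype.range_val, ← check_eq]
    exact hk
  obtain ⟨S, hS⟩ := exists_rep_sub Subtype.val_injective hF hH hk'
  obtain ⟨n, hn⟩ := (c03_truth (FOA.isFree 0 1) hF (l := [𝔊.cls ⟨sfN Φ, h⟩, H])
    (l' := [sfN Φ, subN (Subtype.val : Iio b → O) S])
    (.cons (rep_self h) (.cons hS .nil))).1 hfr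
  refine (c03_truth hfo hF (l := [H, m]) (l' := [subN (Subtype.val : Iio b → O) S, check δ])
    (.cons hS (.cons hm .nil))).2 ⟨max n n0, Frc.dense hfo fun q hq => ?_⟩
  have hq1 : q ≤ 𝔊.G n := hq.trans (𝔊.anti (le_max_left _ _))
  have hq2 : q ≤ 𝔊.G n0 := hq.trans (𝔊.anti (le_max_right _ _))
  obtain ⟨q', hq', Z, hZ, J, hJ⟩ := hfree q hq2 S (M3_freeP (hn.mono hq1))
  exact ⟨q', hq', M3_inj hZ hJ⟩

end Pool.Agent.FreeSetsA
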