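import Pool.Agent.Lib_MP_38e082_all.MDefs

/-!
# H26-M4: cofinal maps and injections of the model give functions valued in the forcing

`cofP_of_model`: `exists_rep_fun` (C03, `eA = Subtype.val : Iio δ → O`, `eB = Subtype.val : Iio α → O`) gives
`f` with `Rep 𝔊 c (pfN ..)`; let `𝔊.G n` force `IsCofinalMap` of the names (with the names of `m`, `l`
equal to `check δ`, `check α`, and that of `c` to `pfN ..`). Given `x < α` and `r ≤ 𝔊.G n` take a full model
`𝔊'` with `𝔊'.G 0 = r` containing `check x`: there are `u`, `v` with `c(u) = v` and `x = v` or `x ∈ v`;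
`val_rep` gives `y`, `z`, `n'` with `f.val y z (𝔊'.G n')`, and `x ≤ z` (`E_iff_lt`, `Rep.check_inj`).

`injP_of_model`: `exists_rep_fun` and `inj_iff`.

`inj_of_pf`: see `exists_inj_rep` (C07). -/

set_option linter.unusedSectionVars false
set_option linter.unusedVariables false

namespace Pool.Agent.FreeSetsA

universe u

open Pool.Agent.Forcing Pool.Agent.Forcing.Name Pool.Agent.Inner Set Cardinal Pool.Agent.KT
  Pool.Agent.KTM
open Pool.Agent.FreeSets (IsCofinalMap IsSetMapping IsFree IsInter)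

variable {T O : Type u} [Preorder T] [OrderTop T] [LinearOrder O] [OrderBot O] [WellFoundedLT O]

omit [OrderBot O] in
private lemma M4_rep {𝔊 : Gen T} {α : O} {m : 𝔊.M} (hm : Rep 𝔊 m (check α)) :
    Rep 𝔊 m (checkSet (range (Subtype.val : Iio α → O))) := by
  rw [Subtype.range_val, ← check_eq]
  exact hm

theorem cofP_of_model {𝔊 : Gen T} (hF : Full O 𝔊) {δ α : O} (hα : Nonempty (Iio α))
    {m l c : 𝔊.M} (hm : Rep 𝔊 m (check δ)) (hl : Rep 𝔊 l (check α))
    (hc : IsCofinalMap 𝔊.E c m l) :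
    ∃ (f : PF T (Iio δ) (Iio α)) (n : ℕ), CofP f (𝔊.G n) := by
  have hA : Function.Injective (Subtype.val : Iio δ → O) := Subtype.val_injective
  have hB : Function.Injective (Subtype.val : Iio α → O) := Subtype.val_injective
  obtain ⟨f, hf⟩ := exists_rep_fun hA hB hF hc.1 (M4_rep hm) (M4_rep hl)
  obtain ⟨n, hn⟩ := (c03_truth (FOA.isCofinalMap 0 1 2) hF (l := [c, m, l])
    (l' := [pfN (Subtype.val : Iio δ → O) (Subtype.val : Iio α → O) f, check δ, check α])
    (.cons hf (.cons hm (.cons hl .nil)))).1 hc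
  refine ⟨f, n, ?_⟩
  intro x hx r hr
  obtain ⟨𝔊', hF', h0, hSN⟩ := exists_full O
    ({pfN (Subtype.val : Iio δ → O) (Subtype.val : Iio α → O) f, check δ, check α, check x} :
      Set (Name T)) (by simp) r
  subst h0
  have hfN : pfN (Subtype.val : Iio δ → O) (Subtype.val : Iio α → O) f ∈ 𝔊'.N := hSN (by simp)
  have hδN : (check δ : Name T) ∈ 𝔊'.N := hSN (by simp)
  have hαN : (check α : Name T) ∈ 𝔊'.N := hSN (by simp)
  have hxN : (check x : Name T) ∈ 𝔊'.N := hSN (by simp)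
  have h1 : IsCofinalMap 𝔊'.E (𝔊'.cls ⟨_, hfN⟩) (𝔊'.cls ⟨_, hδN⟩) (𝔊'.cls ⟨_, hαN⟩) :=
    (c03_truth (FOA.isCofinalMap 0 1 2) hF' (l := [𝔊'.cls ⟨_, hfN⟩, 𝔊'.cls ⟨_, hδN⟩,
      𝔊'.cls ⟨_, hαN⟩])
      (l' := [pfN (Subtype.val : Iio δ → O) (Subtype.val : Iio α → O) f, check δ, check α])
      (.cons (rep_self hfN) (.cons (rep_self hδN) (.cons (rep_self hαN) .nil)))).2
      ⟨0, hn.mono hr⟩
  obtain ⟨u, v, huv, hxv⟩ := h1.2 (𝔊'.cls ⟨_, hxN⟩)
    ((E_iff_lt hF'.decC (rep_self hxN) (rep_self hαN)).2 hx)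
  obtain ⟨y, z, k, hy, hz, hval⟩ := (val_rep hA hB hF' (rep_self hfN)).1 huv
  refine ⟨𝔊'.G k, 𝔊'.anti (Nat.zero_le _), y, z, hval, ?_⟩
  rcases hxv with h | h
  · have h2 : Rep 𝔊' v (check x) := by
      rw [← h]
      exact rep_self hxN
    exact (h2.check_inj hz).le
  · exact ((E_iff_lt hF'.decC (rep_self hxN) hz).1 h).le

theorem injP_of_model {𝔊 : Gen T} (hF : Full O 𝔊) {δ α : O} (hα : Nonempty (Iio α))
    {x y i : 𝔊.M} (hx : Rep 𝔊 x (check δ)) (hy : Rep 𝔊 y (check α)) (hi : IsInj 𝔊.E i x y) :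
    ∃ (J : PF T (Iio δ) (Iio α)) (n : ℕ), InjP J (𝔊.G n) := by
  have hA : Function.Injective (Subtype.val : Iio δ → O) := Subtype.val_injective
  have hB : Function.Injective (Subtype.val : Iio α → O) := Subtype.val_injective
  obtain ⟨J, hJ⟩ := exists_rep_fun hA hB hF hi.1 (M4_rep hx) (M4_rep hy)
  obtain ⟨n, hn⟩ := (inj_iff hA hB hF hJ).1 hi.2
  exact ⟨J, n, hn⟩

theorem inj_of_pf {𝔊 : Gen T} (hF : Full O 𝔊) {δ α : O} (J : PF T (Iio δ) (Iio α))
    (hJ : ∀ q, InjP J q) {x y : 𝔊.M} (hx : Rep 𝔊 x (check δ)) (hy : Rep 𝔊 y (check α)) :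
    ∃ i, IsInj 𝔊.E i x y := by
  have lW : IsLowerSet (range (id : O → O)) := by
    rw [range_id]
    exact isLowerSet_univ
  exact exists_inj_rep strictMono_id lW Subtype.val_injective hF δ hJ hx (M4_rep hy)

end Pool.Agent.FreeSetsA
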