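import Pool.Agent.Lib_MP_38e082_all.M1
import Pool.Agent.Lib_MP_38e082_all.M2
import Pool.Agent.Lib_MP_38e082_all.M3
import Pool.Agent.Lib_MP_38e082_all.M4

/-!
# H26-M5: the singular cardinals of the model

Write `m, l, k` for the elements named by `check δ`, `check α`, `check α'`, let `m` be regular and
cofinal in the singular cardinal `l`, and `k = l⁺`. Facts, in any full model `𝔊` containing `check w`,
`check δ`, `check α`, `check α'` (and `check (τ β)`, `check (a β)`):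
(1) `w ≤ δ`: `check w` is `ω` (`isOmega_rep` in C07; two `ω` are equal, as in `omega_uniq` of V13), and
`m = ω` or `ω ∈ m`. (2) `δ < α` (`E_iff_lt`). (3) `Λ < α`: otherwise `hI.low` restricted to
`Iio α ⊆ Iio Λ` (`PF.pre`) gives an injection from `l` to `check w`, and `w < α`, against `IsCard l`.
(4) Take `β` from `hI.high`. `τ β = α`: otherwise `hI.inj` gives an injection from `l` to
`check (τ β) ∈ l`. (5) `Lim β`: use `hI.reg`; `τ β = Λ` is excluded by (3), and the third case by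
`cofP_of_model` (`δ < τ β`). (6) `α' = a β`: `l ∈ k` so `τ β < α'`; if `α' < a β` then `hI.inj` gives an
injection from `k` to `l ∈ k`, against `IsCard k`; if `a β < α'` then `check (a β) ∈ k` is injected into
`l`, and `injP_of_model` contradicts `hI.noInj` (`x = τ β < a β` by `hI.τ_lt`).
(7) `f = sfN Φ` for `Φ` from `hI.map`: `isSetMapping_sfN`, `inter_small`, `free_small` (with `n0` and `f` from
`cofP_of_model`; `CofP` is inherited by stronger conditions).

Proof of `frc_counter`: case `α ≤ Λ` or `¬ Lim β` (`β` from `hI.high`) or `α ≠ τ β` or `α' ≠ a β`: `frc_full` with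
the names `check w`, `check (τ β)`, `check (a β)`; in the model the hypotheses are contradictory by
(1)-(6). Otherwise `frc_full` with the names `sfN Φ`, `check w` and (7). -/

set_option linter.unusedSectionVars false
set_option linter.unusedVariables false

namespace Pool.Agent.FreeSetsA

universe u

open Pool.Agent.Forcing Pool.Agent.Forcing.Name Pool.Agent.Inner Set Cardinal Pool.Agent.KT
  Pool.Agent.KTM
open Pool.Agent.FreeSets (IsCofinalMap IsSetMapping IsFree IsInter)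

variable {T O : Type u} [Preorder T] [OrderTop T] [LinearOrder O] [OrderBot O] [WellFoundedLT O]

/-- the set named by `check w` is `ω`, so a regular cardinal `check δ` has `w ≤ δ` -/
private theorem M5_wle {𝔊 : Gen T} (hF : Full O 𝔊) {w : O} {eN : ULift.{u} ℕ → O}
    (hN : StrictMono eN) (hNr : range eN = Iio w) (hw : (check w : Name T) ∈ 𝔊.N) {δ : O}
    {m : 𝔊.M} (hm : Rep 𝔊 m (check δ)) (hr : RegC 𝔊.E m) : w ≤ δ := by
  obtain ⟨_, ⟨om, hom, h1⟩, _⟩ := hr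
  have h2 : IsOmega 𝔊.E (𝔊.cls ⟨check w, hw⟩) := by
    refine isOmega_rep hF hN hNr ?_
    rw [hNr, ← check_eq]
    exact rep_self hw
  have h3 : om = 𝔊.cls ⟨check w, hw⟩ := by
    rw [hF.rich.isOmega_iff] at hom h2
    exact hom.trans h2.symm
  subst h3
  rcases h1 with h1 | h1
  · have h4 : Rep 𝔊 m (check w) := by
      rw [h1]
      exact rep_self hw
    exact (h4.check_inj hm).le
  · exact ((E_iff_lt hF.decC (rep_self hw) hm).1 h1).le

/-- a cardinal `check α` of the model is not injected into a smaller ordinal by a function valued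
in the forcing -/
private theorem M5_card {𝔊 : Gen T} (hF : Full O 𝔊) {x α : O} (hx : (check x : Name T) ∈ 𝔊.N)
    {l : 𝔊.M} (hl : Rep 𝔊 l (check α)) (hc : IsCard 𝔊.E l) (hlt : x < α)
    (J : PF T (Iio α) (Iio x)) (hJ : ∀ q, InjP J q) : False := by
  obtain ⟨i, hi⟩ := inj_of_pf hF J hJ hl (rep_self hx)
  exact hc.2 _ ((E_iff_lt hF.decC (rep_self hx) hl).2 hlt) i hi

/-- the analysis of a singular cardinal of the model: steps (1) to (6) -/
private theorem M5_facts {a τ : O → O} {Λ w : O} {θ : Cardinal.{u}} (hI : FIface T O a τ Λ w θ)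
    {eN : ULift.{u} ℕ → O} (hN : StrictMono eN) (hNr : range eN = Iio w) {δ α α' β : O}
    (h0 : Λ < α → β ≠ ⊥) (h1 : Λ < α → τ β ≤ α ∧ α < a β) {𝔊 : Gen T} (hF : Full O 𝔊)
    (hw : (check w : Name T) ∈ 𝔊.N) (hτ : (check (τ β) : Name T) ∈ 𝔊.N)
    (ha : (check (a β) : Name T) ∈ 𝔊.N) {m l k : 𝔊.M} (hm : Rep 𝔊 m (check δ))
    (hl : Rep 𝔊 l (check α)) (hk : Rep 𝔊 k (check α')) (hs : SingC 𝔊.E m l)
    (hc : IsSuccCard 𝔊.E l k) : w ≤ δ ∧ δ < α ∧ Λ < α ∧ τ β = α ∧ Lim β ∧ α' = a β := by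
  obtain ⟨hreg, hcl, hml, c, hcof⟩ := hs
  obtain ⟨hck, hlk, hall⟩ := hc
  have hwδ : w ≤ δ := M5_wle hF hN hNr hw hm hreg
  have hδα : δ < α := (E_iff_lt hF.decC hm hl).1 hml
  have hne : Nonempty (Iio α) := ⟨⟨δ, hδα⟩⟩
  have hΛ : Λ < α := by
    by_contra hlt
    rw [not_lt] at hlt
    obtain ⟨J, hJ⟩ := hI.low
    let f : Iio α → Iio Λ := fun x => ⟨x.1, lt_of_lt_of_le x.2 hlt⟩
    have hf : Function.Injective f := fun x y h => Subtype.ext (congrArg (fun z => z.1) h)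
    exact M5_card hF hw hl hcl (lt_of_le_of_lt hwδ hδα) (PF.pre J f) fun q => (hJ q).pre hf
  have hβ := h0 hΛ
  obtain ⟨h2, h3⟩ := h1 hΛ
  have hτα : τ β = α := by
    rcases h2.lt_or_eq with h4 | h4
    · obtain ⟨J, hJ⟩ := hI.inj β hβ α h3
      exact (M5_card hF hτ hl hcl h4 J hJ).elim
    · exact h4
  have hlim : Lim β := by
    rcases hI.reg β hβ with h4 | h4 | h4
    · exact h4
    · rw [hτα] at h4
      exact absurd h4.symm hΛ.ne
    · obtain ⟨f, n, hf⟩ := cofP_of_model hF hne hm hl hcof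
      subst hτα
      exact absurd hf (h4 δ hδα f _)
  refine ⟨hwδ, hδα, hΛ, hτα, hlim, ?_⟩
  have hαα' : α < α' := (E_iff_lt hF.decC hl hk).1 hlk
  rcases lt_trichotomy α' (a β) with h4 | h4 | h4
  · obtain ⟨J, hJ⟩ := hI.inj β hβ α' h4
    exact (M5_card hF hτ hk hck (by rw [hτα]; exact hαα') J hJ).elim
  · exact h4
  · obtain ⟨i, hi⟩ := hall _ ((E_iff_lt hF.decC (rep_self ha) hk).2 h4)
    obtain ⟨J, n, hJ⟩ := injP_of_model hF hne (rep_self ha) hl hi
    exact absurd hJ (hI.noInj β hβ α h3 J _)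

theorem frc_counter {a τ : O → O} {Λ w : O} {θ : Cardinal.{u}} (hI : FIface T O a τ Λ w θ)
    {eN : ULift.{u} ℕ → O} (hN : StrictMono eN) (hNr : range eN = Iio w) {δ α α' : O}
    (hα : #(Iio α) < θ) (q : T) :
    Frc (fun _ E v => SingC E (v 0) (v 1) → IsSuccCard E (v 1) (v 2) →
      ∃ f, Counter E (v 0) (v 1) (v 2) f) (ev omegaName [check δ, check α, check α']) q := by
  have hfo : FO.{u+1} (fun _ E v => SingC E (v 0) (v 1) → IsSuccCard E (v 1) (v 2) →
      ∃ f, Counter E (v 0) (v 1) (v 2) f) :=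
    FO.imp (FOA.singC _ _) (FO.imp (FOx.isSuccCard _ _) (FO.ex (FOA.counter _ _ _ _)))
  -- the index `β`
  obtain ⟨β, hβ, h1⟩ : ∃ β : O, (Λ < α → β ≠ ⊥) ∧ (Λ < α → τ β ≤ α ∧ α < a β) := by
    by_cases h : Λ < α
    · obtain ⟨β, h1, h2, h3⟩ := hI.high α h
      exact ⟨β, fun _ => h1, fun _ => ⟨h2, h3⟩⟩
    · exact ⟨⊥, fun h' => absurd h' h, fun h' => absurd h' h⟩
  by_cases hcase : Λ < α ∧ Lim β ∧ τ β = α ∧ α' = a β
  · obtain ⟨hΛ, hlim, rfl, rfl⟩ := hcase
    have hβ0 := hβ hΛ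
    obtain ⟨Φ, hsub, hit, hmap⟩ := hI.map β hlim hα
    refine frc_full O hfo _ q {sfN Φ, check w} (by simp) ?_
    intro 𝔊 hF h0 hSN hl hs hc
    have hwN : (check w : Name T) ∈ 𝔊.N := hSN (by simp)
    have hΦN : sfN Φ ∈ 𝔊.N := hSN (by simp)
    have mδ : (check δ : Name T) ∈ 𝔊.N := hl _ (by simp)
    have mα : (check (τ β) : Name T) ∈ 𝔊.N := hl _ (by simp)
    have mα' : (check (a β) : Name T) ∈ 𝔊.N := hl _ (by simp)
    change SingC 𝔊.E (𝔊.cls ⟨check δ, mδ⟩) (𝔊.cls ⟨check (τ β), mα⟩) at hs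
    change IsSuccCard 𝔊.E (𝔊.cls ⟨check (τ β), mα⟩) (𝔊.cls ⟨check (a β), mα'⟩) at hc
    obtain ⟨hwδ, hδα, -⟩ := M5_facts hI hN hNr hβ h1 hF hwN mα mα' (rep_self mδ) (rep_self mα)
      (rep_self mα') hs hc
    have hne : Nonempty (Iio (τ β)) := ⟨⟨δ, hδα⟩⟩
    have hne' : Nonempty (Iio (a β)) := ⟨⟨τ β, hI.τ_lt β hβ0⟩⟩
    obtain ⟨c, hcof⟩ := hs.2.2.2
    obtain ⟨f, n0, hf⟩ := cofP_of_model hF hne (rep_self mδ) (rep_self mα) hcof
    refine ⟨𝔊.cls ⟨sfN Φ, hΦN⟩, ?_⟩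
    change Counter 𝔊.E (𝔊.cls ⟨check δ, mδ⟩) (𝔊.cls ⟨check (τ β), mα⟩)
      (𝔊.cls ⟨check (a β), mα'⟩) (𝔊.cls ⟨sfN Φ, hΦN⟩)
    refine ⟨isSetMapping_sfN hF hsub hΦN (rep_self mα'), ?_, ?_⟩
    · intro X i I hX hi hInt e
      exact inter_small hF hne' hit hΦN (rep_self mα') (rep_self mα) hX hi hInt
    · intro H hH hfr
      refine free_small hF hΦN n0 (fun q' hq' S hS => ?_) (rep_self mα') (rep_self mδ) hH hfr
      refine hmap δ hwδ hδα f q' ?_ S hS
      intro x hx r hr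
      exact hf x hx r (hr.trans hq')
  · refine frc_full O hfo _ q {check w, check (τ β), check (a β)} (by simp) ?_
    intro 𝔊 hF h0 hSN hl hs hc
    have hwN : (check w : Name T) ∈ 𝔊.N := hSN (by simp)
    have hτN : (check (τ β) : Name T) ∈ 𝔊.N := hSN (by simp)
    have haN : (check (a β) : Name T) ∈ 𝔊.N := hSN (by simp)
    have mδ : (check δ : Name T) ∈ 𝔊.N := hl _ (by simp)
    have mα : (check α : Name T) ∈ 𝔊.N := hl _ (by simp)
    have mα' : (check α' : Name T) ∈ 𝔊.N := hl _ (by simp)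
    change SingC 𝔊.E (𝔊.cls ⟨check δ, mδ⟩) (𝔊.cls ⟨check α, mα⟩) at hs
    change IsSuccCard 𝔊.E (𝔊.cls ⟨check α, mα⟩) (𝔊.cls ⟨check α', mα'⟩) at hc
    obtain ⟨hwδ, hδα, h2, h3, h4, h5⟩ := M5_facts hI hN hNr hβ h1 hF hwN hτN haN (rep_self mδ)
      (rep_self mα) (rep_self mα') hs hc
    exact absurd ⟨h2, h4, h3, h5⟩ hcase

end Pool.Agent.FreeSetsA
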