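import Pool.Agent.Lib_MP_38e082_all.MDefs

/-!
# H26-M6: the model cut at a universe

As in `Lib_MP_bf47cd/V02.lean`: for elements of `U` the notions `Sub`, `IsFun`, `Val`, `IsInj`, `IsOmega`,
`IsCard` are the same in `E` and in `cut E U`; functions between elements of `U` and subsets of elements
of `U` are in `U` (`univ_rel`, `univ_sub`, `univ_pair` in V01). For `cut_counter`: `f ∈ U` since its elements
are pairs of elements of `k` and of the power set of `k` (`hU.power`; `f(x) ⊆ x ⊆ k` by transitivity of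
`k`: `hk`). -/

set_option linter.unusedSectionVars false
set_option linter.unusedVariables false

namespace Pool.Agent.FreeSetsA

universe w

open Pool.Agent.Forcing Pool.Agent.Forcing.Name Pool.Agent.Inner Set Cardinal Pool.Agent.KT
  Pool.Agent.KTM
open Pool.Agent.FreeSets (IsCofinalMap IsSetMapping IsFree IsInter)

variable {M : Type w} {E : M → M → Prop} {U : M}

/-- elements of elements of `U` are in `U` -/
private theorem M6_tr (hU : IsUniv E U) (x : {x // E x U}) {z : M} (h : E z x.1) : E z U :=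
  hU.trans x.1 x.2 z h

/-- argument and value of a function in `U` are in `U` -/
private theorem M6_val (hE : ModelsZFC E) (hU : IsUniv E U) {f x y : M} (hf : E f U)
    (h : Val E f x y) : E x U ∧ E y U := by
  obtain ⟨z, hz, hzf⟩ := h
  exact (univ_pair hE hU hz).1 (hU.trans f hf z hzf)

/-- a function between elements of `U` is in `U` -/
private theorem M6_fun (hE : ModelsZFC E) (hU : IsUniv E U) {f x y : M} (hx : E x U)
    (hy : E y U) (h : IsFun E f x y) : E f U :=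
  univ_rel hE hU hx hy fun z hz => by
    obtain ⟨a, b, h1, h2, h3⟩ := h.1 z hz
    exact ⟨a, b, h1, h2, h3⟩

private theorem M6_isCofinalMap (hE : ModelsZFC E) (hU : IsUniv E U) (c a b : {x // E x U}) :
    IsCofinalMap (cut E U) c a b ↔ IsCofinalMap E c.1 a.1 b.1 := by
  constructor
  · rintro ⟨h1, h2⟩
    refine ⟨(cut_isFun hE hU c a b).1 h1, fun x hx => ?_⟩
    obtain ⟨n, y, h3, h4⟩ := h2 ⟨x, M6_tr hU b hx⟩ hx
    refine ⟨n.1, y.1, (cut_val hE hU c n y).1 h3, ?_⟩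
    rcases h4 with h4 | h4
    · exact Or.inl (congrArg Subtype.val h4)
    · exact Or.inr h4
  · rintro ⟨h1, h2⟩
    refine ⟨(cut_isFun hE hU c a b).2 h1, fun x hx => ?_⟩
    obtain ⟨n, y, h3, h4⟩ := h2 x.1 hx
    obtain ⟨hn, hy⟩ := M6_val hE hU c.2 h3
    refine ⟨⟨n, hn⟩, ⟨y, hy⟩, (cut_val hE hU c ⟨n, hn⟩ ⟨y, hy⟩).2 h3, ?_⟩
    rcases h4 with h4 | h4
    · exact Or.inl (Subtype.ext h4)
    · exact Or.inr h4

private theorem M6_cof (hE : ModelsZFC E) (hU : IsUniv E U) (a b : {x // E x U}) :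
    (∃ c, IsCofinalMap (cut E U) c a b) ↔ ∃ c, IsCofinalMap E c a.1 b.1 := by
  constructor
  · rintro ⟨c, hc⟩
    exact ⟨c.1, (M6_isCofinalMap hE hU c a b).1 hc⟩
  · rintro ⟨c, hc⟩
    have hcU : E c U := M6_fun hE hU a.2 b.2 hc.1
    exact ⟨⟨c, hcU⟩, (M6_isCofinalMap hE hU ⟨c, hcU⟩ a b).2 hc⟩

private theorem M6_regC (hE : ModelsZFC E) (hU : IsUniv E U) (m : {x // E x U}) :
    RegC (cut E U) m ↔ RegC E m.1 := by
  constructor
  · rintro ⟨h1, ⟨om, h2, h2'⟩, h3⟩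
    obtain ⟨h4, om', h5, h5'⟩ := (cut_isInfCard hE hU m).1 ⟨h1, om, h2, h2'.imp_left Eq.symm⟩
    refine ⟨h4, ⟨om', h5, h5'.imp_left Eq.symm⟩, fun a c ha hc => ?_⟩
    have haU := M6_tr hU m ha
    obtain ⟨c', hc'⟩ := (M6_cof hE hU ⟨a, haU⟩ m).2 ⟨c, hc⟩
    exact h3 ⟨a, haU⟩ c' ha hc'
  · rintro ⟨h1, ⟨om, h2, h2'⟩, h3⟩
    obtain ⟨h4, om', h5, h5'⟩ := (cut_isInfCard hE hU m).2 ⟨h1, om, h2, h2'.imp_left Eq.symm⟩
    exact ⟨h4, ⟨om', h5, h5'.imp_left Eq.symm⟩, fun a c ha hc =>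
      h3 a.1 c.1 ha ((M6_isCofinalMap hE hU c a m).1 hc)⟩

theorem cut_singC (hE : ModelsZFC E) (hU : IsUniv E U) (m l : {x // E x U}) :
    SingC (cut E U) m l ↔ SingC E m.1 l.1 := by
  constructor
  · rintro ⟨h1, h2, h3, h4⟩
    exact ⟨(M6_regC hE hU m).1 h1, (cut_isCard hE hU l).1 h2, h3, (M6_cof hE hU m l).1 h4⟩
  · rintro ⟨h1, h2, h3, h4⟩
    exact ⟨(M6_regC hE hU m).2 h1, (cut_isCard hE hU l).2 h2, h3, (M6_cof hE hU m l).2 h4⟩

theorem cut_counter (hE : ModelsZFC E) (hU : IsUniv E U) {m l k : {x // E x U}}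
    (hk : IsOrd E k.1) {f : M} (h : Counter E m.1 l.1 k.1 f) :
    ∃ f' : {x // E x U}, Counter (cut E U) m l k f' := by
  obtain ⟨⟨h1, h2, h3⟩, h4, h5⟩ := h
  obtain ⟨p, hp, hp2⟩ := hU.power k.1 k.2
  have hfU : E f U := univ_rel hE hU k.2 hp fun z hz => by
    obtain ⟨x, y, hx, hxy⟩ := h1 z hz
    have hsub : Sub E y x := h3 x y hx ⟨z, hxy, hz⟩
    exact ⟨x, y, hx, hp2 y fun t ht => hk.1 x hx t (hsub t ht), hxy⟩
  refine ⟨⟨f, hfU⟩, ⟨fun z hz => ?_, fun x hx => ?_, fun x y hx hxy => ?_⟩,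
    fun X i I hX hi hI e he => ?_, fun H hH hfree => ?_⟩
  · obtain ⟨x, y, hx, hxy⟩ := h1 z.1 hz
    obtain ⟨hxU, hyU⟩ := (univ_pair hE hU hxy).1 z.2
    exact ⟨⟨x, hxU⟩, ⟨y, hyU⟩, hx, (cut_isPair hE hU z ⟨x, hxU⟩ ⟨y, hyU⟩).2 hxy⟩
  · obtain ⟨y, hy, hu⟩ := h2 x.1 hx
    have hyU := (M6_val hE hU hfU hy).2
    refine ⟨⟨y, hyU⟩, (cut_val hE hU ⟨f, hfU⟩ x ⟨y, hyU⟩).2 hy, fun y' hy' => ?_⟩
    exact Subtype.ext (hu y'.1 ((cut_val hE hU ⟨f, hfU⟩ x y').1 hy'))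
  · exact (cut_sub hE hU y x).2 (h3 x.1 y.1 hx ((cut_val hE hU ⟨f, hfU⟩ x y).1 hxy))
  · refine h4 X.1 i.1 I.1 ((cut_sub hE hU X k).1 hX) ((cut_isInj hE hU i k X).1 hi) ?_ e.1
      ((cut_isInj hE hU e l I).1 he)
    intro t
    constructor
    · intro ht
      have htU := M6_tr hU I ht
      obtain ⟨h6, h7⟩ := (hI ⟨t, htU⟩).1 ht
      refine ⟨h6, fun x F hx hxF => ?_⟩
      obtain ⟨hxU, hFU⟩ := M6_val hE hU hfU hxF
      exact h7 ⟨x, hxU⟩ ⟨F, hFU⟩ hx ((cut_val hE hU ⟨f, hfU⟩ ⟨x, hxU⟩ ⟨F, hFU⟩).2 hxF)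
    · rintro ⟨h6, h7⟩
      have htU := M6_tr hU k h6
      exact (hI ⟨t, htU⟩).2 ⟨h6, fun x F hx hxF =>
        h7 x.1 F.1 hx ((cut_val hE hU ⟨f, hfU⟩ x F).1 hxF)⟩
  · obtain ⟨j, hj⟩ := h5 H.1 ((cut_sub hE hU H k).1 hH) fun x y F hx hy hne hxF => by
      have hxU := M6_tr hU H hx
      have hyU := M6_tr hU H hy
      have hFU := (M6_val hE hU hfU hxF).2
      exact hfree ⟨x, hxU⟩ ⟨y, hyU⟩ ⟨F, hFU⟩ hx hy (fun h => hne (congrArg Subtype.val h))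
        ((cut_val hE hU ⟨f, hfU⟩ ⟨x, hxU⟩ ⟨F, hFU⟩).2 hxF)
    have hjU : E j U := M6_fun hE hU H.2 m.2 hj.1
    exact ⟨⟨j, hjU⟩, (cut_isInj hE hU ⟨j, hjU⟩ H m).2 hj⟩

end Pool.Agent.FreeSetsA
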