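import Pool.Agent.Lib_MP_38e082_all.UDefs

/-!
# H26-U2: the universe of names of hereditary size less than `θ` is closed under power sets

A port of `Lib_MP_bf47cd/V03p.lean`: `SN.mk (Set (A × R)) (fun S => SN.mk S ..)` is in `HB θ` for `#A, #R < θ`
since `θ` is a strong limit.
-/

set_option linter.unusedSectionVars false
set_option linter.unusedVariables false

namespace Pool.Agent.FreeSetsA

universe u v w

open Pool.Agent.Forcing Pool.Agent.Forcing.Name Pool.Agent.Inner Set Cardinal Pool.Agent.KT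
  Pool.Agent.KTM

variable {T : Type (v+1)} [Preorder T] [OrderTop T] {θ : Cardinal.{v+1}}

/-- the truth value of `x a ∈ y` as a function valued in the forcing -/
private def U2_phi {A : Type v} (x : A → SN T) (y : Name T) :
    PF T (ULift.{v+1} A) (ULift.{v+1} Bool) where
  val a b s := (b = ⟨true⟩ ∧ fmem (x a.down).toName y s) ∨
    (b = ⟨false⟩ ∧ ∀ r ≤ s, ¬ fmem (x a.down).toName y r)
  mono a b p q hq h := by
    rcases h with ⟨h1, h2⟩ | ⟨h1, h2⟩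
    · exact Or.inl ⟨h1, fmem_mono h2 hq⟩
    · exact Or.inr ⟨h1, fun r hr => h2 r (hr.trans hq)⟩
  dense a b p h := by
    obtain ⟨r0, hr0, h0⟩ := h p le_rfl
    rcases h0 with ⟨h1, h2⟩ | ⟨h1, h2⟩
    · refine Or.inl ⟨h1, fmem_dense fun q hq => ?_⟩
      obtain ⟨r, hr, h3⟩ := h q hq
      rcases h3 with ⟨_, h4⟩ | ⟨h4, _⟩
      · exact ⟨r, hr, h4⟩
      · rw [h1] at h4
        cases h4
    · refine Or.inr ⟨h1, fun q hq hm => ?_⟩
      obtain ⟨r, hr, h3⟩ := h q hq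
      rcases h3 with ⟨h4, _⟩ | ⟨_, h4⟩
      · rw [h1] at h4
        cases h4
      · exact h4 r le_rfl (fmem_mono hm hr)
  uniq a b b' p h h' := by
    rcases h with ⟨h1, h2⟩ | ⟨h1, h2⟩ <;> rcases h' with ⟨h3, h4⟩ | ⟨h3, h4⟩
    · rw [h1, h3]
    · exact absurd h2 (h4 p le_rfl)
    · exact absurd h4 (h2 p le_rfl)
    · rw [h1, h3]
  total a p := by
    by_cases h : ∃ q ≤ p, fmem (x a.down).toName y q
    · obtain ⟨q, hq, h1⟩ := h
      exact ⟨q, hq, ⟨true⟩, Or.inl ⟨rfl, h1⟩⟩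
    · push Not at h
      exact ⟨p, le_rfl, ⟨false⟩, Or.inr ⟨rfl, h⟩⟩

/-- a subset of a set with a small name is decided to be one of the listed subsets -/
private theorem U2_core {A R : Type v} (t : R → T)
    (hpool : ∀ (B : Type (v+1)) (Φ : PF T (ULift.{v+1} A) B)
      (q : T), ∃ q' ≤ q, ∀ a, ∀ r ≤ q', ∃ r' ≤ r, ∃ i : R, r' ≤ t i ∧ ∃ b, ∀ s ≤ t i, s ≤ q' →
        Φ.val a b s)
    (x : A → SN T) (p : A → T) (y : Name T) (q0 : T)
    (hsub : ∀ w, ∀ s ≤ q0, fmem w y s → fmem w (SN.mk A x p).toName s) :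
    ∀ q ≤ q0, ∃ q' ≤ q, ∃ S : Set (A × R),
      feq y (SN.mk S (fun s => x s.1.1) (fun s => t s.1.2)).toName q' := by
  intro q hq
  obtain ⟨q', hq', hp⟩ := hpool _ (U2_phi x y) q
  refine ⟨q', hq', {ai : A × R | ∀ s ≤ t ai.2, s ≤ q' → fmem (x ai.1).toName y s}, ?_⟩
  refine feq_of_forall ?_ ?_
  · intro w s hs hw s1 hs1
    obtain ⟨s2, hs2, a, h1, h2⟩ := hsub w s ((hs.trans hq').trans hq) hw s1 hs1
    have h3 : fmem (x a.down).toName y s2 := fmem_congr_left h2 (fmem_mono hw (hs2.trans hs1))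
    obtain ⟨r', hr', i, h4, b, hb⟩ := hp a s2 ((hs2.trans hs1).trans hs)
    have hr'q : r' ≤ q' := ((hr'.trans hs2).trans hs1).trans hs
    have hbt : b = ⟨true⟩ := by
      rcases hb r' h4 hr'q with ⟨h5, _⟩ | ⟨_, h5⟩
      · exact h5
      · exact absurd (fmem_mono h3 hr') (h5 r' le_rfl)
    have hmem : (a.down, i) ∈ {ai : A × R | ∀ s ≤ t ai.2, s ≤ q' → fmem (x ai.1).toName y s} := by
      intro s3 hs3 hs3'
      rcases hb s3 hs3 hs3' with ⟨_, h5⟩ | ⟨h5, _⟩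
      · exact h5
      · rw [hbt] at h5
        cases h5
    exact ⟨r', hr'.trans hs2, ULift.up ⟨(a.down, i), hmem⟩, h4, feq_mono h2 hr'⟩
  · intro w s hs hw
    refine fmem_dense fun s1 hs1 => ?_
    obtain ⟨s2, hs2, j, h1, h2⟩ := hw s1 hs1
    refine ⟨s2, hs2, fmem_congr_left (feq_symm h2) ?_⟩
    exact j.down.2 s2 h1 ((hs2.trans hs1).trans hs)

/-- cardinality facts about products and power sets below `θ` -/
private theorem U2_prod_lt (hθ : Inacc θ) {A R : Type v} (hA : Cardinal.lift.{v+1} #A < θ)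
    (hR : Cardinal.lift.{v+1} #R < θ) : Cardinal.lift.{v+1} #(A × R) < θ := by
  rw [Cardinal.mk_prod, Cardinal.lift_id, Cardinal.lift_id, Cardinal.lift_mul]
  exact Cardinal.mul_lt_of_lt hθ.unc.le hA hR

private theorem U2_set_lt (hθ : Inacc θ) {A : Type v} (hA : Cardinal.lift.{v+1} #A < θ) :
    Cardinal.lift.{v+1} #(Set A) < θ := by
  rw [Cardinal.mk_set, Cardinal.lift_power, Cardinal.lift_two]
  exact hθ.sl _ hA

private theorem U2_HB (hθ : Inacc θ) {A R : Type v} (hA : Cardinal.lift.{v+1} #A < θ)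
    (hR : Cardinal.lift.{v+1} #R < θ) (x : A → SN T) (hx : ∀ a, HB θ (x a)) (t : R → T)
    (S : Set (A × R)) : HB θ (SN.mk S (fun s => x s.1.1) (fun s => t s.1.2)) := by
  rw [HB_mk]
  refine ⟨?_, fun s => hx _⟩
  refine lt_of_le_of_lt ?_ (U2_prod_lt hθ hA hR)
  exact Cardinal.lift_le.2 (Cardinal.mk_set_le S)

theorem frc_powerB (hθ : Inacc θ) (hT : SmallPoolB θ T) (q : T) :
    Frc (fun _ E v => ∀ x, E x (v 0) → ∃ p, E p (v 0) ∧ ∀ y, Sub E y x → E y p)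
      (ev omegaName [univB T θ]) q := by
  have hfo : FO.{v+2} (fun _ E v => ∀ x, E x (v 0) →
      ∃ p, E p (v 0) ∧ ∀ y, Sub E y x → E y p) :=
    FO.all (FO.imp (FO.mem _ _) (FO.ex (FO.and (FO.mem _ _)
      (FO.all (FO.imp (FO.sub _ _) (FO.mem _ _))))))
  have hfo2 : FO.{v+2} (fun _ E v =>
      ∃ p, E p (v 0) ∧ ∀ y, Sub E y (v 1) → E y p) :=
    FO.ex (FO.and (FO.mem _ _) (FO.all (FO.imp (FO.sub _ _) (FO.mem _ _))))
  have hfo3 : FO.{v+2} (fun _ E v => Sub E (v 0) (v 1)) := FO.sub _ _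
  refine frc_of_list hfo [univB T θ] omegaName q ∅ countable_empty
    (κ := Empty) (fun k => k.elim) (fun k => k.elim) ?_
  intro 𝔊 hR h0 hS _ hl hd x hx
  have hU : univB T θ ∈ 𝔊.N := hl _ (by simp)
  change 𝔊.E x (𝔊.cls ⟨univB T θ, hU⟩) at hx
  obtain ⟨z, hzB, hz⟩ := (E_univB hR hU).1 hx
  obtain ⟨x', rfl⟩ := 𝔊.exists_rep x
  obtain ⟨n, hn⟩ := rep_cls_iff.1 hz
  obtain ⟨A, xx, pp⟩ := z
  obtain ⟨hA, hxx⟩ := HB_mk.1 hzB
  obtain ⟨R, t, hRθ, hpool⟩ := hT A hA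
  set P : SN T := SN.mk (Set (A × R))
    (fun S => SN.mk S (fun s => xx s.1.1) (fun s => t s.1.2)) (fun _ => ⊤) with hP
  have hPB : HB θ P := HB_mk.2 ⟨U2_set_lt hθ (U2_prod_lt hθ hA hRθ), fun S => U2_HB hθ hA hRθ xx hxx t S⟩
  have h1 : Frc (fun _ E v => ∃ p, E p (v 0) ∧ ∀ y, Sub E y (v 1) → E y p)
      (ev omegaName [univB T θ, x'.1]) (𝔊.G n) := by
    refine frc_of_list hfo2 [univB T θ, x'.1] omegaName (𝔊.G n)
      {(SN.mk A xx pp).toName, P.toName} (by simp)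
      (κ := Empty) (fun k => k.elim) (fun k => k.elim) ?_
    intro 𝔊' hR' h0' hS' _ hl' hd'
    have hU' : univB T θ ∈ 𝔊'.N := hl' _ (by simp)
    have hx' : x'.1 ∈ 𝔊'.N := hl' _ (by simp)
    have hzN : (SN.mk A xx pp).toName ∈ 𝔊'.N := hS' (by simp)
    have hPN : P.toName ∈ 𝔊'.N := hS' (by simp)
    refine ⟨𝔊'.cls ⟨P.toName, hPN⟩, (E_univB hR' hU').2 ⟨P, hPB, rep_self hPN⟩, ?_⟩
    intro y hy
    change Sub 𝔊'.E y (𝔊'.cls ⟨x'.1, hx'⟩) at hy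
    obtain ⟨y', rfl⟩ := 𝔊'.exists_rep y
    have e1 : 𝔊'.cls ⟨x'.1, hx'⟩ = 𝔊'.cls ⟨_, hzN⟩ :=
      (𝔊'.cls_eq).2 ⟨0, feq_mono hn h0'⟩
    rw [e1] at hy
    obtain ⟨m, hm⟩ := (truth_list hfo3 𝔊' [y', ⟨_, hzN⟩] ⟨omegaName, hR'.omega_mem⟩).1 hy
    have hsub : ∀ w, ∀ s ≤ 𝔊'.G m, fmem w y'.1 s → fmem w (SN.mk A xx pp).toName s := by
      intro w s hs hw
      refine fmem_of_models {w, y'.1, (SN.mk A xx pp).toName} (by simp) ?_
      intro 𝔊2 hR2 h02 hS2 hw2 hz2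
      have hy2 : y'.1 ∈ 𝔊2.N := hS2 (by simp)
      have h5 : Sub 𝔊2.E (𝔊2.cls ⟨y'.1, hy2⟩) (𝔊2.cls ⟨_, hz2⟩) :=
        Frc.true_list hfo3 𝔊2 [⟨y'.1, hy2⟩, ⟨_, hz2⟩] ⟨omegaName, hR2.omega_mem⟩ (n := 0)
          (hm.mono (h02.trans hs))
      exact h5 _ ⟨0, fmem_mono hw h02⟩
    refine ⟨m, fun q1 hq1 => ?_⟩
    obtain ⟨q', hq', S, hfe⟩ := U2_core t hpool xx pp y'.1 (𝔊'.G m) hsub q1 hq1
    exact ⟨q', hq', ULift.up S, le_top, hfe⟩
  exact Frc.true_list hfo2 𝔊 [⟨univB T θ, hU⟩, x'] ⟨omegaName, hR.omega_mem⟩ h1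

end Pool.Agent.FreeSetsA
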