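import Pool.Agent.Lib_MP_38e082_all.U1
import Pool.Agent.Lib_MP_38e082_all.U2

/-!
# H26-U3: the names of hereditary size less than `θ` form a universe

A port of `Lib_MP_bf47cd/V03r.lean`. The function `Φ` should have its values in
`{z : SN T // HB θ z}`; the set `SN.mk (A × R) β (fun _ => ⊤)` is in `HB θ` for `#A, #R < θ`.
-/

set_option linter.unusedSectionVars false
set_option linter.unusedVariables false

namespace Pool.Agent.FreeSetsA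

universe u v w

open Pool.Agent.Forcing Pool.Agent.Forcing.Name Pool.Agent.Inner Set Cardinal Pool.Agent.KT
  Pool.Agent.KTM

variable {T : Type (v+1)} [Preorder T] [OrderTop T] {θ : Cardinal.{v+1}}

/-- `p` forces `f(a) = b` -/
private def U3_FV (f a b : Name T) (p : T) : Prop :=
  Frc (fun _ E v => Val E (v 0) (v 1) (v 2)) (ev omegaName [f, a, b]) p

/-- `p` forces that `f` is a function from `x` to the universe -/
private def U3_FI (θ : Cardinal.{v+1}) (f x : Name T) (p : T) : Prop :=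
  Frc (fun _ E v => IsFun E (v 0) (v 1) (v 2)) (ev omegaName [f, x, univB T θ]) p

private lemma U3_FV_truth {𝔊 : Gen T} (hR : Rich 𝔊) (f a b : 𝔊.N) :
    Val 𝔊.E (𝔊.cls f) (𝔊.cls a) (𝔊.cls b) ↔ ∃ n, U3_FV f.1 a.1 b.1 (𝔊.G n) :=
  truth_list (FO.val 0 1 2) 𝔊 [f, a, b] ⟨omegaName, hR.omega_mem⟩

private lemma U3_FI_truth {𝔊 : Gen T} (hR : Rich 𝔊) (f x : 𝔊.N) (hU : univB T θ ∈ 𝔊.N) :
    IsFun 𝔊.E (𝔊.cls f) (𝔊.cls x) (𝔊.cls ⟨univB T θ, hU⟩) ↔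
      ∃ n, U3_FI θ f.1 x.1 (𝔊.G n) :=
  truth_list (FO.isFun 0 1 2) 𝔊 [f, x, ⟨univB T θ, hU⟩] ⟨omegaName, hR.omega_mem⟩

private lemma U3_FV_congr {f a b a' b' : Name T} {p : T} (ha : feq a a' p) (hb : feq b b' p)
    (h : U3_FV f a b p) : U3_FV f a' b' p :=
  frc_congr_list (List.Forall₂.cons (feq_refl _ _) (List.Forall₂.cons ha
    (List.Forall₂.cons hb List.Forall₂.nil))) h

private lemma U3_uniq {f x a b b' : Name T} {p : T} (hI : U3_FI θ f x p)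
    (h : U3_FV f a b p) (h' : U3_FV f a b' p) : feq b b' p := by
  refine feq_of_models {f, x, a, univB T θ} (by simp) ?_
  intro 𝔊 hR h0 hS hb hb'
  have hf : f ∈ 𝔊.N := hS (by simp)
  have hx : x ∈ 𝔊.N := hS (by simp)
  have ha : a ∈ 𝔊.N := hS (by simp)
  have hU : univB T θ ∈ 𝔊.N := hS (by simp)
  have h1 := (U3_FI_truth hR ⟨f, hf⟩ ⟨x, hx⟩ hU).2 ⟨0, Frc.mono hI h0⟩
  have h2 := (U3_FV_truth hR ⟨f, hf⟩ ⟨a, ha⟩ ⟨b, hb⟩).2 ⟨0, Frc.mono h h0⟩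
  have h3 := (U3_FV_truth hR ⟨f, hf⟩ ⟨a, ha⟩ ⟨b', hb'⟩).2 ⟨0, Frc.mono h' h0⟩
  obtain ⟨y, _, hy⟩ := h1.2 _ (isFun_mem hR.zfc h1 h2).1
  rw [hy _ h2, hy _ h3]

private lemma U3_exists {f x a : Name T} {p : T} (hI : U3_FI θ f x p) (hm : fmem a x p) :
    ∃ r ≤ p, ∃ z : SN T, HB θ z ∧ U3_FV f a z.toName r := by
  obtain ⟨𝔊, hR, h0, hS, _, _⟩ := exists_rich (P := T) (ι := Empty) (κ := Empty)
    {f, x, a, univB T θ} (by simp) (fun k => k.elim) (fun k => k.elim) (fun k => k.elim) p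
  have hf : f ∈ 𝔊.N := hS (by simp)
  have hx : x ∈ 𝔊.N := hS (by simp)
  have ha : a ∈ 𝔊.N := hS (by simp)
  have hU : univB T θ ∈ 𝔊.N := hS (by simp)
  have h1 := (U3_FI_truth hR ⟨f, hf⟩ ⟨x, hx⟩ hU).2 ⟨0, by rw [h0]; exact hI⟩
  have h2 : 𝔊.E (𝔊.cls ⟨a, ha⟩) (𝔊.cls ⟨x, hx⟩) := ⟨0, by rw [h0]; exact hm⟩
  obtain ⟨y, hy, _⟩ := h1.2 _ h2
  have hyU := (isFun_mem hR.zfc h1 hy).2
  obtain ⟨z, hzB, hz⟩ := (E_univB hR hU).1 hyU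
  obtain ⟨y', rfl, n, hn⟩ := hz
  obtain ⟨m, hm'⟩ := (U3_FV_truth hR ⟨f, hf⟩ ⟨a, ha⟩ y').1 hy
  refine ⟨𝔊.G (max n m), by rw [← h0]; exact 𝔊.anti (Nat.zero_le _), z, hzB, ?_⟩
  exact U3_FV_congr (feq_refl _ _) (feq_mono hn (𝔊.anti (le_max_left _ _)))
    (Frc.mono hm' (𝔊.anti (le_max_right _ _)))

private lemma U3_core (hθ : Inacc θ) (hT : SmallPoolB θ T) (f x : Name T) (q : T)
    (hI : U3_FI θ f x q) (hx : fmem x (univB T θ) q) : ∃ q' ≤ q, ∃ z' : SN T, HB θ z' ∧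
      Frc (fun _ E v => ∀ a b, Val E (v 0) a b → E b (v 1)) (ev omegaName [f, z'.toName]) q' := by
  classical
  obtain ⟨q1, hq1, z, hzB, hz⟩ := (fmem_univB.1 hx) q le_rfl
  obtain ⟨A, xx, pp⟩ := z
  have hA : Cardinal.lift.{v+1} #A < θ := (HB_mk.1 hzB).1
  have hI1 : U3_FI θ f x q1 := Frc.mono hI hq1
  obtain ⟨R, t, hR0, hRt⟩ := hT A hA
  obtain ⟨wo, hwo⟩ := exists_wellFoundedLT {z : SN T // HB θ z}
  let d0 : {z : SN T // HB θ z} := ⟨SN.mk PEmpty (fun a => a.elim) (fun a => a.elim), by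
    refine HB_mk.2 ⟨?_, fun a => a.elim⟩
    rw [Cardinal.mk_pempty, Cardinal.lift_zero]
    exact Cardinal.aleph0_pos.trans hθ.unc⟩
  -- the function
  let V : ULift.{v+1} A → {z : SN T // HB θ z} → T → Prop := fun a b s =>
    (fmem (xx a.down).toName x s ∧ U3_FV f (xx a.down).toName b.1.toName s ∧
      ∀ b' < b, ∀ r ≤ s, ¬ U3_FV f (xx a.down).toName b'.1.toName r) ∨
    ((∀ r ≤ s, ¬ fmem (xx a.down).toName x r) ∧ b = d0)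
  have : Nonempty {z : SN T // HB θ z} := ⟨d0⟩
  obtain ⟨Φ, hΦ1, hΦ2⟩ := PF.exists_ofDense_below (A := ULift.{v+1} A)
    (B := {z : SN T // HB θ z}) q1 V (by
      rintro a b p r hr hp (⟨h1, h2, h3⟩ | ⟨h1, h2⟩)
      · exact Or.inl ⟨fmem_mono h1 hr, Frc.mono h2 hr, fun b' hb' s hs => h3 b' hb' s (hs.trans hr)⟩
      · exact Or.inr ⟨fun s hs => h1 s (hs.trans hr), h2⟩) (by
      rintro a b b' p hp (⟨h1, h2, h3⟩ | ⟨h1, h2⟩) (⟨h4, h5, h6⟩ | ⟨h4, h5⟩)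
      · rcases lt_trichotomy b b' with h | h | h
        · exact absurd h2 (h6 b h p le_rfl)
        · exact h
        · exact absurd h5 (h3 b' h p le_rfl)
      · exact absurd h1 (h4 p le_rfl)
      · exact absurd h4 (h1 p le_rfl)
      · rw [h2, h5]) (by
      intro a p hp
      by_cases h : ∃ r ≤ p, fmem (xx a.down).toName x r
      · obtain ⟨r, hr, hm⟩ := h
        obtain ⟨r', hr', b, hbB, hb⟩ := U3_exists (Frc.mono hI1 (hr.trans hp)) hm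
        have hne : {b : {z : SN T // HB θ z} |
            ∃ s ≤ r', U3_FV f (xx a.down).toName b.1.toName s}.Nonempty :=
          ⟨⟨b, hbB⟩, r', le_rfl, hb⟩
        obtain ⟨s, hs, hFV⟩ := hwo.wf.min_mem _ hne
        refine ⟨s, hs.trans (hr'.trans hr), hwo.wf.min _ hne, Or.inl ⟨?_, hFV, ?_⟩⟩
        · exact fmem_mono hm (hs.trans hr')
        · intro b' hb' s' hs' hcon
          exact hwo.wf.not_lt_min
            {b : {z : SN T // HB θ z} | ∃ s ≤ r', U3_FV f (xx a.down).toName b.1.toName s}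
            ⟨s', hs'.trans hs, hcon⟩ hb'
      · push Not at h
        exact ⟨p, le_rfl, d0, Or.inr ⟨h, rfl⟩⟩)
  obtain ⟨q', hq', hpool⟩ := hRt {z : SN T // HB θ z} Φ q1
  let β : A × R → {z : SN T // HB θ z} := fun ai =>
    if h : ∃ b, ∀ s ≤ t ai.2, s ≤ q' → Φ.val ⟨ai.1⟩ b s then h.choose else d0
  let z' : SN T := SN.mk (A × R) (fun ai => (β ai).1) (fun _ => ⊤)
  have hz'B : HB θ z' := by
    refine HB_mk.2 ⟨?_, fun ai => (β ai).2⟩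
    rw [Cardinal.mk_prod, Cardinal.lift_id, Cardinal.lift_id, Cardinal.lift_mul]
    exact Cardinal.mul_lt_of_lt hθ.unc.le hA hR0
  refine ⟨q', hq'.trans hq1, z', hz'B, ?_⟩
  -- the dense sets
  let D : Unit → List (Name T) → Set T := fun _ l =>
    {r | (∀ s ≤ r, ¬ s ≤ q') ∨
      (∀ a : A, ∀ s ≤ r, ¬ feq (l.getD 0 omegaName) (xx a).toName s) ∨
      ∃ (a : A) (i : R), feq (l.getD 0 omegaName) (xx a).toName r ∧ r ≤ q' ∧ r ≤ t i ∧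
        ∃ b, ∀ s ≤ t i, s ≤ q' → Φ.val ⟨a⟩ b s}
  have hD : ∀ k l p, ∃ r ≤ p, r ∈ D k l := by
    intro _ l p
    by_cases h1 : ∀ s ≤ p, ¬ s ≤ q'
    · exact ⟨p, le_rfl, Or.inl h1⟩
    · push Not at h1
      obtain ⟨s, hsp, hsq⟩ := h1
      by_cases h2 : ∀ a : A, ∀ r ≤ s, ¬ feq (l.getD 0 omegaName) (xx a).toName r
      · exact ⟨s, hsp, Or.inr (Or.inl h2)⟩
      · push Not at h2
        obtain ⟨a, r, hr, hf⟩ := h2
        obtain ⟨r', hr', i, hi, hb⟩ := hpool ⟨a⟩ r (hr.trans hsq)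
        exact ⟨r', hr'.trans (hr.trans hsp), Or.inr (Or.inr ⟨a, i, feq_mono hf hr',
          hr'.trans (hr.trans hsq), hi, hb⟩)⟩
  have hFO : FO.{v+2} (fun _ E v => ∀ a b, Val E (v 0) a b → E b (v 1)) :=
    FO.all (FO.all (FO.imp (FO.val _ _ _) (FO.mem _ _)))
  refine frc_of (ι := Empty) (κ := Unit) hFO (ev omegaName [f, z'.toName]) q'
    {x, f, z'.toName, univB T θ, (SN.mk A xx pp).toName} (by simp) (fun k => k.elim) D hD ?_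
  intro 𝔊 hR h0 hS _ hmeet hv a0 b0 hab
  have hfN : f ∈ 𝔊.N := hS (by simp)
  have hxN : x ∈ 𝔊.N := hS (by simp)
  have hzN : z'.toName ∈ 𝔊.N := hS (by simp)
  have hUN : univB T θ ∈ 𝔊.N := hS (by simp)
  have hz0N : (SN.mk A xx pp).toName ∈ 𝔊.N := hS (by simp)
  have hab' : Val 𝔊.E (𝔊.cls ⟨f, hfN⟩) a0 b0 := hab
  show 𝔊.E b0 (𝔊.cls ⟨z'.toName, hzN⟩)
  have hIm := (U3_FI_truth hR ⟨f, hfN⟩ ⟨x, hxN⟩ hUN).2 ⟨0, Frc.mono hI1 (h0.trans hq')⟩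
  have hmem := isFun_mem hR.zfc hIm hab'
  have hxz : 𝔊.cls ⟨x, hxN⟩ = 𝔊.cls ⟨(SN.mk A xx pp).toName, hz0N⟩ :=
    (𝔊.cls_eq).2 ⟨0, feq_mono hz (h0.trans hq')⟩
  have hmem1 := hmem.1
  rw [hxz] at hmem1
  obtain ⟨j, n1, _, hrep⟩ := (E_iff hR hz0N).1 hmem1
  obtain ⟨a0', rfl⟩ := 𝔊.exists_rep a0
  obtain ⟨b0', rfl⟩ := 𝔊.exists_rep b0
  obtain ⟨n2, hn2⟩ := rep_cls_iff.1 hrep
  obtain ⟨n3, hn3⟩ := hmeet () [a0'.1] (by simp)
  have hn3' : (∀ s ≤ 𝔊.G n3, ¬ s ≤ q') ∨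
      (∀ a : A, ∀ s ≤ 𝔊.G n3, ¬ feq a0'.1 (xx a).toName s) ∨
      ∃ (a : A) (i : R), feq a0'.1 (xx a).toName (𝔊.G n3) ∧ 𝔊.G n3 ≤ q' ∧ 𝔊.G n3 ≤ t i ∧
        ∃ b, ∀ s ≤ t i, s ≤ q' → Φ.val ⟨a⟩ b s := hn3
  rcases hn3' with h1 | h1 | ⟨a, i, h1, h2, h3, h4⟩
  · exact absurd ((𝔊.anti (Nat.zero_le n3)).trans h0) (h1 _ le_rfl)
  · exact absurd (feq_mono hn2 (𝔊.anti (le_max_left n2 n3)))
      (h1 j.down _ (𝔊.anti (le_max_right n2 n3)))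
  · -- the value
    have hβ : ∀ s ≤ t i, s ≤ q' → Φ.val ⟨a⟩ (β (a, i)) s := by
      have : β (a, i) = h4.choose := by
        show (if h : ∃ b, ∀ s ≤ t i, s ≤ q' → Φ.val ⟨a⟩ b s then h.choose else d0) = h4.choose
        rw [dif_pos h4]
      rw [this]
      exact h4.choose_spec
    have h5 : Φ.val ⟨a⟩ (β (a, i)) (𝔊.G n3) := hβ _ h3 h2
    have h6 := (hΦ1 ⟨a⟩ (β (a, i)) (𝔊.G n3) (h2.trans hq')).1 h5
    obtain ⟨n4, hn4⟩ := hmem.1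
    have hmem2 : fmem (xx a).toName x (𝔊.G (max n3 n4)) :=
      fmem_congr_left (feq_mono h1 (𝔊.anti (le_max_left _ _)))
        (fmem_mono hn4 (𝔊.anti (le_max_right _ _)))
    have h7 : U3_FV f (xx a).toName (β (a, i)).1.toName (𝔊.G (max n3 n4)) := by
      refine Frc.dense (FO.val 0 1 2) fun s hs => ?_
      obtain ⟨r, hr, hV⟩ := h6 s (hs.trans (𝔊.anti (le_max_left _ _)))
      rcases hV with ⟨_, h8, _⟩ | ⟨h8, _⟩
      · exact ⟨r, hr, h8⟩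
      · exact absurd (fmem_mono hmem2 (hr.trans hs)) (h8 r le_rfl)
    obtain ⟨n5, hn5⟩ := (U3_FV_truth hR ⟨f, hfN⟩ a0' b0').1 hab'
    set M := max (max n3 n4) n5 with hM
    have h9 : U3_FV f a0'.1 (β (a, i)).1.toName (𝔊.G M) :=
      U3_FV_congr (feq_symm (feq_mono h1 (𝔊.anti
        ((le_max_left n3 n4).trans (le_max_left _ _))))) (feq_refl _ _)
        (Frc.mono h7 (𝔊.anti (le_max_left _ _)))
    have h10 : U3_FV f a0'.1 b0'.1 (𝔊.G M) := Frc.mono hn5 (𝔊.anti (le_max_right _ _))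
    have h11 : feq b0'.1 (β (a, i)).1.toName (𝔊.G M) :=
      U3_uniq (Frc.mono hI1 (((𝔊.anti (Nat.zero_le M)).trans h0).trans hq')) h10 h9
    refine (E_iff hR hzN).2 ⟨⟨(a, i)⟩, 0, le_top, b0', rfl, M, h11⟩

theorem frc_replB (hθ : Inacc θ) (hT : SmallPoolB θ T) (q : T) :
    Frc (fun _ E v => ∀ x f, E x (v 0) → IsFun E f x (v 0) →
      ∃ r, E r (v 0) ∧ ∀ a b, Val E f a b → E b r) (ev omegaName [univB T θ]) q := by
  have hFO : FO.{v+2} (fun _ E v => ∀ x f, E x (v 0) →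
      IsFun E f x (v 0) → ∃ r, E r (v 0) ∧ ∀ a b, Val E f a b → E b r) :=
    FO.all (FO.all (FO.imp (FO.mem _ _) (FO.imp (FO.isFun _ _ _) (FO.ex (FO.and (FO.mem _ _)
      (FO.all (FO.all (FO.imp (FO.val _ _ _) (FO.mem _ _)))))))))
  have hFO' : FO.{v+2} (fun _ E v => ∃ r, E r (v 0) ∧ ∀ a b, Val E (v 1) a b → E b r) :=
    FO.ex (FO.and (FO.mem _ _) (FO.all (FO.all (FO.imp (FO.val _ _ _) (FO.mem _ _)))))
  refine frc_of' hFO (ev omegaName [univB T θ]) q ∅ Set.countable_empty (κ := Empty)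
    (fun k => k.elim) (fun k => k.elim) ?_
  intro 𝔊 hR h0 _ _ hv x f hx hf
  have hUN : univB T θ ∈ 𝔊.N := hv 0
  have hx' : 𝔊.E x (𝔊.cls ⟨univB T θ, hUN⟩) := hx
  have hf' : IsFun 𝔊.E f x (𝔊.cls ⟨univB T θ, hUN⟩) := hf
  show ∃ r, 𝔊.E r (𝔊.cls ⟨univB T θ, hUN⟩) ∧ ∀ a b, Val 𝔊.E f a b → 𝔊.E b r
  obtain ⟨x', rfl⟩ := 𝔊.exists_rep x
  obtain ⟨f', rfl⟩ := 𝔊.exists_rep f
  obtain ⟨n, hn⟩ := hx'
  obtain ⟨m, hm⟩ := (U3_FI_truth hR f' x' hUN).1 hf'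
  refine (truth_list hFO' 𝔊 [⟨univB T θ, hUN⟩, f'] ⟨omegaName, hR.omega_mem⟩).2
    ⟨max n m, Frc.dense hFO' fun q1 hq1 => ?_⟩
  obtain ⟨q', hq', z', hz'B, hz'⟩ := U3_core hθ hT f'.1 x'.1 q1
    (Frc.mono hm (hq1.trans (𝔊.anti (le_max_right _ _))))
    (fmem_mono hn (hq1.trans (𝔊.anti (le_max_left _ _))))
  refine ⟨q', hq', ?_⟩
  refine frc_of' hFO' _ q' {z'.toName, f'.1, univB T θ} (by simp) (κ := Empty)
    (fun k => k.elim) (fun k => k.elim) ?_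
  intro 𝔊' hR' h0' hS' _ hv'
  have hzN : z'.toName ∈ 𝔊'.N := hS' (by simp)
  have hfN : f'.1 ∈ 𝔊'.N := hS' (by simp)
  have hUN' : univB T θ ∈ 𝔊'.N := hS' (by simp)
  have h1 : ∀ a b, Val 𝔊'.E (𝔊'.cls ⟨f'.1, hfN⟩) a b → 𝔊'.E b (𝔊'.cls ⟨z'.toName, hzN⟩) :=
    Frc.true_list (FO.all (FO.all (FO.imp (FO.val _ _ _) (FO.mem _ _)))) 𝔊'
      [⟨f'.1, hfN⟩, ⟨z'.toName, hzN⟩] ⟨omegaName, hR'.omega_mem⟩ (n := 0) (Frc.mono hz' h0')
  have h2 : 𝔊'.E (𝔊'.cls ⟨z'.toName, hzN⟩) (𝔊'.cls ⟨univB T θ, hUN'⟩) :=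
    (E_univB hR' hUN').2 ⟨z', hz'B, rep_self hzN⟩
  exact ⟨_, h2, h1⟩

theorem frc_isUnivB (hθ : Inacc θ) (hT : SmallPoolB θ T) (q : T) :
    Frc (fun _ E v => IsUniv E (v 0)) (ev omegaName [univB T θ]) q := by
  refine frc_of' (FOx.isUniv 0) (ev omegaName [univB T θ]) q ∅ Set.countable_empty (κ := Empty)
    (fun k => k.elim) (fun k => k.elim) ?_
  intro 𝔊 hR h0 _ _ hv
  have hUN : univB T θ ∈ 𝔊.N := hv 0
  show IsUniv 𝔊.E (𝔊.cls ⟨univB T θ, hUN⟩)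
  have key : ∀ {R : Fam.{v+2}}, FO R → Frc R (ev omegaName [univB T θ]) (𝔊.G 0) →
      R 𝔊.M 𝔊.E (ev (𝔊.cls ⟨omegaName, hR.omega_mem⟩) [𝔊.cls ⟨univB T θ, hUN⟩]) :=
    fun hR' h => Frc.true_list hR' 𝔊 [⟨univB T θ, hUN⟩] ⟨omegaName, hR.omega_mem⟩ h
  refine ⟨?_, ?_, ?_, ?_, ?_, ?_⟩
  · exact key (FO.all (FO.imp (FO.mem _ _) (FO.all (FO.imp (FO.mem _ _) (FO.mem _ _)))))
      (frc_transB _)
  · exact key (FO.ex (FO.and (FO.mem _ _) (FO.isOmega _))) (frc_omegaB hθ _)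
  · exact key (FO.all (FO.all (FO.imp (FO.mem _ _) (FO.imp (FO.mem _ _) (FO.ex (FO.and (FO.mem _ _)
      (FO.and (FO.mem _ _) (FO.mem _ _)))))))) (frc_pairB hθ _)
  · exact key (FO.all (FO.imp (FO.mem _ _) (FO.ex (FO.and (FO.mem _ _)
      (FO.all (FO.all (FO.imp (FO.mem _ _) (FO.imp (FO.mem _ _) (FO.mem _ _)))))))))
      (frc_unionB hθ _)
  · exact key (FO.all (FO.imp (FO.mem _ _) (FO.ex (FO.and (FO.mem _ _)
      (FO.all (FO.imp (FO.sub _ _) (FO.mem _ _))))))) (frc_powerB hθ hT _)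
  · exact key (FO.all (FO.all (FO.imp (FO.mem _ _) (FO.imp (FO.isFun _ _ _) (FO.ex (FO.and
      (FO.mem _ _) (FO.all (FO.all (FO.imp (FO.val _ _ _) (FO.mem _ _))))))))))
      (frc_replB hθ hT _)

end Pool.Agent.FreeSetsA
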