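import Pool.Agent.Lib_MP_38e082_all.UDefs

/-!
# H26-U1: the universe of names of hereditary size less than `θ`: transitivity, `ω`, pairs, unions

A port of `Lib_MP_bf47cd/V03.lean` (same statements for `univN T`; the small names constructed there
have to be checked to be in `HB θ`: the index types are `ℕ`, `Bool`, `Σ a : A, ..`, iterated
`Option`, and `Inacc θ` gives `ℵ₀ < θ` and regularity for the union).
-/

set_option linter.unusedSectionVars false
set_option linter.unusedVariables false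

namespace Pool.Agent.FreeSetsA

universe u v w

open Pool.Agent.Forcing Pool.Agent.Forcing.Name Pool.Agent.Inner Set Cardinal Pool.Agent.KT
  Pool.Agent.KTM

variable {T : Type (v+1)} [Preorder T] [OrderTop T] {θ : Cardinal.{v+1}}

/-- the universe is transitive, for names -/
private lemma U1_trans {x y : Name T} {p : T} (hx : fmem x (univB T θ) p) (hy : fmem y x p) :
    fmem y (univB T θ) p := by
  rw [fmem_univB] at hx ⊢
  intro q hq
  obtain ⟨r, hr, z, hz0, hz⟩ := hx q hq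
  have h1 : fmem y z.toName r := fmem_congr_right hz (fmem_mono hy (hr.trans hq))
  obtain ⟨A, x', p'⟩ := z
  obtain ⟨s, hs, j, _, h2⟩ := h1 r le_rfl
  exact ⟨s, hs.trans hr, x' j.down, (HB_mk.1 hz0).2 j.down, h2⟩

theorem frc_transB (q : T) : Frc (fun _ E v => ∀ x, E x (v 0) → ∀ y, E y x → E y (v 0))
    (ev omegaName [univB T θ]) q := by
  have hfo : FO.{v+2} (fun _ E v => ∀ x, E x (v 0) → ∀ y, E y x → E y (v 0)) :=
    FO.all (FO.imp (FO.mem _ _) (FO.all (FO.imp (FO.mem _ _) (FO.mem _ _))))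
  refine frc_of_list hfo [univB T θ] omegaName q ∅ (by simp)
    (κ := Empty) (fun k => k.elim) (fun k => k.elim) ?_
  intro 𝔊 hR h0 _ _ hl hd
  have hU : univB T θ ∈ 𝔊.N := hl _ (by simp)
  change ∀ x, 𝔊.E x (𝔊.cls ⟨univB T θ, hU⟩) → ∀ y, 𝔊.E y x → 𝔊.E y (𝔊.cls ⟨univB T θ, hU⟩)
  intro x hx y hy
  obtain ⟨x', rfl⟩ := 𝔊.exists_rep x
  obtain ⟨y', rfl⟩ := 𝔊.exists_rep y
  obtain ⟨n, hn⟩ := hx
  obtain ⟨m, hm⟩ := hy
  exact ⟨max n m, U1_trans (fmem_mono hn (𝔊.anti (le_max_left _ _)))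
    (fmem_mono hm (𝔊.anti (le_max_right _ _)))⟩

/-- small names of the natural numbers -/
private def U1_num (T : Type (v+1)) [Preorder T] [OrderTop T] : ℕ → SN T
  | 0 => .mk PEmpty (fun a => a.elim) (fun a => a.elim)
  | n+1 => match U1_num T n with
    | .mk A x p => .mk (Option A) (fun o => o.elim (.mk A x p) x) (fun o => o.elim ⊤ p)

private lemma U1_num_feq (n : ℕ) (p : T) : feq (U1_num T n).toName (num n) p := by
  induction n generalizing p with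
  | zero =>
    refine feq_of_forall ?_ ?_
    · intro z q _ h
      obtain ⟨r, _, j, _⟩ := h q le_rfl
      exact j.down.elim
    · intro z q _ h
      exact absurd h not_fmem_emptyName
  | succ n ih =>
    have key : ∀ (z : Name T) (q : T), fmem z (U1_num T (n+1)).toName q ↔
        ∀ q' ≤ q, ∃ r ≤ q', fmem z (U1_num T n).toName r ∨ feq z (U1_num T n).toName r := by
      intro z q
      have e : U1_num T (n+1) = match U1_num T n with
        | .mk A x p => .mk (Option A) (fun o => o.elim (.mk A x p) x) (fun o => o.elim ⊤ p) := rfl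
      rw [e]
      generalize U1_num T n = w
      obtain ⟨A, x, c⟩ := w
      constructor
      · intro h q' hq'
        obtain ⟨r, hr, ⟨j⟩, h1, h2⟩ := h q' hq'
        cases j with
        | none => exact ⟨r, hr, Or.inr h2⟩
        | some j =>
          refine ⟨r, hr, Or.inl ?_⟩
          intro s hs
          exact ⟨s, le_rfl, ⟨j⟩, hs.trans h1, feq_mono h2 hs⟩
      · intro h q' hq'
        obtain ⟨r, hr, h1 | h1⟩ := h q' hq'
        · obtain ⟨s, hs, ⟨j⟩, h2, h3⟩ := h1 r le_rfl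
          exact ⟨s, hs.trans hr, ⟨some j⟩, h2, h3⟩
        · exact ⟨r, hr, ⟨none⟩, le_top, h1⟩
    refine feq_of_forall ?_ ?_
    · intro z q hq h
      rw [key] at h
      rw [fmem_num_succ]
      intro q' hq'
      obtain ⟨r, hr, h1 | h1⟩ := h q' hq'
      · exact ⟨r, hr, Or.inl (fmem_congr_right (ih r) h1)⟩
      · exact ⟨r, hr, Or.inr (feq_trans h1 (ih r))⟩
    · intro z q hq h
      rw [fmem_num_succ] at h
      rw [key]
      intro q' hq'
      obtain ⟨r, hr, h1 | h1⟩ := h q' hq'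
      · exact ⟨r, hr, Or.inl (fmem_congr_right (feq_symm (ih r)) h1)⟩
      · exact ⟨r, hr, Or.inr (feq_trans h1 (feq_symm (ih r)))⟩

/-- the small name of the set of natural numbers -/
private def U1_om (T : Type (v+1)) [Preorder T] [OrderTop T] : SN T :=
  .mk (ULift.{v} ℕ) (fun n => U1_num T n.down) (fun _ => ⊤)

private lemma U1_om_feq (p : T) : feq (U1_om T).toName omegaName p := by
  refine feq_of_forall ?_ ?_
  · intro z q _ h
    rw [fmem_omegaName]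
    intro q' hq'
    obtain ⟨r, hr, ⟨⟨n⟩⟩, _, h2⟩ := h q' hq'
    exact ⟨r, hr, n, feq_trans h2 (U1_num_feq n r)⟩
  · intro z q _ h
    rw [fmem_omegaName] at h
    intro q' hq'
    obtain ⟨r, hr, n, h2⟩ := h q' hq'
    exact ⟨r, hr, ⟨⟨n⟩⟩, le_top, feq_trans h2 (feq_symm (U1_num_feq n r))⟩

private lemma U1_num_HB (hθ : Inacc θ) (n : ℕ) : HB θ (U1_num T n) := by
  induction n with
  | zero =>
    refine HB_mk.2 ⟨?_, fun a => a.elim⟩
    rw [Cardinal.mk_pempty, Cardinal.lift_zero]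
    exact lt_of_lt_of_le Cardinal.aleph0_pos hθ.unc.le
  | succ n ih =>
    have e : U1_num T (n+1) = match U1_num T n with
      | .mk A x p => .mk (Option A) (fun o => o.elim (.mk A x p) x) (fun o => o.elim ⊤ p) := rfl
    rw [e]
    revert ih
    generalize U1_num T n = w
    obtain ⟨A, x, c⟩ := w
    intro ih
    refine HB_mk.2 ⟨?_, ?_⟩
    · rw [Cardinal.mk_option, Cardinal.lift_add, Cardinal.lift_one]
      exact Cardinal.add_lt_of_lt hθ.unc.le (HB_mk.1 ih).1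
        (lt_of_lt_of_le Cardinal.one_lt_aleph0 hθ.unc.le)
    · intro o
      cases o with
      | none => exact ih
      | some a => exact (HB_mk.1 ih).2 a

private lemma U1_om_HB (hθ : Inacc θ) : HB θ (U1_om T) := by
  refine HB_mk.2 ⟨?_, fun n => U1_num_HB hθ n.down⟩
  rw [Cardinal.mk_uLift, Cardinal.mk_nat, Cardinal.lift_aleph0, Cardinal.lift_aleph0]
  exact hθ.unc

theorem frc_omegaB (hθ : Inacc θ) (q : T) : Frc (fun _ E v => ∃ w, E w (v 0) ∧ IsOmega E w)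
    (ev omegaName [univB T θ]) q := by
  have hfo : FO.{v+2} (fun _ E v => ∃ w, E w (v 0) ∧ IsOmega E w) :=
    FO.ex (FO.and (FO.mem _ _) (FO.isOmega _))
  refine frc_of_list hfo [univB T θ] omegaName q ∅ (by simp)
    (κ := Empty) (fun k => k.elim) (fun k => k.elim) ?_
  intro 𝔊 hR h0 _ _ hl hd
  have hU : univB T θ ∈ 𝔊.N := hl _ (by simp)
  change ∃ w, 𝔊.E w (𝔊.cls ⟨univB T θ, hU⟩) ∧ IsOmega 𝔊.E w
  refine ⟨hR.om, (E_univB hR hU).2 ⟨U1_om T, U1_om_HB hθ, ?_⟩, hR.isOmega_om⟩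
  exact rep_cls_iff.2 ⟨0, feq_symm (U1_om_feq _)⟩

/-- the small name of a pair -/
private def U1_pair (a b : SN T) : SN T :=
  .mk (ULift.{v} Bool) (fun i => cond i.down a b) (fun _ => ⊤)

private lemma U1_pair_feq {a b : SN T} {x y : Name T} {p : T} (ha : feq x a.toName p)
    (hb : feq y b.toName p) : feq (pairName x y) (U1_pair a b).toName p := by
  refine feq_of_forall ?_ ?_
  · intro z q hq h
    rw [fmem_pairName] at h
    intro q' hq'
    obtain ⟨r, hr, h1 | h1⟩ := h q' hq'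
    · exact ⟨r, hr, ⟨⟨true⟩⟩, le_top, feq_trans h1 (feq_mono ha (hr.trans (hq'.trans hq)))⟩
    · exact ⟨r, hr, ⟨⟨false⟩⟩, le_top, feq_trans h1 (feq_mono hb (hr.trans (hq'.trans hq)))⟩
  · intro z q hq h
    rw [fmem_pairName]
    intro q' hq'
    obtain ⟨r, hr, ⟨⟨i⟩⟩, _, h2⟩ := h q' hq'
    cases i
    · exact ⟨r, hr, Or.inr (feq_trans h2 (feq_symm (feq_mono hb (hr.trans (hq'.trans hq)))))⟩
    · exact ⟨r, hr, Or.inl (feq_trans h2 (feq_symm (feq_mono ha (hr.trans (hq'.trans hq)))))⟩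

private lemma U1_pair_HB (hθ : Inacc θ) {a b : SN T} (ha : HB θ a) (hb : HB θ b) :
    HB θ (U1_pair a b) := by
  refine HB_mk.2 ⟨?_, ?_⟩
  · rw [Cardinal.mk_uLift, Cardinal.lift_lift]
    exact lt_of_lt_of_le (Cardinal.lift_lt_aleph0.2 (Cardinal.lt_aleph0_of_finite Bool)) hθ.unc.le
  · rintro ⟨i⟩
    cases i
    · exact hb
    · exact ha

theorem frc_pairB (hθ : Inacc θ) (q : T) : Frc (fun _ E v => ∀ x y, E x (v 0) → E y (v 0) →
    ∃ z, E z (v 0) ∧ E x z ∧ E y z) (ev omegaName [univB T θ]) q := by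
  have hfo : FO.{v+2} (fun _ E v => ∀ x y, E x (v 0) → E y (v 0) →
      ∃ z, E z (v 0) ∧ E x z ∧ E y z) :=
    FO.all (FO.all (FO.imp (FO.mem _ _) (FO.imp (FO.mem _ _)
        (FO.ex (FO.and (FO.mem _ _) (FO.and (FO.mem _ _) (FO.mem _ _)))))))
  refine frc_of_list hfo [univB T θ] omegaName q ∅ (by simp)
    (κ := Empty) (fun k => k.elim) (fun k => k.elim) ?_
  intro 𝔊 hR h0 _ _ hl hd
  have hU : univB T θ ∈ 𝔊.N := hl _ (by simp)
  change ∀ x y, 𝔊.E x (𝔊.cls ⟨univB T θ, hU⟩) → 𝔊.E y (𝔊.cls ⟨univB T θ, hU⟩) →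
    ∃ z, 𝔊.E z (𝔊.cls ⟨univB T θ, hU⟩) ∧ 𝔊.E x z ∧ 𝔊.E y z
  intro x y hx hy
  obtain ⟨a, ha0, x', rfl, n, hn⟩ := (E_univB hR hU).1 hx
  obtain ⟨b, hb0, y', rfl, m, hm⟩ := (E_univB hR hU).1 hy
  refine ⟨𝔊.cls ⟨pairName x'.1 y'.1, hR.pair_mem _ x'.2 _ y'.2⟩,
    (E_univB hR hU).2 ⟨U1_pair a b, U1_pair_HB hθ ha0 hb0, ?_⟩, ⟨0, ?_⟩, ⟨0, ?_⟩⟩
  · exact rep_cls_iff.2 ⟨max n m, U1_pair_feq (feq_mono hn (𝔊.anti (le_max_left _ _)))
      (feq_mono hm (𝔊.anti (le_max_right _ _)))⟩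
  · rw [fmem_pairName]
    exact fun r _ => ⟨r, le_rfl, Or.inl (feq_refl _ _)⟩
  · rw [fmem_pairName]
    exact fun r _ => ⟨r, le_rfl, Or.inr (feq_refl _ _)⟩

/-- the small name of the union: an index `(a, b)` of an element of an element; we do not ask for
the condition of `a` -/
private def U1_idx : SN T → Type v
  | .mk A _ _ => A

private def U1_nm : (z : SN T) → U1_idx z → SN T
  | .mk _ x _ => x

private def U1_union : SN T → SN T
  | .mk A x _ => .mk (Σ a : A, U1_idx (x a)) (fun s => U1_nm (x s.1) s.2) (fun _ => ⊤)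

/-- elements of elements are elements of the union, for names -/
private lemma U1_union_mem {z : SN T} {x y t : Name T} {p : T} (hx : feq x z.toName p)
    (hy : fmem y x p) (ht : fmem t y p) : fmem t (U1_union z).toName p := by
  obtain ⟨A, xs, c⟩ := z
  intro q hq
  have h1 : fmem y (SN.mk A xs c).toName q := fmem_mono (fmem_congr_right hx hy) hq
  obtain ⟨r, hr, ⟨a⟩, _, h2⟩ := h1 q le_rfl
  have h3 : fmem t (xs a).toName r := fmem_congr_right h2 (fmem_mono ht (hr.trans hq))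
  obtain ⟨s, hs, h4⟩ : ∃ s ≤ r, ∃ b : U1_idx (xs a), feq t (U1_nm (xs a) b).toName s := by
    revert h3
    generalize xs a = w
    obtain ⟨B, ys, d⟩ := w
    intro h3
    obtain ⟨s, hs, ⟨b⟩, _, h5⟩ := h3 r le_rfl
    exact ⟨s, hs, b, h5⟩
  obtain ⟨b, h5⟩ := h4
  exact ⟨s, hs.trans hr, ⟨⟨a, b⟩⟩, le_top, h5⟩

private lemma U1_idx_card {z : SN T} (h : HB θ z) :
    Cardinal.lift.{v+1} #(U1_idx z) < θ := by
  cases z with
  | mk A x p => exact (HB_mk.1 h).1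

private lemma U1_nm_HB {z : SN T} (h : HB θ z) (b : U1_idx z) : HB θ (U1_nm z b) := by
  cases z with
  | mk A x p => exact (HB_mk.1 h).2 b

private lemma U1_union_HB (hθ : Inacc θ) {z : SN T} (h : HB θ z) : HB θ (U1_union z) := by
  obtain ⟨A, x, p⟩ := z
  refine HB_mk.2 ⟨?_, ?_⟩
  · rw [Cardinal.mk_sigma, Cardinal.lift_sum]
    exact Cardinal.sum_lt_lift_of_isRegular hθ.reg (HB_mk.1 h).1
      (fun a => U1_idx_card ((HB_mk.1 h).2 a))
  · rintro ⟨a, b⟩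
    exact U1_nm_HB ((HB_mk.1 h).2 a) b

private lemma U1_union_aux (hθ : Inacc θ) (x : Name T) (q : T) :
    Frc (fun _ E v => E (v 0) (v 1) → ∃ u, E u (v 1) ∧ ∀ y z, E y (v 0) → E z y → E z u)
    (ev omegaName [x, univB T θ]) q := by
  have hfo : FO.{v+2} (fun _ E v => E (v 0) (v 1) →
      ∃ u, E u (v 1) ∧ ∀ y z, E y (v 0) → E z y → E z u) :=
    FO.imp (FO.mem _ _) (FO.ex (FO.and (FO.mem _ _)
        (FO.all (FO.all (FO.imp (FO.mem _ _) (FO.imp (FO.mem _ _) (FO.mem _ _)))))))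
  refine Frc.dense hfo fun q1 _ => ?_
  by_cases hc : ∃ r ≤ q1, fmem x (univB T θ) r
  · obtain ⟨r, hr, hc⟩ := hc
    obtain ⟨s, hs, z, hz0, hz⟩ := fmem_univB.1 hc r le_rfl
    refine ⟨s, hs.trans hr, ?_⟩
    refine frc_of_list hfo [x, univB T θ] omegaName s {(U1_union z).toName} (by simp)
      (κ := Empty) (fun k => k.elim) (fun k => k.elim) ?_
    intro 𝔊 hR h0 hS _ hl hd
    have hU : univB T θ ∈ 𝔊.N := hl _ (by simp)
    have hx : x ∈ 𝔊.N := hl _ (by simp)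
    have hu : (U1_union z).toName ∈ 𝔊.N := hS (by simp)
    change 𝔊.E (𝔊.cls ⟨x, hx⟩) (𝔊.cls ⟨univB T θ, hU⟩) → ∃ u, 𝔊.E u (𝔊.cls ⟨univB T θ, hU⟩) ∧
      ∀ y z, 𝔊.E y (𝔊.cls ⟨x, hx⟩) → 𝔊.E z y → 𝔊.E z u
    intro _
    refine ⟨𝔊.cls ⟨_, hu⟩, (E_univB hR hU).2 ⟨_, U1_union_HB hθ hz0, rep_self hu⟩, ?_⟩
    intro y t hy ht
    obtain ⟨y', rfl⟩ := 𝔊.exists_rep y
    obtain ⟨t', rfl⟩ := 𝔊.exists_rep t
    obtain ⟨n, hn⟩ := hy
    obtain ⟨m, hm⟩ := ht
    exact ⟨max n m, U1_union_mem (feq_mono hz ((𝔊.anti (Nat.zero_le _)).trans h0))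
      (fmem_mono hn (𝔊.anti (le_max_left _ _))) (fmem_mono hm (𝔊.anti (le_max_right _ _)))⟩
  · push Not at hc
    refine ⟨q1, le_rfl, ?_⟩
    refine frc_of_list hfo [x, univB T θ] omegaName q1 ∅ (by simp)
      (κ := Empty) (fun k => k.elim) (fun k => k.elim) ?_
    intro 𝔊 hR h0 hS _ hl hd
    have hU : univB T θ ∈ 𝔊.N := hl _ (by simp)
    have hx : x ∈ 𝔊.N := hl _ (by simp)
    change 𝔊.E (𝔊.cls ⟨x, hx⟩) (𝔊.cls ⟨univB T θ, hU⟩) → _
    rintro ⟨n, hn⟩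
    exact absurd hn (hc _ ((𝔊.anti (Nat.zero_le _)).trans h0))

theorem frc_unionB (hθ : Inacc θ) (q : T) : Frc (fun _ E v => ∀ x, E x (v 0) →
    ∃ u, E u (v 0) ∧ ∀ y z, E y x → E z y → E z u) (ev omegaName [univB T θ]) q := by
  have hfo : FO.{v+2} (fun _ E v => ∀ x, E x (v 0) →
      ∃ u, E u (v 0) ∧ ∀ y z, E y x → E z y → E z u) :=
    FO.all (FO.imp (FO.mem _ _) (FO.ex (FO.and (FO.mem _ _)
        (FO.all (FO.all (FO.imp (FO.mem _ _) (FO.imp (FO.mem _ _) (FO.mem _ _))))))))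
  have hfo' : FO.{v+2} (fun _ E v => E (v 0) (v 1) →
      ∃ u, E u (v 1) ∧ ∀ y z, E y (v 0) → E z y → E z u) :=
    FO.imp (FO.mem _ _) (FO.ex (FO.and (FO.mem _ _)
        (FO.all (FO.all (FO.imp (FO.mem _ _) (FO.imp (FO.mem _ _) (FO.mem _ _)))))))
  refine frc_of_list hfo [univB T θ] omegaName q ∅ (by simp)
    (κ := Empty) (fun k => k.elim) (fun k => k.elim) ?_
  intro 𝔊 hR h0 _ _ hl hd
  have hU : univB T θ ∈ 𝔊.N := hl _ (by simp)
  change ∀ x, 𝔊.E x (𝔊.cls ⟨univB T θ, hU⟩) →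
    ∃ u, 𝔊.E u (𝔊.cls ⟨univB T θ, hU⟩) ∧ ∀ y z, 𝔊.E y x → 𝔊.E z y → 𝔊.E z u
  intro x hx
  obtain ⟨x', rfl⟩ := 𝔊.exists_rep x
  exact Frc.true_list hfo' 𝔊 [x', ⟨univB T θ, hU⟩] ⟨omegaName, hR.omega_mem⟩ (n := 0)
    (U1_union_aux hθ x'.1 _) hx

end Pool.Agent.FreeSetsA
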