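import Pool.Agent.Lib_MP_bf47cd.V04
import Pool.Agent.Lib_MP_38e082_all.U1

/-!
# H26-U4: the ordinals in the universe of names of hereditary size less than `θ`

A port of `Lib_MP_bf47cd/V04.lean`; in `exists_rep_ordB` take
`Ω = checkSet {α | Cardinal.lift.{v+1} α.card < θ}`.
-/

set_option linter.unusedSectionVars false
set_option linter.unusedVariables false

namespace Pool.Agent.FreeSetsA

universe u v w

open Pool.Agent.Forcing Pool.Agent.Forcing.Name Pool.Agent.Inner Set Cardinal Pool.Agent.KT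
  Pool.Agent.KTM

variable {T : Type (v+1)} [Preorder T] [OrderTop T] {θ : Cardinal.{v+1}}

/-- canonical names of ordinals of size less than `θ` are equal to names in `HB θ` -/
theorem exists_SN_checkB (hθ : Inacc θ) (α : Ordinal.{v}) (hα : Cardinal.lift.{v+1} α.card < θ) :
    ∃ z : SN T, HB θ z ∧ ∀ q, feq (check α : Name T) z.toName q := by
  induction α using WellFoundedLT.induction with
  | ind α ih =>
    have hlt : ∀ β < α, Cardinal.lift.{v+1} β.card < θ := fun β hβ =>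
      (Cardinal.lift_le.2 (Ordinal.card_le_card hβ.le)).trans_lt hα
    choose z hzB hz using fun β hβ => ih β hβ (hlt β hβ)
    refine ⟨SN.mk (Shrink.{v} (Iio α)) (fun i => z ((equivShrink (Iio α)).symm i).1
      ((equivShrink (Iio α)).symm i).2) (fun _ => ⊤), HB_mk.2 ⟨?_, fun i => hzB _ _⟩, fun q => ?_⟩
    · have h1 : Cardinal.lift.{v+1} #(Shrink.{v} (Iio α)) = Cardinal.lift.{v+1} α.card := by
        have h2 : Cardinal.lift.{v+1} #(Shrink.{v} (Iio α)) = Cardinal.lift.{v} #(Iio α) :=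
          Cardinal.lift_mk_eq'.2 ⟨(equivShrink (Iio α)).symm⟩
        rw [h2, Cardinal.mk_Iio_ordinal, Cardinal.lift_lift]
      rw [h1]
      exact hα
    have key : ∀ (y : Name T) (q : T), fmem y (check α) q ↔ fmem y
        (SN.mk (Shrink.{v} (Iio α)) (fun i => z ((equivShrink (Iio α)).symm i).1
        ((equivShrink (Iio α)).symm i).2) (fun _ => ⊤) : SN T).toName q := by
      intro y q
      rw [check_eq, fmem_checkSet]
      change _ ↔ fmem y (Name.mk (ULift.{v+1} (Shrink.{v} (Iio α)))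
        (fun a => (z ((equivShrink (Iio α)).symm a.down).1
          ((equivShrink (Iio α)).symm a.down).2).toName) (fun _ => ⊤)) q
      rw [fmem_mk_top]
      constructor
      · intro h q' hq'
        obtain ⟨r, hr, β, hβ, h1⟩ := h q' hq'
        refine ⟨r, hr, ⟨equivShrink (Iio α) ⟨β, hβ⟩⟩, ?_⟩
        simp only [Equiv.symm_apply_apply]
        exact feq_trans h1 (hz β hβ r)
      · intro h q' hq'
        obtain ⟨r, hr, ⟨i⟩, h1⟩ := h q' hq'
        exact ⟨r, hr, _, ((equivShrink (Iio α)).symm i).2,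
          feq_trans h1 (feq_symm (hz _ ((equivShrink (Iio α)).symm i).2 r))⟩
    exact feq_of_forall (fun y q _ h => (key y q).1 h) (fun y q _ h => (key y q).2 h)

/-- a supremum of few small ordinals is small -/
private lemma U4_lsub_card (hθ : Inacc θ) {A : Type v} (hA : Cardinal.lift.{v+1} #A < θ)
    {ρ : A → Ordinal.{v}} (hρ : ∀ a, Cardinal.lift.{v+1} (ρ a).card < θ) :
    Cardinal.lift.{v+1} (Ordinal.lsub.{v, v} ρ).card < θ := by
  have h0 : Ordinal.lift.{v+1} (Ordinal.lsub.{v, v} ρ) ≤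
      Ordinal.lsub.{v, v+1} (fun a => Ordinal.lift.{v+1} (ρ a)) := by
    refine le_of_forall_lt fun x hx => ?_
    obtain ⟨y, rfl⟩ := Ordinal.mem_range_lift_of_le hx.le
    have hy : y < Ordinal.lsub.{v, v} ρ := Ordinal.lift_lt.1 hx
    rw [Ordinal.lt_lsub_iff] at hy
    obtain ⟨a, ha⟩ := hy
    exact lt_of_le_of_lt (Ordinal.lift_le.2 ha)
      (Ordinal.lt_lsub.{v, v+1} (fun a => Ordinal.lift.{v+1} (ρ a)) a)
  have h1 : Ordinal.lsub.{v, v+1} (fun a => Ordinal.lift.{v+1} (ρ a)) < θ.ord := by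
    refine Ordinal.lsub_lt_ord_lift ?_ fun a => ?_
    · rw [hθ.reg.cof_ord]
      exact hA
    · rw [Cardinal.lt_ord, ← Ordinal.lift_card]
      exact hρ a
  have h2 := h0.trans_lt h1
  rw [Cardinal.lt_ord, ← Ordinal.lift_card] at h2
  exact h2

/-- the rank of a name in `HB θ` -/
theorem exists_rkB (hθ : Inacc θ) (z : SN T) (hz : HB θ z) : ∃ ρ : Ordinal.{v},
    Cardinal.lift.{v+1} ρ.card < θ ∧ ∀ (α : Ordinal.{v}) (q : T),
      fmem (check α) z.toName q → α < ρ := by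
  induction z with
  | mk A x p ih =>
    obtain ⟨hA, hx⟩ := HB_mk.1 hz
    choose ρ hρB hρ using fun a => ih a (hx a)
    refine ⟨Ordinal.lsub.{v, v} ρ, U4_lsub_card hθ hA hρB, fun α q h => ?_⟩
    obtain ⟨r, hr, ⟨a⟩, h1, h2⟩ := h q le_rfl
    have h3 : feq (check α) (x a).toName r := h2
    refine lt_of_le_of_lt ?_ (Ordinal.lt_lsub ρ a)
    by_contra hc
    push Not at hc
    have h4 : fmem (check (ρ a) : Name T) (check α) r := by
      rw [check_eq α]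
      exact fmem_check_of_mem (mem_Iio.2 hc) r
    exact lt_irrefl _ (hρ a (ρ a) r (fmem_congr_right h3 h4))

/-- the ordinals of the universe are the canonical ones of size less than `θ` -/
theorem exists_rep_ordB (hθ : Inacc θ) {𝔊 : Gen T} (hF : Full Ordinal.{v} 𝔊)
    (h : univB T θ ∈ 𝔊.N) {x : 𝔊.M} (hx : IsOrd 𝔊.E x) (hxU : 𝔊.E x (𝔊.cls ⟨univB T θ, h⟩)) :
    ∃ α : Ordinal.{v}, Cardinal.lift.{v+1} α.card < θ ∧ Rep 𝔊 x (check α) := by
  -- a canonical element of the universe is small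
  have hsm : ∀ α : Ordinal.{v}, Rep 𝔊 x (check α) → Cardinal.lift.{v+1} α.card < θ := by
    intro α hα
    obtain ⟨z, hzB, x1, hx1, n1, hz⟩ := (E_univB hF.rich h).1 hxU
    obtain ⟨x2, hx2, n2, hα2⟩ := hα
    obtain ⟨ρ, hρB, hρ⟩ := exists_rkB hθ z hzB
    have hle : α ≤ ρ := by
      refine le_of_forall_lt fun β hβ => ?_
      have h12 : 𝔊.cls x1 = 𝔊.cls x2 := hx1.trans hx2.symm
      obtain ⟨n3, h3⟩ := (𝔊.cls_eq).1 h12
      have ha1 := feq_mono hz (𝔊.anti (le_max_left n1 (max n2 n3)))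
      have ha2 := feq_mono hα2 (𝔊.anti ((le_max_left n2 n3).trans (le_max_right n1 _)))
      have ha3 := feq_mono h3 (𝔊.anti ((le_max_right n2 n3).trans (le_max_right n1 _)))
      have ha4 : feq (check α : Name T) z.toName (𝔊.G (max n1 (max n2 n3))) :=
        feq_trans (feq_symm ha2) (feq_trans (feq_symm ha3) ha1)
      refine hρ β _ (fmem_congr_right ha4 ?_)
      rw [check_eq α]
      exact fmem_check_of_mem (mem_Iio.2 hβ) _
    exact (Cardinal.lift_le.2 (Ordinal.card_le_card hle)).trans_lt hρB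
  suffices hs : ∃ α : Ordinal.{v}, Rep 𝔊 x (check α) by
    obtain ⟨α, hα⟩ := hs
    exact ⟨α, hsm α hα, hα⟩
  obtain ⟨x', rfl⟩ := 𝔊.exists_rep x
  obtain ⟨n, ⟨α, hα⟩ | hn⟩ := hF.decC x'.1 x'.2
  · exact ⟨α, x', rfl, n, hα⟩
  exfalso
  have hfo : FO.{v+2} (fun _ E v => IsOrd E (v 0) ∧ E (v 0) (v 1)) :=
    FO.and (FOx.isOrd 0) (FO.mem _ _)
  obtain ⟨m, hm⟩ := (truth_list hfo 𝔊 [x', ⟨univB T θ, h⟩] ⟨omegaName, hF.rich.omega_mem⟩).1
    ⟨hx, hxU⟩
  obtain ⟨𝔊', hF', h0, hS⟩ := exists_full Ordinal.{v}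
    ({x'.1, univB T θ, checkSet {α : Ordinal.{v} | Cardinal.lift.{v+1} α.card < θ}} :
      Set (Name T)) (by simp) (𝔊.G (max n m))
  have hx'N : x'.1 ∈ 𝔊'.N := hS (by simp)
  have hUN : univB T θ ∈ 𝔊'.N := hS (by simp)
  have hON : (checkSet {α : Ordinal.{v} | Cardinal.lift.{v+1} α.card < θ} : Name T) ∈ 𝔊'.N :=
    hS (by simp)
  obtain ⟨h1, h2⟩ := (truth_list hfo 𝔊' [⟨x'.1, hx'N⟩, ⟨univB T θ, hUN⟩]
    ⟨omegaName, hF'.rich.omega_mem⟩).2 ⟨0, by
      rw [h0]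
      exact hm.mono (𝔊.anti (le_max_right _ _))⟩
  have h1' : IsOrd 𝔊'.E (𝔊'.cls ⟨x'.1, hx'N⟩) := h1
  have h2' : 𝔊'.E (𝔊'.cls ⟨x'.1, hx'N⟩) (𝔊'.cls ⟨univB T θ, hUN⟩) := h2
  -- the set of all small canonical ordinals is an ordinal
  have hO : IsOrd 𝔊'.E (𝔊'.cls ⟨checkSet {α : Ordinal.{v} | Cardinal.lift.{v+1} α.card < θ},
      hON⟩) := by
    refine ⟨?_, ?_⟩
    · intro y hy z hz
      obtain ⟨a, ha0, ha⟩ := (E_checkSet hF'.rich hON).1 hy
      obtain ⟨b, hb0, hb⟩ := (E_rep_check hF'.decC ha).1 hz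
      exact (E_checkSet hF'.rich hON).2 ⟨b,
        (Cardinal.lift_le.2 (Ordinal.card_le_card hb0.le)).trans_lt ha0, hb⟩
    · intro y hy z hz t ht
      obtain ⟨a, _, ha⟩ := (E_checkSet hF'.rich hON).1 hy
      obtain ⟨b, hb1, hb⟩ := (E_rep_check hF'.decC ha).1 hz
      obtain ⟨c, hc1, hc⟩ := (E_rep_check hF'.decC hb).1 ht
      exact (E_rep_check hF'.decC ha).2 ⟨c, hc1.trans hb1, hc⟩
  have hno : ¬ 𝔊'.E (𝔊'.cls ⟨checkSet {α : Ordinal.{v} | Cardinal.lift.{v+1} α.card < θ}, hON⟩)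
      (𝔊'.cls ⟨univB T θ, hUN⟩) := by
    intro hcon
    obtain ⟨z, hzB, hz⟩ := (E_univB hF'.rich hUN).1 hcon
    obtain ⟨k, hk⟩ := rep_cls_iff.1 hz
    obtain ⟨ρ, hρB, hρ⟩ := exists_rkB hθ z hzB
    have hρ0 : ρ ∈ {α : Ordinal.{v} | Cardinal.lift.{v+1} α.card < θ} := hρB
    exact lt_irrefl _ (hρ ρ (𝔊'.G k) (fmem_congr_right hk (fmem_check_of_mem hρ0 _)))
  have htr : ∀ x, 𝔊'.E x (𝔊'.cls ⟨univB T θ, hUN⟩) → ∀ y, 𝔊'.E y x →
      𝔊'.E y (𝔊'.cls ⟨univB T θ, hUN⟩) := by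
    have hfo' : FO.{v+2} (fun _ E v => ∀ x, E x (v 0) → ∀ y, E y x → E y (v 0)) :=
      FO.all (FO.imp (FO.mem _ _) (FO.all (FO.imp (FO.mem _ _) (FO.mem _ _))))
    exact (truth_list hfo' 𝔊' [⟨univB T θ, hUN⟩] ⟨omegaName, hF'.rich.omega_mem⟩).2
      ⟨0, frc_transB _⟩
  rcases V04_trich hF'.rich.zfc h1' hO with h3 | h3 | h3
  · obtain ⟨α, _, hα⟩ := (E_checkSet hF'.rich hON).1 h3
    obtain ⟨k, hk⟩ := rep_cls_iff.1 hα
    refine hn α (𝔊'.G k) ?_ hk
    exact ((𝔊'.anti (Nat.zero_le k)).trans h0.le).trans (𝔊.anti (le_max_left _ _))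
  · exact hno (h3 ▸ h2')
  · exact hno (htr _ h2' _ h3)

end Pool.Agent.FreeSetsA
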