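import Pool.Agent.Lib_MP_38e082_all.M5
import Pool.Agent.Lib_MP_38e082_all.M6
import Pool.Agent.Lib_MP_38e082_all.U3
import Pool.Agent.Lib_MP_38e082_all.U4
import Pool.Agent.Lib_MP_bf47cd.V13

/-!
# H26-M7: the model from the interface

As in `exists_modelGCH` (`Lib_MP_bf47cd/V13.lean`): a full generic model `𝔊` containing `univB T θ`, cut
at its universe `U`. GCH: the same proof (`frc_gch`, `exists_rep_ordB`, `cut_ontoPow`). The last clause: by
`cut_singC` and `cut_isSuccCard` the elements `m`, `l`, `k` have the properties in `𝔊`; they are ordinals in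
`U`, so they are canonical of size less than `θ` (`exists_rep_ordB`; `#(Iio α) = lift α.card` for ordinals);
`frc_counter` (with `frc_congr_list` and `Frc.true_list`) gives `f` in `𝔊`, and `cut_counter` an `f` in the
cut. -/

set_option linter.unusedSectionVars false
set_option linter.unusedVariables false

namespace Pool.Agent.FreeSetsA

universe u v

open Pool.Agent.Forcing Pool.Agent.Forcing.Name Pool.Agent.Inner Set Cardinal Pool.Agent.KT
  Pool.Agent.KTM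

theorem exists_modelA {T : Type (v+1)} [Preorder T] [OrderTop T]
    {a τ : Ordinal.{v} → Ordinal.{v}} {Λ w : Ordinal.{v}} {θ : Cardinal.{v+1}} (hθ : Inacc θ)
    (hI : FIface T Ordinal.{v} a τ Λ w θ) {eN : ULift.{v+1} ℕ → Ordinal.{v}}
    (hN : StrictMono eN) (hNr : range eN = Iio w) (hpool : SmallPoolB θ T) (hg : GchP T w) :
    ∃ (M : Type (v+2)) (E : M → M → Prop), ModelsZFC E ∧ OmegaModel E ∧ GCH E ∧
      ∀ m l k : M, SingC E m l → IsSuccCard E l k → ∃ f, Counter E m l k f := by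
  have hrefl : (checkSet (range eN) : Name T) = check w := by
    rw [check_eq, hNr]
  obtain ⟨𝔊, hF, _, hSN⟩ := exists_full Ordinal.{v} ({checkSet (range eN),
    univB T θ} : Set (Name T)) (by simp) ⊤
  have m0 : (checkSet (range eN) : Name T) ∈ 𝔊.N := hSN (by simp)
  have m4 : univB T θ ∈ 𝔊.N := hSN (by simp)
  have hR := hF.rich
  have hE : ModelsZFC 𝔊.E := hR.zfc
  have hU : IsUniv 𝔊.E (𝔊.cls ⟨univB T θ, m4⟩) :=
    Frc.true_list (FOx.isUniv 0) 𝔊 [⟨_, m4⟩] ⟨omegaName, hR.omega_mem⟩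
      (frc_isUnivB hθ hpool (𝔊.G 0))
  have c0 : Rep 𝔊 (𝔊.cls ⟨_, m0⟩) (check w) := by
    rw [← hrefl]; exact rep_self m0
  have d0 : IsOmega 𝔊.E (𝔊.cls ⟨_, m0⟩) := isOmega_rep hF hN hNr (rep_self m0)
  refine ⟨_, cut 𝔊.E (𝔊.cls ⟨univB T θ, m4⟩), cut_modelsZFC hE hU, cut_omegaModel hE hU
    ⟨hR.om, fun x => ?_⟩, ?_, ?_⟩
  · rw [hR.mem_om]
    exact exists_congr fun n => (Gen.isNum_num hR.num_mem n x).symm
  · -- GCH
    intro l k hl hk
    rw [cut_isInfCard hE hU] at hl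
    rw [cut_isSuccCard hE hU] at hk
    obtain ⟨α, -, hα⟩ := exists_rep_ordB hθ hF m4 hl.1.1 l.2
    have hle : w ≤ α := by
      by_contra hlt
      rw [not_le] at hlt
      have h1 : 𝔊.E l.1 (𝔊.cls ⟨_, m0⟩) :=
        (E_rep_check hF.decC c0).2 ⟨α, hlt, hα⟩
      obtain ⟨w', hw, hw2⟩ := hl.2
      have h2 := V.omega_uniq hE hw d0
      subst h2
      rcases hw2 with h3 | h3
      · rw [← h3] at h1; exact V.not_E_self hE _ h1
      · exact V.not_E_two hE h1 h3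
    obtain ⟨l', hl'⟩ := 𝔊.exists_rep l.1
    rw [← hl'] at hα
    obtain ⟨n, hn⟩ := rep_cls_iff.1 hα
    have hfo : FO.{v+2} (fun _ E v => IsCard E (v 0) → ∀ k, IsSuccCard E (v 0) k →
        ∃ s, OntoPow E s k (v 0)) :=
      FO.imp (FOx.isCard _) (FO.all (FO.imp (FOx.isSuccCard _ _) (FO.ex (FOx.ontoPow _ _ _))))
    have hfr : Frc (fun _ E v => IsCard E (v 0) → ∀ k, IsSuccCard E (v 0) k →
        ∃ s, OntoPow E s k (v 0)) (ev omegaName [l'.1]) (𝔊.G n) := by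
      refine frc_congr_list (l := [check α]) ?_ (frc_gch hg hle (𝔊.G n))
      exact List.Forall₂.cons (feq_symm hn) List.Forall₂.nil
    have h4 := Frc.true_list hfo 𝔊 [l'] ⟨omegaName, hR.omega_mem⟩ hfr
    change IsCard 𝔊.E (𝔊.cls l') → ∀ k, IsSuccCard 𝔊.E (𝔊.cls l') k →
      ∃ s, OntoPow 𝔊.E s k (𝔊.cls l') at h4
    rw [hl'] at h4
    obtain ⟨s, hs⟩ := h4 hl.1 k.1 hk
    exact cut_ontoPow hE hU k l hs
  · -- the counterexamples
    intro m l k hm hk
    rw [cut_singC hE hU] at hm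
    rw [cut_isSuccCard hE hU] at hk
    obtain ⟨δ, -, hδ⟩ := exists_rep_ordB hθ hF m4 hm.1.1.1 m.2
    obtain ⟨α, hαθ, hα⟩ := exists_rep_ordB hθ hF m4 hm.2.1.1 l.2
    obtain ⟨α', -, hα'⟩ := exists_rep_ordB hθ hF m4 hk.1.1 k.2
    have hcard : #(Iio α) < θ := by
      rw [Cardinal.mk_Iio_ordinal]
      exact hαθ
    obtain ⟨m', hm'⟩ := 𝔊.exists_rep m.1
    obtain ⟨l', hl'⟩ := 𝔊.exists_rep l.1
    obtain ⟨k', hk'⟩ := 𝔊.exists_rep k.1
    rw [← hm'] at hδ
    rw [← hl'] at hα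
    rw [← hk'] at hα'
    obtain ⟨n1, hn1⟩ := rep_cls_iff.1 hδ
    obtain ⟨n2, hn2⟩ := rep_cls_iff.1 hα
    obtain ⟨n3, hn3⟩ := rep_cls_iff.1 hα'
    set n := max n1 (max n2 n3) with hn
    have g1 : feq m'.1 (check δ) (𝔊.G n) := feq_mono hn1 (𝔊.anti (le_max_left _ _))
    have g2 : feq l'.1 (check α) (𝔊.G n) :=
      feq_mono hn2 (𝔊.anti ((le_max_left _ _).trans (le_max_right _ _)))
    have g3 : feq k'.1 (check α') (𝔊.G n) :=
      feq_mono hn3 (𝔊.anti ((le_max_right _ _).trans (le_max_right _ _)))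
    have hfo : FO.{v+2} (fun _ E v => SingC E (v 0) (v 1) → IsSuccCard E (v 1) (v 2) →
        ∃ f, Counter E (v 0) (v 1) (v 2) f) :=
      FO.imp (FOA.singC 0 1) (FO.imp (FOx.isSuccCard 1 2) (FO.ex (FOA.counter _ _ _ _)))
    have hfr : Frc (fun _ E v => SingC E (v 0) (v 1) → IsSuccCard E (v 1) (v 2) →
        ∃ f, Counter E (v 0) (v 1) (v 2) f) (ev omegaName [m'.1, l'.1, k'.1]) (𝔊.G n) := by
      refine frc_congr_list (l := [check δ, check α, check α']) ?_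
        (frc_counter hI hN hNr hcard (𝔊.G n))
      exact List.Forall₂.cons (feq_symm g1) (List.Forall₂.cons (feq_symm g2)
        (List.Forall₂.cons (feq_symm g3) List.Forall₂.nil))
    have h4 := Frc.true_list hfo 𝔊 [m', l', k'] ⟨omegaName, hR.omega_mem⟩ hfr
    change SingC 𝔊.E (𝔊.cls m') (𝔊.cls l') → IsSuccCard 𝔊.E (𝔊.cls l') (𝔊.cls k') →
      ∃ f, Counter 𝔊.E (𝔊.cls m') (𝔊.cls l') (𝔊.cls k') f at h4
    rw [hm', hl', hk'] at h4
    obtain ⟨f, hf⟩ := h4 hm hk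
    exact cut_counter hE hU hk.1.1 hf

end Pool.Agent.FreeSetsA
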