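import Pool.Agent.Lib_MP_38e082_all.UDefs

/-!
# H26-Q0: the least inaccessible cardinal of `Type (v+1)`
-/

set_option linter.unusedSectionVars false
set_option linter.unusedVariables false

namespace Pool.Agent.FreeSetsA

universe u v

open Set Cardinal

theorem exists_theta : ∃ θ : Cardinal.{v+1}, Inacc θ ∧ NoInacc θ ∧ θ ≤ Cardinal.univ.{v, v+1} := by
  have hne : {c : Cardinal.{v+1} | c.IsInaccessible}.Nonempty :=
    ⟨Cardinal.univ.{v, v+1}, IsInaccessible.univ⟩
  refine ⟨sInf {c : Cardinal.{v+1} | c.IsInaccessible}, ?_, ?_, ?_⟩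
  · have h : (sInf {c : Cardinal.{v+1} | c.IsInaccessible}).IsInaccessible := csInf_mem hne
    exact ⟨h.aleph0_lt, h.isRegular, fun x hx => h.isStrongPrelimit hx⟩
  · intro x hx h0 hr
    by_contra hcon
    push Not at hcon
    have h1 : x.IsInaccessible := ⟨h0, hr.2, fun y hy => hcon y hy⟩
    exact absurd (csInf_le' (s := {c : Cardinal.{v+1} | c.IsInaccessible}) h1) (not_le.2 hx)
  · exact csInf_le' (s := {c : Cardinal.{v+1} | c.IsInaccessible}) IsInaccessible.univ

end Pool.Agent.FreeSetsA
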