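import Pool.Agent.Lib_MP_38e082_all.UDefs
import Mathlib.SetTheory.Cardinal.Regular
import Mathlib.SetTheory.Cardinal.Aleph

/-!
# H26-Q1: the parameters of the product of collapses
-/

set_option linter.unusedSectionVars false
set_option linter.unusedVariables false

namespace Pool.Agent.FreeSetsA

universe u v

open Set Cardinal Ordinal Pool.Agent.KT Pool.Agent.KTM

/-! ### cardinals -/

/-- a strong limit cardinal of cofinality `r` -/
private noncomputable def Q1_bt (r : Cardinal.{v}) : Cardinal.{v} := preBeth (r.ord + r.ord)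

private lemma Q1_lim {r : Cardinal.{v}} (hr : r.IsRegular) :
    Order.IsSuccLimit (r.ord + r.ord) := by
  have h := isSuccLimit_ord hr.aleph0_le
  exact (Ordinal.isSuccLimit_add_iff_of_isSuccLimit h).2 h.isSuccPrelimit

private lemma Q1_lt_bt {r : Cardinal.{v}} (hr : r.IsRegular) : r < Q1_bt r := by
  have h1 : r ≤ preBeth r.ord := le_preBeth_ord r
  refine h1.trans_lt (preBeth_strictMono ?_)
  exact lt_add_of_pos_right _ hr.ord_pos

private lemma Q1_bt_strong {r : Cardinal.{v}} (hr : r.IsRegular) : IsStrongLimit (Q1_bt r) :=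
  isStrongLimit_preBeth.2 (Q1_lim hr)

private lemma Q1_cof_preBeth {o : Ordinal.{v}} (ho : Order.IsSuccLimit o) :
    (preBeth o).ord.cof = o.cof := by
  have h : Order.IsNormal (fun o : Ordinal.{v} => (preBeth o).ord) :=
    isNormal_ord.comp isNormal_preBeth
  exact cof_map_of_isNormal h ho

private lemma Q1_bt_cof {r : Cardinal.{v}} (hr : r.IsRegular) : (Q1_bt r).ord.cof = r := by
  have h3 : (r.ord + r.ord).cof = r := by
    rw [cof_add _ hr.ord_pos.ne', hr.cof_ord]
  exact (Q1_cof_preBeth (Q1_lim hr)).trans h3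

/-- powers of a strong limit with exponents below the cofinality -/
private lemma Q1_pow {k x : Cardinal.{v}} (hk : IsStrongLimit k) (hx : x < k.ord.cof) :
    k ^ x ≤ k := by
  have hinf := hk.aleph0_le
  have hxk : x < k := hx.trans_le (Ordinal.cof_ord_le k)
  rcases eq_or_ne x 0 with rfl | hx0
  · rw [power_zero]
    exact one_le_aleph0.trans hinf
  have hcard : #(x.out × k.out) = k := by
    rw [mk_prod, Cardinal.lift_id, Cardinal.lift_id, mk_out, mk_out]
    apply le_antisymm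
    · exact (mul_le_mul' hxk.le le_rfl).trans (mul_eq_self hinf).le
    · exact le_mul_of_one_le_left zero_le (Cardinal.one_le_iff_ne_zero.2 hx0)
  have h1 := mk_subset_mk_lt_cof (α := x.out × k.out) (by rw [hcard]; exact hk.isStrongPrelimit)
  rw [hcard] at h1
  calc k ^ x = #(x.out → k.out) := by rw [← power_def, mk_out, mk_out]
    _ ≤ #{s : Set (x.out × k.out) // #s < k.ord.cof} := by
      refine mk_le_of_injective (f := fun f => ⟨range fun i => (i, f i), ?_⟩) ?_
      · refine mk_range_le.trans_lt ?_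
        rw [mk_out]; exact hx
      · intro f g h
        funext i
        have h3 : (range fun i => (i, f i)) = range fun i => (i, g i) := congrArg Subtype.val h
        have h2 : (i, f i) ∈ range fun i => (i, g i) := by
          rw [← h3]
          exact ⟨i, rfl⟩
        obtain ⟨j, hj⟩ := h2
        simp only [Prod.mk.injEq] at hj
        rw [← hj.2, hj.1]
    _ = k := h1

/-- the cardinals `k β` -/
private noncomputable def Q1_k (β : Ordinal.{v}) : Cardinal.{v} :=
  if β = 0 then ℶ_ ω else Q1_bt (Order.succ (⨆ γ : Iio β, Q1_k γ.1))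
termination_by β
decreasing_by exact γ.2

/-- the cardinals `s β` -/
private noncomputable def Q1_s (β : Ordinal.{v}) : Cardinal.{v} := ⨆ γ : Iio β, Q1_k γ.1

private lemma Q1_k_zero : Q1_k.{v} 0 = ℶ_ ω := by
  rw [Q1_k]
  simp

private lemma Q1_k_of_ne {β : Ordinal.{v}} (hβ : β ≠ 0) :
    Q1_k β = Q1_bt (Order.succ (Q1_s β)) := by
  rw [Q1_k, if_neg hβ]
  rfl

/-- the ordinals `a β` -/
private noncomputable def Q1_a (β : Ordinal.{v}) : Ordinal.{v} :=
  if β = 0 then (ℶ_ ω : Cardinal.{v}).ord else (Order.succ (Q1_s β)).ord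

/-- the ordinals `c β` -/
private noncomputable def Q1_c (β : Ordinal.{v}) : Ordinal.{v} :=
  if β = 0 then 0 else (Q1_k β).ord

/-- the ordinals `τ β` -/
private noncomputable def Q1_t (β : Ordinal.{v}) : Ordinal.{v} := ⨆ γ : Iio β, Q1_a γ.1

private lemma Q1_bdd (β : Ordinal.{v}) : BddAbove (range fun γ : Iio β => Q1_k γ.1) :=
  Cardinal.bddAbove_of_small

private lemma Q1_k_le_s {γ β : Ordinal.{v}} (h : γ < β) : Q1_k γ ≤ Q1_s β :=
  le_ciSup (Q1_bdd β) ⟨γ, h⟩

private lemma Q1_aleph0_le_beth : ℵ₀ ≤ (ℶ_ ω : Cardinal.{v}) := aleph0_le_beth _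

private lemma Q1_inf_s {β : Ordinal.{v}} (hβ : β ≠ 0) : ℵ₀ ≤ Q1_s β := by
  have h := Q1_k_le_s (pos_iff_ne_zero.2 hβ)
  rw [Q1_k_zero] at h
  exact Q1_aleph0_le_beth.trans h

private lemma Q1_reg {β : Ordinal.{v}} (hβ : β ≠ 0) : (Order.succ (Q1_s β)).IsRegular :=
  isRegular_succ (Q1_inf_s hβ)

private lemma Q1_succ_lt {β : Ordinal.{v}} (hβ : β ≠ 0) : Order.succ (Q1_s β) < Q1_k β := by
  rw [Q1_k_of_ne hβ]
  exact Q1_lt_bt (Q1_reg hβ)

private lemma Q1_s_lt {β : Ordinal.{v}} (hβ : β ≠ 0) : Q1_s β < Q1_k β :=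
  (Order.lt_succ _).trans (Q1_succ_lt hβ)

private lemma Q1_k_lt {γ β : Ordinal.{v}} (h : γ < β) : Q1_k γ < Q1_k β :=
  (Q1_k_le_s h).trans_lt (Q1_s_lt (ne_bot_of_gt h))

private lemma Q1_k_mono {γ β : Ordinal.{v}} (h : γ ≤ β) : Q1_k γ ≤ Q1_k β := by
  rcases h.lt_or_eq with h | h
  · exact (Q1_k_lt h).le
  · rw [h]

private lemma Q1_k_strong (β : Ordinal.{v}) : IsStrongLimit (Q1_k β) := by
  rcases eq_or_ne β 0 with rfl | hβ
  · rw [Q1_k_zero, isStrongLimit_beth]
    exact isSuccLimit_omega0.isSuccPrelimit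
  · rw [Q1_k_of_ne hβ]
    exact Q1_bt_strong (Q1_reg hβ)

private lemma Q1_beth_sing : ¬ (ℶ_ ω : Cardinal.{v}).IsRegular := by
  intro h
  have h1 := h.cof_ord
  rw [beth_eq_preBeth, Q1_cof_preBeth (by
    exact (Ordinal.isSuccLimit_add_iff_of_isSuccLimit isSuccLimit_omega0).2
      isSuccLimit_omega0.isSuccPrelimit), cof_add _ omega0_ne_zero, cof_omega0,
    ← beth_eq_preBeth] at h1
  have h2 : (ℶ_ 0 : Cardinal.{v}) < ℶ_ ω := beth_strictMono omega0_pos
  rw [beth_zero, ← h1] at h2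
  exact lt_irrefl _ h2

private lemma Q1_k_sing (β : Ordinal.{v}) : ¬ (Q1_k β).IsRegular := by
  rcases eq_or_ne β 0 with rfl | hβ
  · rw [Q1_k_zero]
    exact Q1_beth_sing
  · intro h
    have h1 := h.cof_ord
    rw [Q1_k_of_ne hβ, Q1_bt_cof (Q1_reg hβ), ← Q1_k_of_ne hβ] at h1
    exact absurd h1 (Q1_succ_lt hβ).ne

private lemma Q1_card_le (β : Ordinal.{v}) : β.card ≤ Q1_k β := by
  have h : StrictMono fun β : Ordinal.{v} => (Q1_k β).ord :=
    fun x y hxy => Cardinal.ord_lt_ord.2 (Q1_k_lt hxy)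
  have h2 : β ≤ (Q1_k β).ord := h.le_apply
  simpa using Ordinal.card_le_card h2

private lemma Q1_a_zero : Q1_a.{v} 0 = (ℶ_ ω : Cardinal.{v}).ord := by simp [Q1_a]

private lemma Q1_a_of_ne {β : Ordinal.{v}} (hβ : β ≠ 0) :
    Q1_a β = (Order.succ (Q1_s β)).ord := by simp [Q1_a, hβ]

private lemma Q1_c_of_ne {β : Ordinal.{v}} (hβ : β ≠ 0) : Q1_c β = (Q1_k β).ord := by
  simp [Q1_c, hβ]

private lemma Q1_mk (x : Ordinal.{v}) : #(Iio x) = Cardinal.lift.{v+1} x.card := by
  simp

/-- `a β ≤ k β` -/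
private lemma Q1_a_card_le (β : Ordinal.{v}) : (Q1_a β).card ≤ Q1_k β := by
  rcases eq_or_ne β 0 with rfl | hβ
  · rw [Q1_a_zero, Q1_k_zero, card_ord]
  · rw [Q1_a_of_ne hβ, card_ord]
    exact (Q1_succ_lt hβ).le

private lemma Q1_a_strictMono : StrictMono Q1_a.{v} := by
  intro γ β h
  have hβ : β ≠ 0 := ne_bot_of_gt h
  rw [Q1_a_of_ne hβ, lt_ord, Order.lt_succ_iff]
  exact (Q1_a_card_le γ).trans (Q1_k_le_s h)

private lemma Q1_le_a (β : Ordinal.{v}) : β ≤ Q1_a β := Q1_a_strictMono.le_apply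

private lemma Q1_card_le_s {β : Ordinal.{v}} (hβ : β ≠ 0) : β.card ≤ Q1_s β := by
  by_contra hc
  push Not at hc
  have h0 := Q1_inf_s hβ
  have h1 : Order.succ (Q1_s β).ord < β := by
    have h2 : (Order.succ (Q1_s β).ord).card < β.card := by
      rw [Order.succ_eq_add_one, Ordinal.card_add, Cardinal.card_ord, Ordinal.card_one,
        Cardinal.add_one_eq h0]
      exact hc
    exact lt_of_not_ge fun h => absurd (Ordinal.card_le_card h) (not_le.2 h2)
  have h3 := Q1_k_le_s h1
  have h4 : Q1_k (Q1_s β).ord < Q1_k (Order.succ (Q1_s β).ord) := Q1_k_lt (Order.lt_succ _)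
  have h5 := Q1_card_le (Q1_s β).ord
  rw [Cardinal.card_ord] at h5
  exact absurd (h5.trans_lt (h4.trans_le h3)) (lt_irrefl _)

private lemma Q1_s_succ (γ : Ordinal.{v}) : Q1_s (Order.succ γ) = Q1_k γ := by
  apply le_antisymm
  · exact ciSup_le' fun δ => Q1_k_mono (Order.lt_succ_iff.1 δ.2)
  · exact Q1_k_le_s (Order.lt_succ γ)

private lemma Q1_lt_t {β x : Ordinal.{v}} : x < Q1_t β ↔ ∃ γ < β, x < Q1_a γ := by
  rw [Q1_t, Ordinal.lt_iSup_iff]
  constructor
  · rintro ⟨γ, h⟩
    exact ⟨γ.1, γ.2, h⟩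
  · rintro ⟨γ, h1, h2⟩
    exact ⟨⟨γ, h1⟩, h2⟩

private lemma Q1_t_succ (γ : Ordinal.{v}) : Q1_t (Order.succ γ) = Q1_a γ := by
  apply le_antisymm
  · refine le_of_forall_lt fun x hx => ?_
    obtain ⟨δ, h1, h2⟩ := Q1_lt_t.1 hx
    exact h2.trans_le (Q1_a_strictMono.monotone (Order.lt_succ_iff.1 h1))
  · exact le_of_forall_lt fun x hx => Q1_lt_t.2 ⟨γ, Order.lt_succ γ, hx⟩

private lemma Q1_lt_s {β : Ordinal.{v}} (hβ : β ≠ 0) {x : Cardinal.{v}} (h : x < Q1_s β) :
    ∃ γ < β, x < Q1_k γ := by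
  have hne : Nonempty (Iio β) := ⟨⟨0, pos_iff_ne_zero.2 hβ⟩⟩
  obtain ⟨γ, hγ⟩ := (lt_ciSup_iff (Q1_bdd β)).1 h
  exact ⟨γ.1, γ.2, hγ⟩

/-- the cardinals `k β` are small -/
private lemma Q1_k_lt_inacc {θ : Cardinal.{v}} (hθ : θ.IsInaccessible) (β : Ordinal.{v}) :
    β.card < θ → Q1_k β < θ := by
  induction β using WellFoundedLT.induction with
  | ind β ih =>
    intro hβ
    have hθs : IsStrongLimit θ := hθ.isStrongLimit
    have hθr : θ.IsRegular := hθ.isRegular
    have hpb : ∀ o : Ordinal.{v}, o < θ.ord → preBeth o < θ := by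
      intro o ho
      rw [← hθ.preBeth_ord]
      exact preBeth_strictMono ho
    rcases eq_or_ne β 0 with rfl | hβ0
    · rw [Q1_k_zero, beth_eq_preBeth]
      refine hpb _ ?_
      rw [lt_ord]
      refine lt_of_le_of_lt ?_ hθ.aleph0_lt
      rw [Ordinal.card_add, card_omega0, aleph0_add_aleph0]
    · have hs : Q1_s β < θ := by
        unfold Q1_s
        have h1 : ∀ γ : Iio β, Q1_k γ.1 < θ := fun γ =>
          ih γ.1 γ.2 ((Ordinal.card_le_card (le_of_lt γ.2)).trans_lt hβ)
        refine Cardinal.lift_iSup_lt_of_lt_cof_ord ?_ h1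
        rw [Q1_mk, hθr.lift.cof_ord]
        have h : Cardinal.lift.{v+1} β.card < Cardinal.lift.{v+1} θ := Cardinal.lift_lt.2 hβ
        simpa using h
      rw [Q1_k_of_ne hβ0]
      refine hpb _ ?_
      have h2 : Order.succ (Q1_s β) < θ := hθs.isSuccLimit.succ_lt hs
      rw [lt_ord, Ordinal.card_add, card_ord]
      exact add_lt_of_lt hθr.aleph0_le h2 h2

/-- **The parameters exist.** -/
theorem exists_sysF (P : Type (v+1)) [Preorder P] (hP : #P ≤ Cardinal.lift.{v+1, v} (ℶ_ ω)) :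
    ∃ (σ κ : Ordinal.{v} → Cardinal.{v+1}) (a c τ : Ordinal.{v} → Ordinal.{v}),
      SysF Ordinal.{v} P σ κ a c τ (ℶ_ ω : Cardinal.{v}).ord ∧
      κ ⊥ = Cardinal.lift.{v+1, v} (ℶ_ ω) ∧
      ∀ θ : Cardinal.{v+1}, Inacc θ → θ ≤ Cardinal.univ.{v, v+1} → ∀ A : Type v,
        Cardinal.lift.{v+1} #A < θ → ∃ γ, Cardinal.lift.{v+1} #A ≤ κ γ ∧ κ γ < θ := by
  have hlim : ∀ {β : Ordinal.{v}}, Lim β ↔ Order.IsSuccLimit β := by
    intro β
    constructor
    · rintro ⟨h1, h2⟩
      refine ⟨fun h => h1 (isMin_iff_eq_bot.1 h), ?_⟩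
      rintro γ hγ
      obtain ⟨γ', h3, h4⟩ := h2 γ hγ.1
      exact hγ.2 h4 h3
    · intro h
      exact ⟨h.bot_lt.ne', fun γ hγ => ⟨Order.succ γ, h.succ_lt hγ, Order.lt_succ γ⟩⟩
  have hτ : ∀ {β : Ordinal.{v}}, Order.IsSuccLimit β →
      Q1_s β ≤ (Q1_t β).card := by
    intro β hβ
    refine ciSup_le' fun γ => ?_
    have h1 : Order.succ γ.1 < β := hβ.succ_lt γ.2
    have h2 : Q1_a (Order.succ γ.1) ≤ Q1_t β :=
      le_of_forall_lt fun x hx => Q1_lt_t.2 ⟨_, h1, hx⟩
    have h3 := Ordinal.card_le_card h2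
    rw [Q1_a_of_ne (Order.succ_ne_bot γ.1), Q1_s_succ, Cardinal.card_ord] at h3
    exact (Order.le_succ _).trans h3
  have hcases : ∀ β : Ordinal.{v}, β ≠ ⊥ → Order.IsSuccLimit β ∨ ∃ γ, β = Order.succ γ := by
    intro β hβ
    rcases Ordinal.zero_or_succ_or_isSuccLimit β with h | ⟨γ, h⟩ | h
    · exact absurd h hβ
    · exact Or.inr ⟨γ, h.symm⟩
    · exact Or.inl h
  refine ⟨fun β => Cardinal.lift.{v+1} (Q1_s β), fun β => Cardinal.lift.{v+1} (Q1_k β),
    Q1_a, Q1_c, Q1_t, ?_, ?_, ?_⟩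
  · constructor
    case toSysG =>
      constructor
      case toSys =>
        constructor
        case a_pos =>
          intro γ
          rw [Ordinal.bot_eq_zero]
          rcases eq_or_ne γ 0 with rfl | hγ
          · rw [Q1_a_zero, pos_iff_ne_zero, Ne, Cardinal.ord_eq_zero]
            exact (Cardinal.aleph0_pos.trans_le Q1_aleph0_le_beth).ne'
          · rw [Q1_a_of_ne hγ, pos_iff_ne_zero, Ne, Cardinal.ord_eq_zero]
            exact (bot_lt_iff_ne_bot.1 (Order.bot_lt_succ _))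
        case c_bot =>
          rw [Ordinal.bot_eq_zero]
          simp [Q1_c]
        case inf =>
          intro γ
          exact Cardinal.aleph0_le_lift.2 (Q1_k_strong γ).aleph0_le
        case P_le =>
          simp only [Ordinal.bot_eq_zero, Q1_k_zero]
          exact hP
        case a_le =>
          intro γ
          rw [Q1_mk, Cardinal.lift_le]
          exact Q1_a_card_le γ
        case c_le =>
          intro γ
          rw [Q1_mk, Cardinal.lift_le]
          rcases eq_or_ne γ 0 with rfl | hγ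
          · simp [Q1_c]
          · rw [Q1_c_of_ne hγ, Cardinal.card_ord]
        case seg_le =>
          intro γ hγ
          rw [Ordinal.bot_eq_zero] at hγ
          rw [Q1_mk, Cardinal.lift_le]
          exact Q1_card_le_s hγ
        case κ_le =>
          intro γ ξ h
          exact Cardinal.lift_le.2 (Q1_k_le_s h)
        case κ_pow =>
          intro γ hγ
          rw [Ordinal.bot_eq_zero] at hγ
          rw [← Cardinal.lift_power, Cardinal.lift_le]
          refine Q1_pow (Q1_k_strong γ) ?_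
          rw [Q1_k_of_ne hγ, Q1_bt_cof (Q1_reg hγ)]
          exact Order.lt_succ _
        case bdd =>
          intro γ hγ s hs h
          rw [Ordinal.bot_eq_zero] at hγ
          rw [Q1_a_of_ne hγ] at h ⊢
          obtain ⟨d, hd2, hd1⟩ := Cardinal.le_lift_iff.1 hs
          have hreg := Q1_reg hγ
          obtain ⟨e⟩ : Nonempty (ULift.{v+1} d.out ≃ s) := by
            rw [← Cardinal.eq, Cardinal.mk_uLift, Cardinal.mk_out]
            exact hd1
          refine ⟨⨆ i : d.out, Order.succ (e ⟨i⟩).1, ?_, ?_⟩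
          · apply Ordinal.iSup_lt_of_lt_cof
            · rw [hreg.cof_ord, Cardinal.mk_out]
              exact Order.lt_succ_of_le hd2
            · intro i
              exact (Cardinal.isSuccLimit_ord hreg.aleph0_le).succ_lt (h _ (e ⟨i⟩).2)
          · intro x hx
            have h3 : Order.succ x ≤ ⨆ i : d.out, Order.succ (e ⟨i⟩).1 := by
              have h4 := Ordinal.le_iSup (fun i : d.out => Order.succ (e ⟨i⟩).1)
                (e.symm ⟨x, hx⟩).down
              rwa [show (⟨(e.symm ⟨x, hx⟩).down⟩ : ULift.{v+1} d.out) = e.symm ⟨x, hx⟩ from rfl,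
                Equiv.apply_symm_apply] at h4
            exact (Order.lt_succ x).trans_le h3
        case seg_a =>
          intro γ hγ x hx
          rw [Ordinal.bot_eq_zero] at hγ
          rw [Q1_a_of_ne hγ, Cardinal.lt_ord, Order.lt_succ_iff] at hx
          rw [Q1_mk, Cardinal.lift_le]
          exact hx
      case τ_lt =>
        intro β _ x
        exact Q1_lt_t
      case cnt =>
        intro β hβ
        rw [Ordinal.bot_eq_zero] at hβ
        rw [Q1_mk, Q1_c_of_ne hβ, Cardinal.card_ord, ← Cardinal.lift_two_power,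
          Cardinal.lift_le]
        exact ((Q1_k_strong β).isStrongPrelimit (Q1_s_lt hβ)).le
      case inj =>
        intro β hβ
        rcases hcases β hβ with h | ⟨γ, rfl⟩
        · left
          rw [Q1_mk, Cardinal.lift_le]
          exact hτ h
        · rcases eq_or_ne γ 0 with rfl | hγ
          · left
            rw [Q1_s_succ, Q1_t_succ, Q1_mk, Q1_a_zero, Q1_k_zero, Cardinal.card_ord]
          · right
            refine ⟨γ, by rwa [Ordinal.bot_eq_zero], Q1_t_succ γ, ?_⟩
            rw [Q1_s_succ, Q1_mk, Q1_c_of_ne hγ, Cardinal.card_ord]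
      case cov =>
        intro α hα
        have hex : ∃ β, α < Q1_a β :=
          ⟨Order.succ α, (Order.lt_succ α).trans_le (Q1_le_a _)⟩
        obtain ⟨β, h1, h2⟩ := WellFounded.has_min (wellFounded_lt (α := Ordinal.{v}))
          {β | α < Q1_a β} hex
        refine ⟨β, ?_, ?_, h1⟩
        · rw [Ordinal.bot_eq_zero]
          rintro rfl
          simp only [mem_ofPred_eq, Q1_a_zero] at h1
          exact absurd hα (not_le.2 h1)
        · refine le_of_not_gt fun h3 => ?_
          obtain ⟨γ, h4, h5⟩ := Q1_lt_t.1 h3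
          exact h2 γ h5 h4
    case a_bot => exact Q1_a_zero
    case Λ_card =>
      simp only [Ordinal.bot_eq_zero, Q1_k_zero]
      rw [Q1_mk, card_ord]
    case a_card =>
      intro β hβ
      rw [Ordinal.bot_eq_zero] at hβ
      rw [Q1_mk, Cardinal.lift_lt, Q1_a_of_ne hβ, card_ord]
      exact Order.lt_succ _
    case a_lt_κ =>
      intro β hβ
      rw [Ordinal.bot_eq_zero] at hβ
      rw [Q1_mk, Cardinal.lift_lt, Q1_a_of_ne hβ, card_ord]
      exact Q1_succ_lt hβ
    case kc =>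
      intro γ hγ
      rw [Ordinal.bot_eq_zero] at hγ
      rw [Q1_mk, Cardinal.lift_le, Q1_c_of_ne hγ, card_ord]
    case sl =>
      intro γ x hx
      obtain ⟨d, hd2, rfl⟩ := Cardinal.lt_lift_iff.1 hx
      rw [← Cardinal.lift_two_power, Cardinal.lift_lt]
      exact (Q1_k_strong γ).isStrongPrelimit hd2
    case sg =>
      intro γ h
      exact Q1_k_sing γ (isRegular_lift_iff.1 h)
    case σ_sup =>
      intro β hβ x hx
      obtain ⟨d, hd2, rfl⟩ := Cardinal.lt_lift_iff.1 hx
      obtain ⟨γ, h1, h2⟩ := Q1_lt_s hβ hd2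
      exact ⟨γ, h1, Cardinal.lift_lt.2 h2⟩
    case τ_card =>
      intro β hβ
      rw [Q1_mk, Cardinal.lift_le]
      exact hτ (hlim.1 hβ)
    case suc =>
      intro β hβ
      rcases hcases β hβ with h | ⟨γ, rfl⟩
      · exact Or.inl (hlim.2 h)
      · exact Or.inr ⟨γ, Order.lt_succ γ, Q1_t_succ γ⟩
  · simp only [Ordinal.bot_eq_zero, Q1_k_zero]
  · intro θ hθ hθu A hA
    refine ⟨(#A).ord, ?_, ?_⟩
    · rw [Cardinal.lift_le]
      have h := Q1_card_le (#A).ord
      rwa [Cardinal.card_ord] at h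
    · rcases hθu.lt_or_eq with h | h
      · obtain ⟨θ', rfl⟩ := Cardinal.lt_univ.1 h
        rw [Cardinal.lift_lt] at hA ⊢
        refine Q1_k_lt_inacc ?_ _ (by rwa [Cardinal.card_ord])
        refine ⟨?_, ?_, ?_⟩
        · have h1 := hθ.unc
          rwa [Cardinal.aleph0_lt_lift] at h1
        · exact (isRegular_lift_iff.1 hθ.reg).le_cof_ord
        · intro x hx
          have h1 := hθ.sl (Cardinal.lift.{v+1} x) (Cardinal.lift_lt.2 hx)
          rwa [← Cardinal.lift_two_power, Cardinal.lift_lt] at h1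
      · rw [h]
        exact Cardinal.lift_lt_univ _

end Pool.Agent.FreeSetsA
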