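import Pool.Agent.Lib_MP_38e082_all.UDefs
import Pool.Agent.Lib_MP_bf47cd.D01

/-!
# H26-Q2: the collapse of `Λ` to `ω`

`P = Coll (Iio ω) (Iio Λ)` (D01): bounded, so finite, partial functions; at most
`Σ n, #(Option (Iio Λ)) ^ n = #(Iio Λ)` conditions. The generic function `g : Iio ω → Iio Λ`
(`PF.exists_ofDense` for `v i x p := p.1 i = some x`) is a surjection (`DSurj`: extend `p` at a place
above its bound); `J` is its inverse (`exists_inverse`, D02).
-/

set_option linter.unusedSectionVars false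
set_option linter.unusedVariables false

namespace Pool.Agent.FreeSetsA

universe u v

open Set Cardinal Ordinal Pool.Agent.KT Pool.Agent.KTM

private theorem Q2_card {I M : Type u} [LinearOrder I] (hI : #I ≤ ℵ₀)
    (hf : ∀ b : I, #(Iio b) < ℵ₀) (hM : ℵ₀ ≤ #M) : #(Coll I M) ≤ #M := by
  classical
  choose a ha using fun q : Coll I M => q.2
  have h1 : #(Coll I M) ≤ #(Σ a : I, (Iio a → Option M)) := by
    refine mk_le_of_injective (f := fun q => ⟨a q, fun i => q.1 i.1⟩) ?_
    intro q q' h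
    rw [Sigma.mk.inj_iff] at h
    obtain ⟨h2, h3⟩ := h
    apply Subtype.ext
    funext i
    by_cases hi : a q ≤ i
    · rw [ha q i hi, ha q' i (h2 ▸ hi)]
    · have hi' : i < a q := not_le.1 hi
      have key : ∀ (b b' : I) (f : Iio b → Option M) (f' : Iio b' → Option M), b = b' →
          f ≍ f' → ∀ (hb : i < b) (hb' : i < b'), f ⟨i, hb⟩ = f' ⟨i, hb'⟩ := by
        intro b b' f f' hbb hff hb hb'
        subst hbb
        rw [eq_of_heq hff]
      exact key (a q) (a q') _ _ h2 h3 hi' (h2 ▸ hi')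
  refine h1.trans ?_
  rw [mk_sigma]
  have h2 : ∀ b : I, #(Iio b → Option M) ≤ #M := by
    intro b
    obtain ⟨n, hn⟩ := lt_aleph0.1 (hf b)
    have e1 : #(Iio b → Option M) = #(Option M) ^ #(Iio b) := by rw [← power_def]
    have e2 : #(Option M) ≤ #M := by
      rw [mk_option]
      calc #M + 1 ≤ #M + #M := add_le_add le_rfl (one_le_aleph0.trans hM)
        _ = #M := add_eq_self hM
    rw [e1, hn]
    exact (power_le_power_right e2).trans (power_nat_le hM)
  calc Cardinal.sum (fun b : I => #(Iio b → Option M)) ≤ Cardinal.sum (fun _ : I => #M) :=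
        sum_le_sum _ _ h2
    _ = #I * #M := by rw [sum_const']
    _ ≤ #M * #M := mul_le_mul' (hI.trans hM) le_rfl
    _ = #M := mul_eq_self hM

private theorem Q2_extend {I M : Type u} [LinearOrder I] (hmax : ∀ i : I, ∃ j, i < j)
    (q : Coll I M) (i : I) (c : M) (h : q.1 i = none) : ∃ q' ≤ q, q'.1 i = some c := by
  classical
  obtain ⟨a, ha⟩ := q.2
  obtain ⟨b, hb⟩ := hmax i
  refine ⟨⟨Function.update q.1 i (some c), max a b, ?_⟩, ?_, ?_⟩
  · intro j hj
    have h1 : j ≠ i := fun h2 => by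
      rw [h2] at hj
      exact absurd ((le_max_right a b).trans hj) (not_le.2 hb)
    rw [Function.update_of_ne h1]
    exact ha j ((le_max_left a b).trans hj)
  · intro j d hd
    change Function.update q.1 i (some c) j = some d
    have h1 : j ≠ i := fun h2 => by
      rw [h2, h] at hd
      exact absurd hd (by simp)
    rw [Function.update_of_ne h1, hd]
  · change Function.update q.1 i (some c) i = some c
    rw [Function.update_self]

theorem exists_collapse {Λ : Ordinal.{v}} (hΛ : ω ≤ Λ) :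
    ∃ (P : Type (v+1)) (_ : PartialOrder P) (_ : OrderTop P), #P ≤ #(Iio Λ) ∧
      ∃ J : PF P (Iio Λ) (Iio (ω : Ordinal.{v})), ∀ q, InjP J q := by
  have hne : Nonempty (Iio (ω : Ordinal.{v})) := ⟨⟨0, omega0_pos⟩⟩
  have hc0 : (0 : Ordinal.{v}) < Λ := omega0_pos.trans_le hΛ
  have hmk : ∀ x : Ordinal.{v}, #(Iio x) = Cardinal.lift.{v+1} x.card := fun x => by simp
  have hmax : ∀ i : Iio (ω : Ordinal.{v}), ∃ j, i < j := fun i =>
    ⟨⟨Order.succ i.1, isSuccLimit_omega0.succ_lt i.2⟩, Order.lt_succ i.1⟩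
  refine ⟨Coll (Iio (ω : Ordinal.{v})) (Iio Λ), inferInstance, inferInstance, ?_, ?_⟩
  · refine Q2_card ?_ ?_ ?_
    · rw [hmk]; simp
    · intro b
      have h1 : #(Iio b) ≤ #(Iio b.1) :=
        mk_le_of_injective (f := fun x : Iio b => (⟨x.1.1, x.2⟩ : Iio b.1)) fun x y h =>
          Subtype.ext (Subtype.ext (by simpa using h))
      refine h1.trans_lt ?_
      rw [hmk, lift_lt_aleph0, card_lt_aleph0]
      exact b.2
    · rw [hmk, aleph0_le_lift]
      have h1 := Ordinal.card_le_card hΛ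
      rwa [card_omega0] at h1
  · obtain ⟨g, _, hg⟩ := PF.exists_ofDense
      (fun (i : Iio (ω : Ordinal.{v})) (c : Iio Λ) (q : Coll (Iio (ω : Ordinal.{v})) (Iio Λ)) =>
        q.1 i = some c)
      (fun i c p q (hq : ∀ i c, p.1 i = some c → q.1 i = some c) h => hq i c h)
      (fun i c c' p h h' => Option.some.inj (h.symm.trans h'))
      (by
        intro i q
        rcases h : q.1 i with _ | c
        · obtain ⟨q', h1, h2⟩ := Q2_extend hmax q i ⟨0, hc0⟩ h
          exact ⟨q', h1, ⟨0, hc0⟩, h2⟩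
        · exact ⟨q, le_rfl, c, h⟩)
    have hs : DSurj g := by
      intro c q
      obtain ⟨a, ha⟩ := q.2
      obtain ⟨q', h1, h2⟩ := Q2_extend hmax q a c (ha a le_rfl)
      exact ⟨q', h1, a, hg a c q' h2⟩
    exact exists_inverse hs

end Pool.Agent.FreeSetsA
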