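import Pool.Agent.Lib_MP_38e082_all.Basics

/-!
# H26-Q3: GCH

`pf_comp`: `PF.exists_ofDense` for `v x z r := ∃ y, J1.val x y r ∧ J2.val y z r`.

`gchP`: let `w ≤ α`. If `Λ ≤ α`: `hS.toSysG.gchP_high` (V09). If `α < Λ`: `hS.cov Λ` gives `β ≠ ⊥` with
`τ β ≤ Λ < a β`, so `τ β = Λ` (`Λ_le`); take the interval `[w, a β)`. Injections: `exists_inj` at `β`
followed by `hlow`. The enumeration of the subsets of `w`: restrict `S` from `exists_pow` for `β` (which
enumerates the subsets of `Iio (τ β) = Iio Λ`) to `Iio w ⊆ Iio Λ`: given `X` on `Iio w` extend it to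
`Iio Λ` by `false`. -/

set_option linter.unusedSectionVars false
set_option linter.unusedVariables false

namespace Pool.Agent.FreeSetsA

universe u v

open Set Cardinal Pool.Agent.KT Pool.Agent.KTM

/-- composition of names of injections -/
theorem pf_comp {T A B C : Type u} [Preorder T] (J1 : PF T A B) (J2 : PF T B C)
    (h1 : ∀ q, InjP J1 q) (h2 : ∀ q, InjP J2 q) : ∃ J : PF T A C, ∀ q, InjP J q := by
  obtain ⟨J, hJ1, hJ2⟩ := PF.exists_ofDense (P := T) (A := A) (B := C)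
    (fun x z r => ∃ y, J1.val x y r ∧ J2.val y z r)
    (by
      rintro x z p q hqp ⟨y, h3, h4⟩
      exact ⟨y, J1.mono _ _ _ _ hqp h3, J2.mono _ _ _ _ hqp h4⟩)
    (by
      rintro x z z' p ⟨y, h3, h4⟩ ⟨y', h5, h6⟩
      have h7 : y = y' := J1.uniq _ _ _ _ h3 h5
      subst h7
      exact J2.uniq _ _ _ _ h4 h6)
    (by
      intro x p
      obtain ⟨q, hq, y, hy⟩ := J1.total x p
      obtain ⟨r, hr, z, hz⟩ := J2.total y q
      exact ⟨r, hr.trans hq, z, y, J1.mono _ _ _ _ hr hy, hz⟩)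
  refine ⟨J, fun q x x' z r hr h3 h4 => ?_⟩
  obtain ⟨r1, hr1, y, h5, h6⟩ := (hJ1 x z r).1 h3 r le_rfl
  obtain ⟨r2, hr2, y', h7, h8⟩ := (hJ1 x' z r).1 h4 r1 hr1
  have h9 : y = y' := h2 r2 y y' z r2 le_rfl (J2.mono _ _ _ _ hr2 h6) h8
  subst h9
  exact h1 r2 x x' y r2 le_rfl (J1.mono _ _ _ _ hr2 h5) h7

/-- restriction of an enumeration of subsets -/
theorem powP_restrict {T A A' B : Type u} [Preorder T] {f : A' → A} (hf : Function.Injective f)
    {S : PF T (B × A) (ULift.{u} Bool)} (hS : PowP A B S) :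
    ∃ S' : PF T (B × A') (ULift.{u} Bool), PowP A' B S' := by
  refine ⟨PF.pre S fun t => (t.1, f t.2), fun X q => ?_⟩
  let X' : PF T A (ULift.{u} Bool) :=
    { val := fun a b r => (∃ a', f a' = a ∧ X.val a' b r) ∨ ((∀ a', f a' ≠ a) ∧ b = ⟨false⟩)
      mono := by
        rintro a b p q hqp (⟨a', h1, h2⟩ | h1)
        · exact Or.inl ⟨a', h1, X.mono _ _ _ _ hqp h2⟩
        · exact Or.inr h1
      dense := by
        intro a b p h
        by_cases ha : ∃ a', f a' = a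
        · obtain ⟨a', rfl⟩ := ha
          refine Or.inl ⟨a', rfl, X.dense _ _ _ fun q hq => ?_⟩
          obtain ⟨r, hr, ⟨a2, h1, h2⟩ | h1⟩ := h q hq
          · rw [hf h1] at h2
            exact ⟨r, hr, h2⟩
          · exact absurd rfl (h1.1 a')
        · push Not at ha
          obtain ⟨r, hr, ⟨a2, h1, h2⟩ | h1⟩ := h p le_rfl
          · exact absurd h1 (ha a2)
          · exact Or.inr ⟨ha, h1.2⟩
      uniq := by
        rintro a b b' p (⟨a1, h1, h2⟩ | h1) (⟨a2, h3, h4⟩ | h3)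
        · rw [← h1] at h3
          rw [hf h3] at h4
          exact X.uniq _ _ _ _ h2 h4
        · exact absurd h1 (h3.1 a1)
        · exact absurd h3 (h1.1 a2)
        · rw [h1.2, h3.2]
      total := by
        intro a p
        by_cases ha : ∃ a', f a' = a
        · obtain ⟨a', rfl⟩ := ha
          obtain ⟨q, hq, b, hb⟩ := X.total a' p
          exact ⟨q, hq, b, Or.inl ⟨a', rfl, hb⟩⟩
        · push Not at ha
          exact ⟨p, le_rfl, ⟨false⟩, Or.inr ⟨ha, rfl⟩⟩ }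
  obtain ⟨q', hq', x, hx⟩ := hS X' q
  exact ⟨q', hq', x, fun a b r hr h => hx (f a) b r hr (Or.inl ⟨a, rfl, h⟩)⟩

variable {O P : Type u} [LinearOrder O] [OrderBot O] [WellFoundedLT O] [Preorder P]
  {σ κ : O → Cardinal.{u}} {a c τ : O → O} {Λ w : O}

theorem SysF.gchP (hS : SysF O P σ κ a c τ Λ) (hw : w < Λ)
    (hlow : ∃ J : PF (P × EE a c univ) (Iio Λ) (Iio w), ∀ q, InjP J q) :
    GchP (P × EE a c univ) w := by
  intro α hα
  rcases le_or_gt Λ α with h | h
  · exact hS.toSysG.gchP_high h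
  · obtain ⟨β, hβ, h1, h2⟩ := hS.cov Λ le_rfl
    have hτ : τ β = Λ := le_antisymm h1 (hS.Λ_le hβ)
    refine ⟨w, a β, hα, h.trans h2, fun x hx => ?_, ?_⟩
    · have h3 := hS.toSysG.exists_inj hβ hx
      rw [hτ] at h3
      obtain ⟨J1, hJ1⟩ := h3
      obtain ⟨J2, hJ2⟩ := hlow
      exact pf_comp J1 J2 hJ1 hJ2
    · obtain ⟨S, hS'⟩ := hS.toSysG.exists_pow hβ
      refine powP_restrict (f := fun x : Iio w => (⟨x.1, ?_⟩ : Iio (τ β))) ?_ hS'
      · rw [hτ]; exact (mem_Iio.1 x.2).trans hw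
      · intro x y h
        simp only [Subtype.mk.injEq] at h
        exact Subtype.ext h

end Pool.Agent.FreeSetsA
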