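import Pool.Agent.Lib_MP_bf47cd.V03
import Pool.Agent.Lib_MP_38e082_all.Defs

/-!
# H26: names of hereditary size less than `θ`: definitions
-/

set_option linter.unusedSectionVars false
set_option linter.unusedVariables false

namespace Pool.Agent.FreeSetsA

universe u v w

open Pool.Agent.Forcing Pool.Agent.Forcing.Name Pool.Agent.Inner Set Cardinal Pool.Agent.KT
  Pool.Agent.KTM

/-- `θ` is inaccessible -/
structure Inacc (θ : Cardinal.{u}) : Prop where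
  unc : ℵ₀ < θ
  reg : θ.IsRegular
  sl : ∀ x < θ, 2 ^ x < θ

/-- the small name has hereditary size less than `θ` -/
def HB {T : Type (v+1)} (θ : Cardinal.{v+1}) : SN T → Prop
  | .mk A x _ => Cardinal.lift.{v+1} #A < θ ∧ ∀ a, HB θ (x a)

/-- the name of the set of all sets with names of hereditary size less than `θ` -/
def univB (T : Type (v+1)) [Preorder T] [OrderTop T] (θ : Cardinal.{v+1}) : Name T :=
  Name.mk {z : SN T // HB θ z} (fun z => z.1.toName) (fun _ => ⊤)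

/-- functions on sets of size less than `θ` are decided, below some `q'`, by a pool of less than
`θ` conditions -/
def SmallPoolB (θ : Cardinal.{v+1}) (T : Type (v+1)) [Preorder T] : Prop :=
  ∀ A : Type v, Cardinal.lift.{v+1} #A < θ → ∃ (R : Type v) (t : R → T),
    Cardinal.lift.{v+1} #R < θ ∧ ∀ (B : Type (v+1)) (Φ : PF T (ULift.{v+1} A) B)
    (q : T), ∃ q' ≤ q, ∀ a, ∀ r ≤ q', ∃ r' ≤ r, ∃ i : R, r' ≤ t i ∧ ∃ b, ∀ s ≤ t i, s ≤ q' →
      Φ.val a b s

lemma HB_mk {T : Type (v+1)} {θ : Cardinal.{v+1}} {A : Type v} {x : A → SN T} {p : A → T} :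
    HB θ (SN.mk A x p) ↔ Cardinal.lift.{v+1} #A < θ ∧ ∀ a, HB θ (x a) := Iff.rfl

variable {T : Type (v+1)} [Preorder T] [OrderTop T] {θ : Cardinal.{v+1}}

/-- elements of the universe -/
theorem E_univB {𝔊 : Gen T} (hR : Rich 𝔊) (h : univB T θ ∈ 𝔊.N) {x : 𝔊.M} :
    𝔊.E x (𝔊.cls ⟨univB T θ, h⟩) ↔ ∃ z : SN T, HB θ z ∧ Rep 𝔊 x z.toName := by
  rw [E_iff hR h]
  constructor
  · rintro ⟨j, n, _, h2⟩
    exact ⟨j.1, j.2, h2⟩
  · rintro ⟨z, hz0, hz⟩
    exact ⟨⟨z, hz0⟩, 0, le_top, hz⟩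

theorem fmem_univB {x : Name T} {p : T} :
    fmem x (univB T θ) p ↔ ∀ q ≤ p, ∃ r ≤ q, ∃ z : SN T, HB θ z ∧ feq x z.toName r := by
  unfold univB
  rw [fmem_mk_top]
  constructor
  · intro h q hq
    obtain ⟨r, hr, z, hz⟩ := h q hq
    exact ⟨r, hr, z.1, z.2, hz⟩
  · intro h q hq
    obtain ⟨r, hr, z, hz0, hz⟩ := h q hq
    exact ⟨r, hr, ⟨z, hz0⟩, hz⟩

end Pool.Agent.FreeSetsA
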