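import Pool.Agent.Lib_MP_bf47cd.V08
import Pool.Agent.Lib_MP_38e082_all.UDefs

/-!
# H26-U5: the pool

A port of `Sys.smallPool` (end of `Lib_MP_bf47cd/V08.lean`): the pool for `A` is
`(t.1, EE.glue t.2 ⊤)`, `t : P × EE a c (Iic γ)`, where `lift #A ≤ κ γ < θ`; it has size at most
`κ γ`.
-/

set_option linter.unusedSectionVars false
set_option linter.unusedVariables false

namespace Pool.Agent.FreeSetsA

universe u v

open Set Cardinal Pool.Agent.KT Pool.Agent.KTM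

theorem smallPoolB {O P : Type (v+1)} [LinearOrder O] [OrderBot O] [WellFoundedLT O]
    [Preorder P] {σ κ : O → Cardinal.{v+1}} {a c : O → O} (hS : Sys O P σ κ a c)
    {θ : Cardinal.{v+1}} (h1 : θ ≤ Cardinal.univ.{v, v+1})
    (h2 : ∀ A : Type v, Cardinal.lift.{v+1} #A < θ → ∃ γ, Cardinal.lift.{v+1} #A ≤ κ γ ∧ κ γ < θ) :
    SmallPoolB θ (P × EE a c univ) := by
  let _ : OrderTop (EE a c (univ : Set O)) := EE.top hS.a_pos univ
  intro A hA
  obtain ⟨γ, hγ, hγθ⟩ := h2 A hA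
  obtain ⟨c', hc'⟩ := Cardinal.lt_univ.1 (lt_of_le_of_lt (hS.card_low γ) (hγθ.trans_le h1))
  have hc2 : #(P × EE a c (Iic γ)) = #(ULift.{v+1} c'.out) := by
    rw [hc', Cardinal.mk_uLift, Cardinal.mk_out]
  obtain ⟨φ⟩ := Cardinal.eq.1 hc2
  refine ⟨c'.out, fun i => ((φ.symm ⟨i⟩).1, EE.glue (φ.symm ⟨i⟩).2 ⊤), ?_, ?_⟩
  · rw [Cardinal.mk_out, ← hc']
    exact (hS.card_low γ).trans_lt hγθ
  intro B Φ q
  obtain ⟨e', he', h⟩ := hS.exists_reduce (fun γ' => {x : ULift.{v+1} A | γ' = γ}) (fun γ' => by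
    by_cases hh : γ' = γ
    · subst hh
      refine (mk_set_le _).trans ?_
      rw [Cardinal.mk_uLift]
      exact hγ
    · have h3 : {x : ULift.{v+1} A | γ' = γ} = ∅ := by
        ext x; simp [hh]
      rw [h3, Cardinal.mk_eq_zero]
      exact zero_le) Φ q.2
  refine ⟨(q.1, e'), ⟨le_rfl, he'⟩, ?_⟩
  intro x r hr
  obtain ⟨t', ht', b, hb⟩ := h γ x rfl (r.1, EE.low γ r.2)
  refine ⟨(t'.1, EE.glue t'.2 r.2), ⟨ht'.1, EE.glue_le ht'.2⟩, (φ t').down, ?_, b, ?_⟩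
  · have h4 : φ.symm ⟨(φ t').down⟩ = t' := φ.symm_apply_apply t'
    simp only [h4]
    exact ⟨le_rfl, EE.glue_mono le_rfl le_top⟩
  · intro s hs1 hs2
    have h4 : φ.symm ⟨(φ t').down⟩ = t' := φ.symm_apply_apply t'
    simp only [h4] at hs1
    refine Φ.mono x b (t'.1, EE.glue t'.2 e') s ⟨hs1.1, ?_⟩ hb
    intro ξ i y hy
    by_cases hξ : ξ ≤ γ
    · apply hs1.2 ξ i y
      simp only [EE.glue, if_pos hξ] at hy ⊢; exact hy
    · simp only [EE.glue, if_neg hξ] at hy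
      exact hs2.2 ξ i y hy

end Pool.Agent.FreeSetsA
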