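import Pool.Agent.Lib_MP_38e082_all.M7
import Pool.Agent.Lib_MP_38e082_all.I2
import Pool.Agent.Lib_MP_38e082_all.Q0
import Pool.Agent.Lib_MP_38e082_all.Q1
import Pool.Agent.Lib_MP_38e082_all.Q2
import Pool.Agent.Lib_MP_38e082_all.Q3
import Pool.Agent.Lib_MP_38e082_all.U5

/-!
# H26-M8: the model
-/

set_option linter.unusedSectionVars false
set_option linter.unusedVariables false

namespace Pool.Agent.FreeSetsA

universe u v

open Pool.Agent.Forcing Pool.Agent.Inner Set Cardinal Ordinal Pool.Agent.KT Pool.Agent.KTM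

theorem exists_model_all : ∃ (M : Type 2) (E : M → M → Prop), ModelsZFC E ∧ OmegaModel E ∧
    GCH E ∧ ∀ m l k : M, SingC E m l → IsSuccCard E l k → ∃ f, Counter E m l k f := by
  obtain ⟨θ, hθ, hN, hle⟩ := exists_theta.{0}
  have hΛ : ω < (Cardinal.beth ω : Cardinal.{0}).ord := by
    have h1 : ℵ₀ < (Cardinal.beth ω : Cardinal.{0}) := by
      have h2 := Cardinal.beth_strictMono (Ordinal.omega0_pos : (0 : Ordinal.{0}) < ω)
      rwa [Cardinal.beth_zero] at h2
    have h3 := Cardinal.ord_lt_ord.2 h1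
    rwa [Cardinal.ord_aleph0] at h3
  obtain ⟨P, iP, iT, hPc, J, hJ⟩ := exists_collapse hΛ.le
  obtain ⟨σ, κ, a, c, τ, hS, _, hκ⟩ := exists_sysF P (by
    refine hPc.trans (le_of_eq ?_)
    rw [Cardinal.mk_Iio_ordinal, Cardinal.card_ord])
  let _ : OrderTop (EE a c (univ : Set Ordinal.{0})) := EE.top hS.a_pos univ
  have hlow : ∃ J : PF (P × EE a c univ) (Iio (Cardinal.beth ω : Cardinal.{0}).ord)
      (Iio (ω : Ordinal.{0})), ∀ q, InjP J q := ⟨PF.lift _ J, fun q => injP_lift hJ q⟩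
  refine exists_modelA hθ (hS.fiface hΛ hlow hN) (eN := fun n => (n.down : Ordinal.{0})) ?_ ?_
    (smallPoolB hS.toSys hle (hκ θ hθ hle)) (hS.gchP hΛ hlow)
  · intro m n h
    exact Nat.cast_lt.2 h
  · ext x
    constructor
    · rintro ⟨n, rfl⟩
      exact Ordinal.natCast_lt_omega0 n.down
    · intro hx
      obtain ⟨n, rfl⟩ := Ordinal.lt_omega0.1 hx
      exact ⟨⟨n⟩, rfl⟩

end Pool.Agent.FreeSetsA
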