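import Pool.Agent.Lib_MP_38e082_gen.Voc
import Pool.Agent.Lib_MP_38e082_all.UDefs
import Pool.Agent.Lib_MP_bf47cd.V02
import Pool.Agent.Lib_MP_bf47cd.V05

/-!
# H26: vocabulary, definability, the name of the set mapping
-/

set_option linter.unusedSectionVars false
set_option linter.unusedVariables false

namespace Pool.Agent.FreeSetsA

universe u v w

open Pool.Agent.Forcing Pool.Agent.Forcing.Name Pool.Agent.Inner Set Cardinal Pool.Agent.KT
  Pool.Agent.KTM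
open Pool.Agent.FreeSets (IsCofinalMap IsSetMapping IsFree IsInter)

section voc
variable {M : Type w} (E : M → M → Prop)

/-- `FreeSetsG.IsRegCard` -/
def RegC (m : M) : Prop :=
  IsCard E m ∧ (∃ om, IsOmega E om ∧ (m = om ∨ E om m)) ∧
    ∀ a c, E a m → ¬ IsCofinalMap E c a m

/-- `FreeSetsG.SingularCof` -/
def SingC (m l : M) : Prop :=
  RegC E m ∧ IsCard E l ∧ E m l ∧ ∃ c, IsCofinalMap E c m l

/-- `FreeSets.Counterexample` -/
def Counter (m l k f : M) : Prop :=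
  IsSetMapping E f k ∧
  (∀ X i I, Sub E X k → IsInj E i k X → IsInter E f k X I → ∀ e, ¬ IsInj E e l I) ∧
  ∀ H, Sub E H k → IsFree E f H → ∃ j, IsInj E j H m

theorem singC_iff {m l : M} : FreeSetsG.SingularCof E m l ↔ SingC E m l := Iff.rfl

theorem counter_iff {m l k f : M} : FreeSets.Counterexample E m l k f ↔ Counter E m l k f :=
  Iff.rfl

theorem isSuccCard_iff {l k : M} : FreeSets.IsSuccCard E l k ↔ IsSuccCard E l k := Iff.rfl

theorem ontoPow_iff {s b a : M} : FreeSets.OntoPow E s b a ↔ OntoPow E s b a := Iff.rfl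

end voc

namespace FOA

lemma isCofinalMap (i j k : ℕ) : FO.{w} (fun _ E v => IsCofinalMap E (v i) (v j) (v k)) :=
  FO.and (FO.isFun _ _ _) (FO.all (FO.imp (FO.mem _ _) (FO.ex (FO.ex (FO.and (FO.val _ _ _)
    (FO.or (FO.eq _ _) (FO.mem _ _)))))))

lemma isSetMapping (i j : ℕ) : FO.{w} (fun _ E v => IsSetMapping E (v i) (v j)) :=
  FO.and (FO.all (FO.imp (FO.mem _ _) (FO.ex (FO.ex (FO.and (FO.mem _ _) (FO.isPair _ _ _))))))
    (FO.and (FO.all (FO.imp (FO.mem _ _) (FO.exu (FO.val _ _ _) (FO.val _ _ _))))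
    (FO.all (FO.all (FO.imp (FO.mem _ _) (FO.imp (FO.val _ _ _) (FO.sub _ _))))))

lemma isFree (i j : ℕ) : FO.{w} (fun _ E v => IsFree E (v i) (v j)) :=
  FO.all (FO.all (FO.all (FO.imp (FO.mem _ _) (FO.imp (FO.mem _ _)
    (FO.imp (FO.not (FO.eq _ _)) (FO.imp (FO.val _ _ _) (FO.not (FO.mem _ _))))))))

lemma isInter (i j k l : ℕ) : FO.{w} (fun _ E v => IsInter E (v i) (v j) (v k) (v l)) :=
  FO.all (FO.iff (FO.mem _ _) (FO.and (FO.mem _ _) (FO.all (FO.all (FO.imp (FO.mem _ _)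
    (FO.imp (FO.val _ _ _) (FO.mem _ _)))))))

lemma regC (i : ℕ) : FO.{w} (fun _ E v => RegC E (v i)) :=
  FO.and (FOx.isCard _) (FO.and (FO.ex (FO.and (FO.isOmega _) (FO.or (FO.eq _ _) (FO.mem _ _))))
    (FO.all (FO.all (FO.imp (FO.mem _ _) (FO.not (isCofinalMap _ _ _))))))

lemma singC (i j : ℕ) : FO.{w} (fun _ E v => SingC E (v i) (v j)) :=
  FO.and (regC _) (FO.and (FOx.isCard _) (FO.and (FO.mem _ _) (FO.ex (isCofinalMap _ _ _))))

lemma counter (i j k l : ℕ) : FO.{w} (fun _ E v => Counter E (v i) (v j) (v k) (v l)) :=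
  FO.and (isSetMapping _ _) (FO.and
    (FO.all (FO.all (FO.all (FO.imp (FO.sub _ _) (FO.imp (FOx.isInj _ _ _)
      (FO.imp (isInter _ _ _ _) (FO.all (FO.not (FOx.isInj _ _ _)))))))))
    (FO.all (FO.imp (FO.sub _ _) (FO.imp (isFree _ _) (FO.ex (FOx.isInj _ _ _))))))

end FOA

variable {T O : Type u} [Preorder T] [OrderTop T] [LinearOrder O] [WellFoundedLT O]

/-- the name of the set mapping on `b` given by `Φ` -/
noncomputable def sfN {b : O} (Φ : PF T (Iio b) (Set (Iio b))) : Name T :=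
  Name.mk {t : Iio b × Set (Iio b) × T // Φ.val t.1 t.2.1 t.2.2}
    (fun t => opairName (check t.1.1.1) (checkSet (Subtype.val '' t.1.2.1))) (fun t => t.1.2.2)

theorem val_sfN {𝔊 : Gen T} (hR : Rich 𝔊) {b : O} {Φ : PF T (Iio b) (Set (Iio b))}
    (h : sfN Φ ∈ 𝔊.N) {x y : 𝔊.M} : Val 𝔊.E (𝔊.cls ⟨sfN Φ, h⟩) x y ↔
      ∃ (ξ : Iio b) (X : Set (Iio b)) (n : ℕ), Rep 𝔊 x (check ξ.1) ∧
        Rep 𝔊 y (checkSet (Subtype.val '' X)) ∧ Φ.val ξ X (𝔊.G n) := by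
  refine (val_mk hR (A := fun t : {t : Iio b × Set (Iio b) × T // Φ.val t.1 t.2.1 t.2.2} =>
    (check t.1.1.1 : Name T)) (B := fun t => checkSet (Subtype.val '' t.1.2.1))
    (c := fun t => t.1.2.2) h).trans ?_
  constructor
  · rintro ⟨⟨⟨ξ, X, t⟩, ht⟩, n, h1, h2, h3⟩
    exact ⟨ξ, X, n, h2, h3, Φ.mono _ _ _ _ h1 ht⟩
  · rintro ⟨ξ, X, n, h1, h2, h3⟩
    exact ⟨⟨(ξ, X, 𝔊.G n), h3⟩, n, le_rfl, h1, h2⟩

end Pool.Agent.FreeSetsA
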