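import Mathlib.SetTheory.Cardinal.Regular
import Mathlib.SetTheory.Cardinal.Arithmetic
import Mathlib.SetTheory.Cardinal.Pigeonhole
import Mathlib.Order.Zorn

/-!
# Free transversals

Given at most `ν` many sets of size `> ν⁺` and a relation in which every point has at most `ν`
predecessors, one can choose a point from every set such that no two chosen points are related.
-/

namespace Pool.Agent.FreeSetsA

universe u

open Cardinal Set

section
variable {W ι : Type u}

/-- partial transversals of `Y` that avoid `A` and are free for `R`, as sets of pairs -/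
def PT (R : W → W → Prop) (Y : ι → Set W) (A : Set W) : Set (Set (ι × W)) :=
  {T | (∀ i x y, (i, x) ∈ T → (i, y) ∈ T → x = y) ∧ (∀ i x, (i, x) ∈ T → x ∈ Y i ∧ x ∉ A) ∧
    ∀ i x j y, (i, x) ∈ T → (j, y) ∈ T → ¬ R x y}

lemma exists_max_PT (R : W → W → Prop) (Y : ι → Set W) (A : Set W) :
    ∃ T, Maximal (· ∈ PT R Y A) T := by
  apply zorn_subset
  intro c hc hch
  refine ⟨⋃₀ c, ⟨?_, ?_, ?_⟩, fun s hs => subset_sUnion_of_mem hs⟩
  · rintro i x y ⟨s, hs, h1⟩ ⟨t, ht, h2⟩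
    rcases hch.total hs ht with h | h
    · exact (hc ht).1 i x y (h h1) h2
    · exact (hc hs).1 i x y h1 (h h2)
  · rintro i x ⟨s, hs, h1⟩
    exact (hc hs).2.1 i x h1
  · rintro i x j y ⟨s, hs, h1⟩ ⟨t, ht, h2⟩
    rcases hch.total hs ht with h | h
    · exact (hc ht).2.2 i x j y (h h1) h2
    · exact (hc hs).2.2 i x j y h1 (h h2)

end

/-- the set of second coordinates -/
def ran {W ι : Type u} (T : Set (ι × W)) : Set W := {x | ∃ i, (i, x) ∈ T}

theorem exists_transversal {W ι : Type u} (ν : Cardinal.{u}) (hν : ℵ₀ ≤ ν) (hι : #ι ≤ ν)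
    (R : W → W → Prop) (irr : ∀ x, ¬ R x x) (hR : ∀ y, #{x // R x y} ≤ ν) (Y : ι → Set W)
    (hY : ∀ i, Order.succ ν < #(Y i)) :
    ∃ h : ι → W, (∀ i, h i ∈ Y i) ∧ ∀ i j, ¬ R (h i) (h j) := by
  classical
  by_contra hcon
  -- every partial transversal misses an index
  have hmiss : ∀ A, ∀ T ∈ PT R Y A, ∃ i, ∀ x, (i, x) ∉ T := by
    intro A T hT
    by_contra h
    push Not at h
    choose g hg using h
    exact hcon ⟨g, fun i => (hT.2.1 i _ (hg i)).1, fun i j => hT.2.2 _ _ _ _ (hg i) (hg j)⟩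
  let I : Type u := (Order.succ ν).ord.ToType
  have hI : #I = Order.succ ν := by simp [I]
  have hIio : ∀ ξ : I, #(Iio ξ) ≤ ν := fun ξ => by
    have := mk_Iio_toType_ord_lt ξ
    exact Order.lt_succ_iff.1 this
  -- recursive construction
  choose mx hmx using exists_max_PT R Y
  let F : (ξ : I) → ((η : I) → η < ξ → Set (ι × W)) → Set (ι × W) := fun ξ prev =>
    mx {x | ∃ η, ∃ h : η < ξ, x ∈ ran (prev η h)}
  let T : I → Set (ι × W) := WellFoundedLT.fix F
  have hT : ∀ ξ, T ξ = mx {x | ∃ η, ∃ _ : η < ξ, x ∈ ran (T η)} := fun ξ =>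
    WellFoundedLT.fix_eq F ξ
  have hTmax : ∀ ξ, Maximal (· ∈ PT R Y {x | ∃ η, ∃ _ : η < ξ, x ∈ ran (T η)}) (T ξ) := by
    intro ξ
    rw [hT ξ]
    exact hmx _
  have hTcard : ∀ ξ, #(ran (T ξ)) ≤ ν := by
    intro ξ
    have h1 : #(ran (T ξ)) ≤ #(T ξ) := by
      apply mk_le_of_surjective (f := fun t : T ξ => (⟨t.1.2, t.1.1, t.2⟩ : ran (T ξ)))
      rintro ⟨x, i, hx⟩
      exact ⟨⟨(i, x), hx⟩, rfl⟩
    have h2 : #(T ξ) ≤ #ι := by
      apply mk_le_of_injective (f := fun t : T ξ => t.1.1)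
      rintro ⟨⟨i, x⟩, hx⟩ ⟨⟨j, y⟩, hy⟩ h
      have hij : i = j := h
      subst hij
      have := (hTmax ξ).prop.1 i x y hx hy
      subst this
      rfl
    exact h1.trans (h2.trans hι)
  choose mi hmi using fun ξ => hmiss _ _ (hTmax ξ).prop
  obtain ⟨i0, hi0⟩ := infinite_pigeonhole_card mi (Order.succ ν) (by rw [hI])
    (hν.trans (Order.le_succ ν)) (by
      rw [(isRegular_succ hν).cof_ord]
      exact hι.trans_lt (Order.lt_succ ν))
  let Es : Set W := ⋃ ξ, ran (T ξ)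
  have hEs : #Es ≤ Order.succ ν := by
    refine (mk_iUnion_le _).trans ?_
    rw [hI]
    refine (mul_le_max_of_aleph0_le_left (hν.trans (Order.le_succ ν))).trans ?_
    refine max_le le_rfl ?_
    refine ciSup_le' fun ξ => (hTcard ξ).trans (Order.le_succ ν)
  let gE : Set W := ⋃ y : Es, {x | R x y.1}
  have hgE : #gE ≤ Order.succ ν := by
    refine (mk_iUnion_le _).trans ?_
    have h0 : ∀ y : Es, #({x | R x y.1} : Set W) ≤ ν := fun y => hR y.1
    refine (mul_le_mul' hEs (ciSup_le' h0)).trans ?_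
    refine (mul_le_max_of_aleph0_le_left (hν.trans (Order.le_succ ν))).trans ?_
    exact max_le le_rfl (Order.le_succ ν)
  obtain ⟨x, hxY, hx⟩ : ∃ x ∈ Y i0, x ∉ Es ∪ gE := by
    by_contra h
    push Not at h
    have h1 : #(Y i0) ≤ #(Es ∪ gE : Set W) := mk_le_mk_of_subset h
    have h2 : #(Es ∪ gE : Set W) ≤ Order.succ ν := by
      refine (mk_union_le _ _).trans ?_
      refine (add_le_add hEs hgE).trans ?_
      rw [add_eq_self (hν.trans (Order.le_succ ν))]
    exact absurd (hY i0) (not_lt.2 (h1.trans h2))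
  have hxE : ∀ ξ, x ∉ ran (T ξ) := fun ξ h => hx (Or.inl (mem_iUnion.2 ⟨ξ, h⟩))
  have hxg : ∀ ξ, ∀ y ∈ ran (T ξ), ¬ R x y := fun ξ y hy h =>
    hx (Or.inr (mem_iUnion.2 ⟨⟨y, mem_iUnion.2 ⟨ξ, hy⟩⟩, h⟩))
  have key : ∀ ξ, mi ξ = i0 → ∃ y ∈ ran (T ξ), R y x := by
    intro ξ hξ
    by_contra hno
    push Not at hno
    have hmem : insert (i0, x) (T ξ) ∈ PT R Y {x | ∃ η, ∃ _ : η < ξ, x ∈ ran (T η)} := by
      have hp := (hTmax ξ).prop
      refine ⟨?_, ?_, ?_⟩
      · rintro i a b (ha | ha) (hb | hb)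
        · rw [Prod.mk.injEq] at ha hb
          rw [ha.2, hb.2]
        · rw [Prod.mk.injEq] at ha
          rw [ha.1] at hb
          exact absurd hb (by rw [← hξ]; exact hmi ξ b)
        · rw [Prod.mk.injEq] at hb
          rw [hb.1] at ha
          exact absurd ha (by rw [← hξ]; exact hmi ξ a)
        · exact hp.1 i a b ha hb
      · rintro i a (ha | ha)
        · rw [Prod.mk.injEq] at ha
          rw [ha.1, ha.2]
          exact ⟨hxY, fun ⟨η, _, h⟩ => hxE η h⟩
        · exact hp.2.1 i a ha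
      · rintro i a j b (ha | ha) (hb | hb)
        · rw [Prod.mk.injEq] at ha hb
          rw [ha.2, hb.2]
          exact irr x
        · rw [Prod.mk.injEq] at ha
          rw [ha.2]
          exact hxg ξ b ⟨j, hb⟩
        · rw [Prod.mk.injEq] at hb
          rw [hb.2]
          exact hno a ⟨i, ha⟩
        · exact hp.2.2 i a j b ha hb
    have h2 := (hTmax ξ).le_of_ge hmem (subset_insert _ _)
    have h3 : (i0, x) ∈ T ξ := h2 (mem_insert _ _)
    exact hmi ξ x (by rw [hξ]; exact h3)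
  choose yy hyy hyR using key
  have hinj : Function.Injective
      (fun ξ : mi ⁻¹' {i0} => (⟨yy ξ.1 ξ.2, hyR ξ.1 ξ.2⟩ : {y // R y x})) := by
    have aux : ∀ (η ξ : I) (h1 : mi η = i0) (h2 : mi ξ = i0), η < ξ → yy η h1 ≠ yy ξ h2 := by
      intro η ξ h1 h2 hlt heq
      obtain ⟨j, hj⟩ := hyy ξ h2
      have h4 := ((hTmax ξ).prop.2.1 j _ hj).2
      exact h4 ⟨η, hlt, by rw [← heq]; exact hyy η h1⟩
    rintro ⟨η, h1⟩ ⟨ξ, h2⟩ h
    have heq : yy η h1 = yy ξ h2 := congrArg Subtype.val h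
    rcases lt_trichotomy η ξ with h3 | h3 | h3
    · exact absurd heq (aux η ξ h1 h2 h3)
    · subst h3; rfl
    · exact absurd heq.symm (aux ξ η h2 h1 h3)
  have hfin : Order.succ ν ≤ ν := hi0.trans ((mk_le_of_injective hinj).trans (hR x))
  exact absurd (Order.lt_succ ν) (not_lt.2 hfin)

end Pool.Agent.FreeSetsA
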