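import Pool.Agent.Lib_MP_38e082_all.Defs
import Pool.Agent.Lib_MP_38e082_all.S1

/-!
# H26-S3: the sets `A s x j`, by recursion on `x`

For `x`, `j` and the sets `A s y`, `y < x`, let `Q B` be the property of `B : Set K`: `B` is contained
in `Iio x`, has size at most `k j`, is independent (`z ∉ A s y j` for `y, z ∈ B`), and meets
`φ (s ξ) j i` for all `ξ ∈ P x j`, `i ∈ D j` with `succ (k j) < #{y | y ∈ φ (s ξ) j i ∧ y < x}`. Such
`B` exists by `exists_transversal` with `ν = k j`, `ι` the set of these pairs `(ξ, i)` (at most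
`k j` many), `R z y := y < x ∧ z ∈ A s y j` (irreflexive, at most `k j` many `z` for each `y`), and
`Y (ξ, i) = {y | y ∈ φ (s ξ) j i ∧ y < x}`; `B` is the range of `h`. Let `A s x j` be a chosen `B`
with `Q B` (define `A` by `WellFoundedLT.fix`, the step is
`fun prev j => if h : ∃ B, Q prev j B then h.choose else ∅`). If `s`, `s'` agree below `x` then the
predicates `Q` are equal (`funext`, `propext`), so the chosen sets are equal: this gives locality by
induction on `x`. -/

set_option linter.unusedSectionVars false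
set_option linter.unusedVariables false

namespace Pool.Agent.FreeSetsA

universe u

open Set Cardinal

open Classical in
/-- a chosen set with the property `q` -/
private noncomputable def S3_pick {K : Type u} (q : Set K → Prop) : Set K :=
  if h : ∃ B, q B then h.choose else ∅

private theorem S3_pick_spec {K : Type u} (q : Set K → Prop) (h : ∃ B, q B) : q (S3_pick q) := by
  unfold S3_pick
  rw [dif_pos h]
  exact h.choose_spec

/-- the property of the set at `x` -/
private def S3_Q {K C J O : Type u} [LinearOrder K] (k : J → Cardinal.{u}) (P : K → J → Set K)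
    (D : J → Set O) (φ : C → J → O → Set K) (s : K → C) (x : K) (prev : (y : K) → y < x → J → Set K)
    (j : J) (B : Set K) : Prop :=
  (∀ y ∈ B, y < x) ∧ #B ≤ k j ∧ (∀ y ∈ B, ∀ z ∈ B, ∀ h : y < x, z ∉ prev y h j) ∧
    ∀ ξ ∈ P x j, ∀ i ∈ D j, Order.succ (k j) < #{y | y ∈ φ (s ξ) j i ∧ y < x} →
      ∃ y ∈ B, y ∈ φ (s ξ) j i

private theorem S3_exists {K C J O : Type u} [LinearOrder K] (k : J → Cardinal.{u})
    (hk : ∀ j, ℵ₀ ≤ k j) (P : K → J → Set K) (hPc : ∀ x j, #(P x j) ≤ k j) (D : J → Set O)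
    (hD : ∀ j, #(D j) ≤ k j) (φ : C → J → O → Set K) (s : K → C) (x : K) (A : K → J → Set K)
    (j : J) (h1 : ∀ y < x, ∀ z ∈ A y j, z < y) (h2 : ∀ y < x, #(A y j) ≤ k j) :
    ∃ B, S3_Q k P D φ s x (fun y _ => A y) j B := by
  let I : Type u := {p : K × O // (p.1 ∈ P x j ∧ p.2 ∈ D j) ∧
    Order.succ (k j) < #{y | y ∈ φ (s p.1) j p.2 ∧ y < x}}
  have hI : #I ≤ k j := by
    have hinj : Function.Injective (fun p : I => ((⟨p.1.1, p.2.1.1⟩, ⟨p.1.2, p.2.1.2⟩) :
        (P x j) × (D j))) := by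
      rintro ⟨⟨a, b⟩, hp⟩ ⟨⟨a', b'⟩, hp'⟩ h
      simp only [Prod.mk.injEq, Subtype.mk.injEq] at h
      obtain ⟨rfl, rfl⟩ := h
      rfl
    refine (mk_le_of_injective hinj).trans ?_
    rw [mk_prod, lift_id, lift_id]
    refine (mul_le_mul' (hPc x j) (hD j)).trans ?_
    rw [mul_eq_self (hk j)]
  obtain ⟨h, hY, hR⟩ := exists_transversal (W := K) (ι := I) (k j) (hk j) hI
    (fun z y => y < x ∧ z ∈ A y j) (fun z hz => lt_irrefl z (h1 z hz.1 z hz.2))
    (fun y => by
      by_cases hy : y < x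
      · have : {z // y < x ∧ z ∈ A y j} = {z // z ∈ A y j} := by
          congr 1
          funext z
          exact propext ⟨fun h => h.2, fun h => ⟨hy, h⟩⟩
        rw [this]
        exact h2 y hy
      · have : IsEmpty {z // y < x ∧ z ∈ A y j} := ⟨fun z => hy z.2.1⟩
        rw [mk_eq_zero]
        exact zero_le)
    (fun p => {y | y ∈ φ (s p.1.1) j p.1.2 ∧ y < x}) (fun p => p.2.2)
  refine ⟨range h, ?_, ?_, ?_, ?_⟩
  · rintro _ ⟨p, rfl⟩
    exact (hY p).2
  · exact mk_range_le.trans hI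
  · rintro _ ⟨p, rfl⟩ _ ⟨q, rfl⟩ hy hz
    exact hR q p ⟨hy, hz⟩
  · intro ξ hξ i hi hc
    exact ⟨h ⟨(ξ, i), ⟨hξ, hi⟩, hc⟩, ⟨_, rfl⟩, (hY ⟨(ξ, i), ⟨hξ, hi⟩, hc⟩).1⟩

theorem exists_sets {K C J O : Type u} [LinearOrder K] [WellFoundedLT K] (k : J → Cardinal.{u})
    (hk : ∀ j, ℵ₀ ≤ k j) (P : K → J → Set K) (hP : ∀ x j, ∀ ξ ∈ P x j, ξ < x)
    (hPc : ∀ x j, #(P x j) ≤ k j) (D : J → Set O) (hD : ∀ j, #(D j) ≤ k j)
    (φ : C → J → O → Set K) :
    ∃ A : (K → C) → K → J → Set K,
      (∀ s s' x, (∀ y < x, s y = s' y) → A s x = A s' x) ∧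
      (∀ s x j, ∀ y ∈ A s x j, y < x) ∧ (∀ s x j, #(A s x j) ≤ k j) ∧
      (∀ s x j, ∀ y ∈ A s x j, ∀ z ∈ A s x j, z ∉ A s y j) ∧
      ∀ s x j, ∀ ξ ∈ P x j, ∀ i ∈ D j, Order.succ (k j) < #{y | y ∈ φ (s ξ) j i ∧ y < x} →
        ∃ y ∈ A s x j, y ∈ φ (s ξ) j i := by
  let A : (K → C) → K → J → Set K := fun s =>
    WellFoundedLT.fix (fun x prev j => S3_pick (S3_Q k P D φ s x prev j))
  have hA : ∀ s x, A s x = fun j => S3_pick (S3_Q k P D φ s x (fun y _ => A s y) j) := fun s x =>
    WellFoundedLT.fix_eq (fun x prev j => S3_pick (S3_Q k P D φ s x prev j)) x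
  have hQ : ∀ s x j, S3_Q k P D φ s x (fun y _ => A s y) j (A s x j) := by
    intro s x
    induction x using WellFoundedLT.induction with
    | ind x ih =>
      intro j
      rw [hA s x]
      exact S3_pick_spec _ (S3_exists k hk P hPc D hD φ s x (A s) j
        (fun y hy => (ih y hy j).1) (fun y hy => (ih y hy j).2.1))
  refine ⟨A, ?_, fun s x j => (hQ s x j).1, fun s x j => (hQ s x j).2.1, ?_,
    fun s x j => (hQ s x j).2.2.2⟩
  · intro s s' x
    induction x using WellFoundedLT.induction with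
    | ind x ih =>
      intro hs
      rw [hA s x, hA s' x]
      funext j
      congr 1
      funext B
      have hprev : (fun (y : K) (_ : y < x) => A s y) = (fun (y : K) (_ : y < x) => A s' y) := by
        funext y hy
        exact ih y hy (fun z hz => hs z (hz.trans hy))
      rw [hprev]
      unfold S3_Q
      apply propext
      refine and_congr_right fun _ => and_congr_right fun _ => and_congr_right fun _ => ?_
      constructor
      · intro h ξ hξ i hi hc
        rw [← hs ξ (hP x j ξ hξ)] at hc ⊢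
        exact h ξ hξ i hi hc
      · intro h ξ hξ i hi hc
        rw [hs ξ (hP x j ξ hξ)] at hc ⊢
        exact h ξ hξ i hi hc
  · intro s x j y hy z hz
    exact (hQ s x j).2.2.1 y hy z hz ((hQ s x j).1 y hy)

end Pool.Agent.FreeSetsA
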